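import Mathlib

open MeasureTheory Filter Topology Set Metric
open scoped ENNReal NNReal

namespace Pool.Agent.Helper7.GGC

/-- Gamma weight. -/
noncomputable def gw (γ g : ℝ) : ℝ := g ^ (γ - 1) * Real.exp (-g) / Real.Gamma γ

/-- Gamma law with unit scale. -/
noncomputable def gam (γ : ℝ) : Measure ℝ :=
  (volume.restrict (Ioi 0)).withDensity (fun g => ENNReal.ofReal (gw γ g))

lemma measurable_gw (γ : ℝ) : Measurable (gw γ) := by
  unfold gw; fun_prop

lemma gw_nonneg {γ g : ℝ} (hγ : 0 < γ) (hg : 0 < g) : 0 ≤ gw γ g := by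
  unfold gw
  have := Real.Gamma_pos_of_pos hγ
  positivity

lemma integrableOn_gw {γ : ℝ} (hγ : 0 < γ) : IntegrableOn (gw γ) (Ioi 0) := by
  have h := (Real.GammaIntegral_convergent hγ).div_const (Real.Gamma γ)
  refine h.congr (Eventually.of_forall (fun x => ?_))
  simp only [gw]; ring

lemma integral_gw {γ : ℝ} (hγ : 0 < γ) : ∫ g in Ioi 0, gw γ g = 1 := by
  have h := Real.Gamma_eq_integral hγ
  have h0 := (Real.Gamma_pos_of_pos hγ).ne'
  have h1 : ∀ g, gw γ g = Real.exp (-g) * g ^ (γ - 1) / Real.Gamma γ := by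
    intro g; simp only [gw]; ring
  simp_rw [h1]
  rw [integral_div, ← h, div_self h0]

lemma ae_gw_nonneg {γ : ℝ} (hγ : 0 < γ) : 0 ≤ᵐ[volume.restrict (Ioi (0 : ℝ))] gw γ := by
  rw [EventuallyLE, ae_restrict_iff' measurableSet_Ioi]
  exact Eventually.of_forall (fun g hg => gw_nonneg hγ hg)

lemma isProb_gam {γ : ℝ} (hγ : 0 < γ) : IsProbabilityMeasure (gam γ) := by
  constructor
  rw [gam, withDensity_apply _ MeasurableSet.univ, Measure.restrict_univ,
    ← ofReal_integral_eq_lintegral_ofReal (integrableOn_gw hγ) (ae_gw_nonneg hγ), integral_gw hγ]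
  simp

lemma integral_gam {γ : ℝ} (hγ : 0 < γ) {E : Type*} [NormedAddCommGroup E] [NormedSpace ℝ E]
    (f : ℝ → E) : ∫ g, f g ∂(gam γ) = ∫ g in Ioi 0, gw γ g • f g := by
  rw [gam, integral_withDensity_eq_integral_toReal_smul (by
      exact ENNReal.measurable_ofReal.comp (measurable_gw γ)) (by
      filter_upwards with y; exact ENNReal.ofReal_lt_top)]
  apply setIntegral_congr_fun measurableSet_Ioi
  intro g hg
  simp only
  rw [ENNReal.toReal_ofReal (gw_nonneg hγ hg)]

lemma lintegral_gam (γ : ℝ) {f : ℝ → ℝ≥0∞} (hf : Measurable f) :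
    ∫⁻ g, f g ∂(gam γ) = ∫⁻ g in Ioi 0, ENNReal.ofReal (gw γ g) * f g := by
  rw [gam, lintegral_withDensity_eq_lintegral_mul _ (by
      exact ENNReal.measurable_ofReal.comp (measurable_gw γ)) hf]
  rfl

lemma gam_ae_pos (γ : ℝ) : ∀ᵐ g ∂(gam γ), 0 < g := by
  have h : gam γ ≪ volume.restrict (Ioi 0) := withDensity_absolutelyContinuous _ _
  exact h.ae_le (ae_restrict_mem measurableSet_Ioi)

/-- Laplace transform of the gamma law. -/
lemma integral_exp_gam {γ A : ℝ} (hγ : 0 < γ) (hA : 0 < 1 + A) :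
    ∫ g, Real.exp (-(A * g)) ∂(gam γ) = (1 + A) ^ (-γ) := by
  rw [integral_gam hγ]
  have h := Real.integral_rpow_mul_exp_neg_mul_Ioi hγ hA
  have h0 := (Real.Gamma_pos_of_pos hγ).ne'
  have h1 : ∀ g, gw γ g • Real.exp (-(A * g)) = g ^ (γ - 1) * Real.exp (-((1 + A) * g)) / Real.Gamma γ := by
    intro g
    simp only [gw, smul_eq_mul]
    have : Real.exp (-((1 + A) * g)) = Real.exp (-g) * Real.exp (-(A * g)) := by
      rw [← Real.exp_add]; congr 1; ring
    rw [this]; ring
  simp_rw [h1]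
  rw [integral_div, h, mul_div_assoc, div_self h0, mul_one, Real.rpow_neg hA.le, one_div,
    Real.inv_rpow hA.le]

/-- scaling in lower integrals over the half line -/
lemma lintegral_scale {a : ℝ} (ha : 0 < a) (f : ℝ → ℝ≥0∞) :
    ∫⁻ x in Ioi 0, f x = ∫⁻ x in Ioi 0, ENNReal.ofReal a * f (a * x) := by
  have h1 : ∫⁻ x, (Ioi (0 : ℝ)).indicator f x = ∫⁻ x, ENNReal.ofReal a * (Ioi (0 : ℝ)).indicator f (a * x) := by
    have h2 := Real.map_volume_mul_left ha.ne'
    have hemb : MeasurableEmbedding (fun x : ℝ => a * x) :=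
      (Homeomorph.mulLeft₀ a ha.ne').measurableEmbedding
    have h3 : ENNReal.ofReal a • Measure.map (fun x : ℝ => a * x) volume = volume := by
      have h4 : (a * · : ℝ → ℝ) = fun x => a * x := rfl
      rw [← h4, h2, smul_smul, ← ENNReal.ofReal_mul ha.le, abs_of_pos (inv_pos.2 ha),
        mul_inv_cancel₀ ha.ne', ENNReal.ofReal_one, one_smul]
    conv_lhs => rw [← h3]
    rw [lintegral_smul_measure, hemb.lintegral_map, lintegral_const_mul' _ _ ENNReal.ofReal_ne_top]
    rfl
  rw [lintegral_indicator measurableSet_Ioi] at h1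
  rw [h1, ← lintegral_indicator measurableSet_Ioi]
  apply lintegral_congr
  intro x
  by_cases hx : x ∈ Ioi (0 : ℝ)
  · have : a * x ∈ Ioi (0 : ℝ) := mul_pos ha hx
    rw [indicator_of_mem hx, indicator_of_mem this]
  · have : a * x ∉ Ioi (0 : ℝ) := by
      intro h
      apply hx
      exact (mul_pos_iff_of_pos_left ha).1 h
    rw [indicator_of_notMem hx, indicator_of_notMem this, mul_zero]

end Pool.Agent.Helper7.GGC
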