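import Mathlib

open MeasureTheory Filter Topology Set
open scoped ENNReal NNReal unitInterval

namespace Pool.Agent.Helper7.GGC

/-- Compactness of bounded families of finite measures on the unit interval. -/
theorem exists_limit_measure {ι : Type*} (l : Filter ι) [l.NeBot]
    (μ : ι → Measure I) (C : ℝ≥0) (hμ : ∀ i, μ i univ ≤ C) :
    ∃ f : Ultrafilter ι, (f : Filter ι) ≤ l ∧ ∃ κ : Measure I, IsFiniteMeasure κ ∧
      ∀ g : I → ℝ, Continuous g →
        Tendsto (fun i => ∫ x, g x ∂(μ i)) (f : Filter ι) (𝓝 (∫ x, g x ∂κ)) := by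
  let f : Ultrafilter ι := Ultrafilter.of l
  have hfl : (f : Filter ι) ≤ l := Ultrafilter.of_le l
  have hfin : ∀ i, IsFiniteMeasure (μ i) := fun i => ⟨lt_of_le_of_lt (hμ i) (by simp)⟩
  let M : ι → FiniteMeasure I := fun i => ⟨μ i, hfin i⟩
  have hcomp := isCompact_setOfPred_finiteMeasure_le_of_compactSpace I C
  have hM : ∀ i, M i ∈ {ν : FiniteMeasure I | ν.mass ≤ C} := by
    intro i
    simp only [mem_ofPred_eq]
    have := hμ i
    rw [← ENNReal.coe_le_coe, FiniteMeasure.ennreal_mass]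
    exact this
  obtain ⟨κ, hκ, hlim⟩ := hcomp.ultrafilter_le_nhds (f.map M) (by
    rw [le_principal_iff, Ultrafilter.mem_coe, Ultrafilter.mem_map]
    exact Filter.mem_of_superset univ_mem (fun i _ => hM i))
  refine ⟨f, hfl, (κ : Measure I), inferInstance, fun g hg => ?_⟩
  have ht : Tendsto M (f : Filter ι) (𝓝 κ) := hlim
  rw [FiniteMeasure.tendsto_iff_forall_integral_tendsto] at ht
  exact ht (BoundedContinuousFunction.mkOfCompact ⟨g, hg⟩)

/-- The same with an eventual mass bound. -/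
theorem exists_limit_measure' {ι : Type*} (l : Filter ι) [l.NeBot]
    (μ : ι → Measure I) (C : ℝ≥0) (hμ : ∀ᶠ i in l, μ i univ ≤ C) :
    ∃ f : Ultrafilter ι, (f : Filter ι) ≤ l ∧ ∃ κ : Measure I, IsFiniteMeasure κ ∧
      ∀ g : I → ℝ, Continuous g →
        Tendsto (fun i => ∫ x, g x ∂(μ i)) (f : Filter ι) (𝓝 (∫ x, g x ∂κ)) := by
  classical
  obtain ⟨f, hf, κ, hκ, h⟩ := exists_limit_measure l
    (fun i => if μ i univ ≤ C then μ i else 0) C (by
      intro i
      by_cases hi : μ i univ ≤ C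
      · simp only [hi, if_true]
      · simp only [hi, if_false]; simp)
  refine ⟨f, hf, κ, hκ, fun g hg => (h g hg).congr' ?_⟩
  filter_upwards [hf hμ] with i hi
  simp only [hi, if_true]

end Pool.Agent.Helper7.GGC
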