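import Mathlib

open MeasureTheory Filter Topology Set Metric
open scoped ENNReal NNReal unitInterval

namespace Pool.Agent.Helper7.GGC

lemma ker_pos {l : ℝ} (hl : 0 < l) (y : I) : 0 < 1 + (l - 1) * (y : ℝ) := by
  have hy0 := y.2.1
  have hy1 := y.2.2
  nlinarith [mul_nonneg hy0 hl.le, mul_nonneg (sub_nonneg.2 hy1) hl.le]

lemma continuous_ker {l : ℝ} (hl : 0 < l) : Continuous fun y : I => 1 / (1 + (l - 1) * (y : ℝ)) := by
  apply Continuous.div
  · fun_prop
  · fun_prop
  · intro y; exact (ker_pos hl y).ne'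

lemma continuous_ker' {l : ℝ} (hl : 0 < l) :
    Continuous fun y : I => (l - 1) / (4 * (1 + (l - 1) * (y : ℝ))) := by
  apply Continuous.div
  · fun_prop
  · fun_prop
  · intro y; have := ker_pos hl y; positivity

lemma integrable_of_cont {ν : Measure I} [IsFiniteMeasure ν] {g : I → ℝ} (hg : Continuous g) :
    Integrable g ν := by
  have := hg.integrable_of_hasCompactSupport (μ := ν) (HasCompactSupport.of_compactSpace g)
  exact this

theorem stieltjes_of_kernel {ν : Measure I} [IsFiniteMeasure ν] {h : ℝ → ℝ}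
    (hpos : ∀ l, 0 < l → 0 ≤ h l)
    (hrep : ∀ l, 0 < l → h l - h 1 = ∫ y : I, (l - 1) / (4 * (1 + (l - 1) * (y : ℝ))) ∂ν) :
    ∃ κ : Measure I, IsFiniteMeasure κ ∧
      ∀ l, 0 < l → h l = l * ∫ y : I, 1 / (1 + (l - 1) * (y : ℝ)) ∂κ := by
  classical
  -- sequence l_n
  set L : ℕ → ℝ := fun n => 1 / ((n : ℝ) + 2) with hL
  have hLpos : ∀ n, 0 < L n := by intro n; simp only [hL]; positivity
  have hLlt : ∀ n, L n < 1 := by
    intro n; simp only [hL]; rw [div_lt_one (by positivity)]
    have : (0 : ℝ) ≤ n := Nat.cast_nonneg n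
    linarith
  have hLlim : Tendsto L atTop (𝓝 0) := by
    have h1 : Tendsto (fun n : ℕ => 1 / ((n : ℝ) + 1)) atTop (𝓝 0) :=
      tendsto_one_div_add_atTop_nhds_zero_nat
    have h2 := (tendsto_add_atTop_iff_nat 1).2 h1
    refine h2.congr (fun n => ?_)
    simp only [hL]; push_cast; ring_nf
  set f : ℕ → I → ℝ≥0∞ := fun n y =>
    ENNReal.ofReal ((1 - L n) / (4 * (1 - (1 - L n) * (y : ℝ)))) with hf
  set g : I → ℝ≥0∞ := fun y => if y = 1 then ⊤ else ENNReal.ofReal (1 / (4 * (1 - (y : ℝ)))) with hg
  have hfcont : ∀ n, Continuous fun y : I => (1 - L n) / (4 * (1 - (1 - L n) * (y : ℝ))) := by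
    intro n
    have := (continuous_ker' (hLpos n)).neg
    refine this.congr (fun y => ?_)
    rw [Pi.neg_apply, ← neg_div]; congr 1 <;> ring
  have hfpos : ∀ n (y : I), 0 ≤ (1 - L n) / (4 * (1 - (1 - L n) * (y : ℝ))) := by
    intro n y
    have h1 := ker_pos (hLpos n) y
    have h2 := hLlt n
    apply div_nonneg (by linarith)
    nlinarith
  have hlim : ∀ y : I, Tendsto (fun n => f n y) atTop (𝓝 (g y)) := by
    intro y
    by_cases hy : y = 1
    · simp only [hf, hg, hy, if_true]
      apply ENNReal.tendsto_ofReal_atTop.comp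
      have h1 : ∀ n, (1 - L n) / (4 * (1 - (1 - L n) * ((1 : I) : ℝ))) = (n + 2 - 1) / 4 := by
        intro n
        simp only [hL, Icc.coe_one]
        have : (n : ℝ) + 2 ≠ 0 := by positivity
        field_simp
        ring
      simp_rw [h1]
      apply Tendsto.atTop_div_const (by norm_num)
      have : Tendsto (fun n : ℕ => (n : ℝ) + 1) atTop atTop :=
        tendsto_atTop_add_const_right _ _ tendsto_natCast_atTop_atTop
      refine this.congr (fun n => by ring)
    · simp only [hf, hg, hy, if_false]
      apply ENNReal.tendsto_ofReal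
      have hy1 : (1 : ℝ) - y ≠ 0 := by
        intro h
        apply hy
        ext
        simp only [Icc.coe_one]
        linarith
      have : Tendsto (fun n => (1 - L n) / (4 * (1 - (1 - L n) * (y : ℝ)))) atTop
          (𝓝 ((1 - 0) / (4 * (1 - (1 - 0) * (y : ℝ))))) := by
        apply Tendsto.div
        · exact tendsto_const_nhds.sub hLlim
        · apply Tendsto.const_mul
          exact tendsto_const_nhds.sub ((tendsto_const_nhds.sub hLlim).mul_const _)
        · simpa using hy1
      simpa using this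
  have hfint : ∀ n, ∫⁻ y, f n y ∂ν ≤ ENNReal.ofReal (h 1) := by
    intro n
    simp only [hf]
    rw [← ofReal_integral_eq_lintegral_ofReal (integrable_of_cont (hfcont n))
      (Eventually.of_forall (hfpos n))]
    apply ENNReal.ofReal_le_ofReal
    have h1 := hrep (L n) (hLpos n)
    have h2 : ∫ y : I, (1 - L n) / (4 * (1 - (1 - L n) * (y : ℝ))) ∂ν
        = - ∫ y : I, (L n - 1) / (4 * (1 + (L n - 1) * (y : ℝ))) ∂ν := by
      rw [← integral_neg]
      apply integral_congr_ae
      filter_upwards with y
      rw [← neg_div]; congr 1 <;> ring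
    rw [h2, ← h1]
    have := hpos (L n) (hLpos n)
    linarith
  have hfatou : ∫⁻ y, g y ∂ν ≤ ENNReal.ofReal (h 1) := by
    have h1 := lintegral_liminf_le (μ := ν) (u := atTop) (f := f) (fun n =>
      (ENNReal.continuous_ofReal.comp (hfcont n)).measurable)
    have h2 : ∀ y, liminf (fun n => f n y) atTop = g y := fun y => (hlim y).liminf_eq
    simp_rw [h2] at h1
    refine h1.trans ?_
    calc liminf (fun n => ∫⁻ a, f n a ∂ν) atTop ≤ liminf (fun _ : ℕ => ENNReal.ofReal (h 1)) atTop :=
          liminf_le_liminf (Eventually.of_forall hfint)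
      _ = ENNReal.ofReal (h 1) := liminf_const _
  have hgmeas : Measurable g := by
    simp only [hg]
    apply Measurable.ite (measurableSet_singleton 1) measurable_const
    fun_prop
  have hae : ∀ᵐ y ∂ν, y ≠ 1 := by
    have h1 := ae_lt_top hgmeas (ne_of_lt (lt_of_le_of_lt hfatou ENNReal.ofReal_lt_top))
    filter_upwards [h1] with y hy h
    simp [hg, h] at hy
  set q : I → ℝ := fun y => 1 / (4 * (1 - (y : ℝ))) with hq
  have hqnn : ∀ y, 0 ≤ q y := by
    intro y
    have := y.2.2
    simp only [hq]
    apply div_nonneg zero_le_one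
    linarith
  have hqmeas : Measurable q := by simp only [hq]; fun_prop
  have hqint_l : ∫⁻ y, ENNReal.ofReal (q y) ∂ν ≤ ENNReal.ofReal (h 1) := by
    refine le_trans (lintegral_mono (fun y => ?_)) hfatou
    simp only [hg]
    split_ifs
    · exact le_top
    · exact le_rfl
  have hqint : Integrable q ν := by
    refine ⟨hqmeas.aestronglyMeasurable, ?_⟩
    rw [hasFiniteIntegral_iff_ofReal (Eventually.of_forall hqnn)]
    exact lt_of_le_of_lt hqint_l ENNReal.ofReal_lt_top
  have hh1 : 0 ≤ h 1 := hpos 1 one_pos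
  set c0 : ℝ := h 1 - ∫ y, q y ∂ν with hc0
  have hc0nn : 0 ≤ c0 := by
    simp only [hc0]
    have := integral_eq_lintegral_of_nonneg_ae (μ := ν) (f := q) (Eventually.of_forall hqnn)
      hqmeas.aestronglyMeasurable
    rw [this]
    have h2 := ENNReal.toReal_mono ENNReal.ofReal_ne_top hqint_l
    rw [ENNReal.toReal_ofReal hh1] at h2
    linarith
  have hfin1 : IsFiniteMeasure (ν.withDensity fun y => ENNReal.ofReal (q y)) := by
    apply isFiniteMeasure_withDensity
    exact ne_of_lt (lt_of_le_of_lt hqint_l ENNReal.ofReal_lt_top)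
  have hfin2 : IsFiniteMeasure (ENNReal.ofReal c0 • Measure.dirac (1 : I)) := by
    constructor
    simp [ENNReal.ofReal_lt_top]
  refine ⟨(ν.withDensity fun y => ENNReal.ofReal (q y)) + ENNReal.ofReal c0 • Measure.dirac (1 : I),
    inferInstance, fun l hl => ?_⟩
  rw [integral_add_measure (integrable_of_cont (continuous_ker hl))
    (integrable_of_cont (continuous_ker hl)), integral_smul_measure, integral_dirac,
    ENNReal.toReal_ofReal hc0nn, integral_withDensity_eq_integral_toReal_smul]
  · have hr := hrep l hl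
    have hsum : (∫ y, q y ∂ν) + ∫ y : I, (l - 1) / (4 * (1 + (l - 1) * (y : ℝ))) ∂ν
        = l * ∫ y : I, (ENNReal.ofReal (q y)).toReal • (1 / (1 + (l - 1) * (y : ℝ))) ∂ν := by
      rw [← integral_add hqint (integrable_of_cont (continuous_ker' hl)), ← integral_const_mul]
      apply integral_congr_ae
      filter_upwards [hae] with y hy
      rw [ENNReal.toReal_ofReal (hqnn y), smul_eq_mul]
      have h1 := (ker_pos hl y).ne'
      have hy1 : (1 : ℝ) - y ≠ 0 := by
        intro h
        apply hy
        ext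
        simp only [Icc.coe_one]
        linarith
      simp only [hq]
      have key : (1 + (l - 1) * (y : ℝ)) + (l - 1) * (1 - (y : ℝ)) = l := by ring
      generalize (1 + (l - 1) * (y : ℝ)) = d at *
      generalize (1 - (y : ℝ)) = e at *
      have h2 : 1 / (4 * e) + (l - 1) / (4 * d) = (d + (l - 1) * e) / (4 * e * d) := by
        field_simp
      rw [h2, key]
      field_simp
    have : (1 : ℝ) + (l - 1) * ((1 : I) : ℝ) = l := by simp
    rw [this, smul_eq_mul, mul_add, ← hsum, mul_one_div, mul_div_cancel₀ _ hl.ne']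
    simp only [hc0]
    linarith
  · exact (ENNReal.measurable_ofReal.comp hqmeas)
  · filter_upwards with y
    exact ENNReal.ofReal_lt_top

end Pool.Agent.Helper7.GGC
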