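import Mathlib
import Pool.Agent.Helper7.GGC.Compact
import Pool.Agent.Helper7.GGC.Kernel

open MeasureTheory Filter Topology Set Metric
open scoped ENNReal NNReal unitInterval

namespace Pool.Agent.Helper7.GGC

/-- The logarithmic kernel `log(1+(x-1)y)/y`, continuously extended to `y = 0`. -/
noncomputable def KK (x y : ℝ) : ℝ := dslope (fun y : ℝ => Real.log (1 + (x - 1) * y)) 0 y

lemma hasDerivAt_logaux (x y : ℝ) (h : 0 < 1 + (x - 1) * y) :
    HasDerivAt (fun y : ℝ => Real.log (1 + (x - 1) * y)) ((x - 1) / (1 + (x - 1) * y)) y := by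
  have h1 : HasDerivAt (fun y : ℝ => 1 + (x - 1) * y) (x - 1) y := by
    simpa using ((hasDerivAt_id y).const_mul (x - 1)).const_add 1
  exact h1.log h.ne'

lemma KK_zero (x : ℝ) : KK x 0 = x - 1 := by
  rw [KK, dslope_same]
  have := (hasDerivAt_logaux x 0 (by simp)).deriv
  rw [this]; simp

lemma KK_of_ne (x : ℝ) {y : ℝ} (hy : y ≠ 0) : KK x y = Real.log (1 + (x - 1) * y) / y := by
  rw [KK, dslope_of_ne _ hy, slope_def_field]
  simp

lemma KK_one_left (y : ℝ) : KK 1 y = 0 := by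
  by_cases hy : y = 0
  · rw [hy, KK_zero]; simp
  · rw [KK_of_ne _ hy]; simp

lemma continuous_KK {x : ℝ} (hx : 0 < x) : Continuous fun y : I => KK x (y : ℝ) := by
  have hs : IsOpen {y : ℝ | 0 < 1 + (x - 1) * y} := isOpen_lt continuous_const (by fun_prop)
  have h0 : (0 : ℝ) ∈ {y : ℝ | 0 < 1 + (x - 1) * y} := by simp
  have hc : ContinuousOn (dslope (fun y : ℝ => Real.log (1 + (x - 1) * y)) 0)
      {y : ℝ | 0 < 1 + (x - 1) * y} := by
    rw [continuousOn_dslope (hs.mem_nhds h0)]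
    constructor
    · intro y hy
      exact (hasDerivAt_logaux x y hy).continuousAt.continuousWithinAt
    · exact (hasDerivAt_logaux x 0 h0).differentiableAt
  exact hc.comp_continuous continuous_subtype_val (fun y => ker_pos hx y)

/-- derivative of the kernel in `x` -/
lemma hasDerivAt_KK {x : ℝ} (hx : 0 < x) (y : I) :
    HasDerivAt (fun x => KK x (y : ℝ)) (1 / (1 + (x - 1) * (y : ℝ))) x := by
  by_cases hy : (y : ℝ) = 0
  · simp_rw [hy, KK_zero]
    simpa using (hasDerivAt_id x).sub_const 1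
  · simp_rw [KK_of_ne _ hy]
    have h1 : HasDerivAt (fun x : ℝ => 1 + (x - 1) * (y : ℝ)) (y : ℝ) x := by
      simpa using (((hasDerivAt_id x).sub_const 1).mul_const (y : ℝ)).const_add 1
    have h2 := (h1.log (ker_pos hx y).ne').div_const (y : ℝ)
    have h4 := (ker_pos hx y).ne'
    have h3 : (y : ℝ) / (1 + (x - 1) * (y : ℝ)) / (y : ℝ) = 1 / (1 + (x - 1) * (y : ℝ)) := by
      field_simp
    rw [h3] at h2
    exact h2

/-- pre-Thorin form -/
def PT (L : ℝ → ℝ) : Prop :=
  ∃ κ : Measure I, IsFiniteMeasure κ ∧ ∀ x : ℝ, 0 < x → L x - L 1 = ∫ y : I, KK x (y : ℝ) ∂κ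

theorem hasDerivAt_integral_KK {κ : Measure I} [IsFiniteMeasure κ] {x : ℝ} (hx : 0 < x) :
    HasDerivAt (fun x => ∫ y : I, KK x (y : ℝ) ∂κ) (∫ y : I, 1 / (1 + (x - 1) * (y : ℝ)) ∂κ) x := by
  have hm : 0 < min 1 (x / 2) := lt_min one_pos (by linarith)
  have hball : ∀ z ∈ ball x (x / 2), x / 2 < z := by
    intro z hz
    rw [mem_ball, Real.dist_eq, abs_lt] at hz
    linarith [hz.1]
  refine (hasDerivAt_integral_of_dominated_loc_of_deriv_le
    (F := fun x (y : I) => KK x (y : ℝ)) (F' := fun x (y : I) => 1 / (1 + (x - 1) * (y : ℝ)))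
    (bound := fun _ => 1 / min 1 (x / 2)) (ball_mem_nhds x (show (0 : ℝ) < x / 2 by linarith)) ?_ ?_ ?_ ?_ ?_ ?_).2
  · filter_upwards [lt_mem_nhds hx] with z hz
    exact (continuous_KK hz).aestronglyMeasurable
  · exact integrable_of_cont (continuous_KK hx)
  · exact (continuous_ker hx).aestronglyMeasurable
  · filter_upwards with y z hz
    have hz' := hball z hz
    have hz0 : 0 < z := by linarith
    have h1 := ker_pos hz0 y
    rw [Real.norm_eq_abs, abs_of_pos (by positivity)]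
    apply one_div_le_one_div_of_le hm
    have hy0 := y.2.1
    have hy1 := y.2.2
    rcases le_or_gt 1 z with h | h
    · refine (min_le_left _ _).trans ?_
      nlinarith
    · refine (min_le_right _ _).trans ?_
      nlinarith
  · exact integrable_const _
  · filter_upwards with y z hz
    exact hasDerivAt_KK (by linarith [hball z hz]) y

theorem PT_of_stieltjes {L L' : ℝ → ℝ} {κ : Measure I} [IsFiniteMeasure κ]
    (hL : ∀ x, 0 < x → HasDerivAt L (L' x) x)
    (hrep : ∀ x, 0 < x → L' x = ∫ y : I, 1 / (1 + (x - 1) * (y : ℝ)) ∂κ) : PT L := by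
  refine ⟨κ, inferInstance, fun x hx => ?_⟩
  set D : ℝ → ℝ := fun x => L x - ∫ y : I, KK x (y : ℝ) ∂κ with hD
  have hDd : ∀ x ∈ Ioi (0 : ℝ), HasDerivAt D 0 x := by
    intro x hx
    have := (hL x hx).sub (hasDerivAt_integral_KK (κ := κ) hx)
    rw [hrep x hx, sub_self] at this
    exact this
  have hconst : D x = D 1 := by
    apply IsOpen.is_const_of_deriv_eq_zero isOpen_Ioi isPreconnected_Ioi
      (fun z hz => (hDd z hz).differentiableAt.differentiableWithinAt)
      (fun z hz => (hDd z hz).deriv) hx (by simp)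
  simp only [hD] at hconst
  have h1 : ∫ y : I, KK 1 (y : ℝ) ∂κ = 0 := by simp [KK_one_left]
  rw [h1] at hconst
  linarith

lemma KK_two_ge (y : I) : 1 / 2 ≤ KK 2 (y : ℝ) := by
  have hy0 := y.2.1
  have hy1 := y.2.2
  by_cases hy : (y : ℝ) = 0
  · rw [hy, KK_zero]; norm_num
  · have hypos : 0 < (y : ℝ) := lt_of_le_of_ne hy0 (Ne.symm hy)
    rw [KK_of_ne _ hy, le_div_iff₀ hypos]
    have h1 : 0 < 1 + (2 - 1) * (y : ℝ) := by linarith
    have h2 := Real.one_sub_inv_le_log_of_pos h1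
    refine le_trans ?_ h2
    have h3 : 1 - (1 + (2 - 1) * (y : ℝ))⁻¹ = y / (1 + y) := by
      field_simp
      ring
    rw [h3, div_mul_eq_mul_div, one_mul]
    apply div_le_div_of_nonneg_left hypos.le (by linarith) (by linarith)

theorem PT_of_tendsto {ι : Type*} {l : Filter ι} [l.NeBot] {Li : ι → ℝ → ℝ} {L : ℝ → ℝ}
    (hPT : ∀ i, PT (Li i)) (hlim : ∀ x, 0 < x → Tendsto (fun i => Li i x) l (𝓝 (L x))) :
    PT L := by
  choose κ hκ hrep using hPT
  set C : ℝ≥0 := Real.toNNReal (2 * (L 2 - L 1 + 1)) with hC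
  have hmass : ∀ᶠ i in l, κ i univ ≤ C := by
    have h1 : Tendsto (fun i => Li i 2 - Li i 1) l (𝓝 (L 2 - L 1)) :=
      (hlim 2 two_pos).sub (hlim 1 one_pos)
    filter_upwards [h1.eventually_lt_const (show L 2 - L 1 < L 2 - L 1 + 1 by linarith)] with i hi
    rw [hrep i 2 two_pos] at hi
    have h2 : 1 / 2 * (κ i).real univ ≤ ∫ y : I, KK 2 (y : ℝ) ∂(κ i) := by
      have : ∫ _y : I, (1 / 2 : ℝ) ∂(κ i) ≤ ∫ y : I, KK 2 (y : ℝ) ∂(κ i) := by
        apply integral_mono (integrable_const _) (integrable_of_cont (continuous_KK two_pos))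
        intro y; exact KK_two_ge y
      rw [integral_const, smul_eq_mul] at this
      linarith
    have h3 : (κ i).real univ ≤ 2 * (L 2 - L 1 + 1) := by linarith
    rw [hC, ← ENNReal.ofReal, ← ENNReal.ofReal_toReal (measure_ne_top (κ i) univ)]
    exact ENNReal.ofReal_le_ofReal h3
  obtain ⟨f, hf, κ', hκ', hlim'⟩ := exists_limit_measure' l κ C hmass
  refine ⟨κ', hκ', fun x hx => ?_⟩
  have h1 : Tendsto (fun i => Li i x - Li i 1) f (𝓝 (L x - L 1)) :=
    ((hlim x hx).sub (hlim 1 one_pos)).mono_left hf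
  have h2 := hlim' _ (continuous_KK hx)
  refine tendsto_nhds_unique h1 (h2.congr (fun i => (hrep i x hx).symm))

end Pool.Agent.Helper7.GGC
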