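import Mathlib
import Pool.Agent.Helper7.GGC.Thorin

open MeasureTheory Filter Topology Set Metric
open scoped ENNReal NNReal unitInterval

namespace Pool.Agent.Helper7.GGC

/-- Thorin form of a function on the positive half line. -/
def Thorin (φ : ℝ → ℝ) : Prop :=
  ∃ a : ℝ, 0 ≤ a ∧ ∃ U : Measure ℝ, U (Iic 0) = 0 ∧ ∀ l : ℝ, 0 < l →
    Integrable (fun t : ℝ => Real.log (1 + l / t)) U ∧
    φ l = Real.exp (-(a * l) - ∫ t, Real.log (1 + l / t) ∂U)

/-- limit kernel at `x = 0`, with sign changed -/
noncomputable def GG (y : ℝ) : ℝ := if y = 0 then 1 else -Real.log (1 - y) / y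

lemma measurable_GG : Measurable GG := by
  unfold GG
  apply Measurable.ite (measurableSet_singleton 0) measurable_const
  fun_prop

lemma GG_nonneg (y : I) : 0 ≤ GG (y : ℝ) := by
  have hy0 := y.2.1
  have hy1 := y.2.2
  unfold GG
  split_ifs with h
  · exact zero_le_one
  · apply div_nonneg _ hy0
    rw [neg_nonneg]
    exact Real.log_nonpos (by linarith) (by linarith)

lemma neg_KK_nonneg {x : ℝ} (hx0 : 0 < x) (hx : x < 1) (y : I) : 0 ≤ -KK x (y : ℝ) := by
  have hy0 := y.2.1
  have hy1 := y.2.2
  by_cases h : (y : ℝ) = 0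
  · rw [h, KK_zero]; linarith
  · rw [KK_of_ne _ h, ← neg_div]
    apply div_nonneg _ hy0
    rw [neg_nonneg]
    apply Real.log_nonpos (ker_pos hx0 y).le
    nlinarith

lemma neg_KK_le {x : ℝ} (hx0 : 0 < x) (y : I) (hy : y ≠ 1) : -KK x (y : ℝ) ≤ GG (y : ℝ) := by
  have hy0 := y.2.1
  have hy1 : (y : ℝ) < 1 := by
    rcases lt_or_eq_of_le y.2.2 with h | h
    · exact h
    · exact absurd (Subtype.ext h) hy
  unfold GG
  split_ifs with h
  · rw [h, KK_zero]; linarith
  · have hypos : 0 < (y : ℝ) := lt_of_le_of_ne hy0 (Ne.symm h)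
    rw [KK_of_ne _ h, ← neg_div]
    apply div_le_div_of_nonneg_right _ hy0
    rw [neg_le_neg_iff]
    apply Real.log_le_log (by linarith)
    nlinarith

theorem thorin_of_PT {φ L : ℝ → ℝ} (hφ : ∀ x, 0 < x → φ x = Real.exp (-L x)) (hPT : PT L)
    (hlim : Tendsto L (𝓝[>] 0) (𝓝 0)) : Thorin φ := by
  classical
  obtain ⟨κ, hκ, hrep⟩ := hPT
  -- sequence
  set X : ℕ → ℝ := fun n => 1 / ((n : ℝ) + 2) with hX
  have hXpos : ∀ n, 0 < X n := by intro n; simp only [hX]; positivity
  have hXlt : ∀ n, X n < 1 := by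
    intro n; simp only [hX]; rw [div_lt_one (by positivity)]
    have : (0 : ℝ) ≤ n := Nat.cast_nonneg n
    linarith
  have hXlim : Tendsto X atTop (𝓝 0) := by
    have h1 : Tendsto (fun n : ℕ => 1 / ((n : ℝ) + 1)) atTop (𝓝 0) :=
      tendsto_one_div_add_atTop_nhds_zero_nat
    have h2 := (tendsto_add_atTop_iff_nat 1).2 h1
    refine h2.congr (fun n => ?_)
    simp only [hX]; push_cast; ring_nf
  have hLX : Tendsto (fun n => L (X n)) atTop (𝓝 0) := by
    apply hlim.comp
    rw [tendsto_nhdsWithin_iff]
    exact ⟨hXlim, Eventually.of_forall hXpos⟩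
  have hint : ∀ n, ∫ y : I, -KK (X n) (y : ℝ) ∂κ = L 1 - L (X n) := by
    intro n
    rw [integral_neg, ← hrep _ (hXpos n)]
    ring
  have hKlim : ∀ y : I, y ≠ 1 → Tendsto (fun n => -KK (X n) (y : ℝ)) atTop (𝓝 (GG (y : ℝ))) := by
    intro y hy
    have hy1 : (y : ℝ) < 1 := by
      rcases lt_or_eq_of_le y.2.2 with h | h
      · exact h
      · exact absurd (Subtype.ext h) hy
    unfold GG
    split_ifs with h
    · simp_rw [h, KK_zero]
      have : Tendsto (fun n => -(X n - 1)) atTop (𝓝 (-(0 - 1))) := (hXlim.sub_const 1).neg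
      simpa using this
    · simp_rw [KK_of_ne _ h, ← neg_div]
      apply Tendsto.div_const
      apply Tendsto.neg
      apply Tendsto.log
      · have : Tendsto (fun n => 1 + (X n - 1) * (y : ℝ)) atTop (𝓝 (1 + (0 - 1) * (y : ℝ))) :=
          ((hXlim.sub_const 1).mul_const _).const_add 1
        convert this using 2
        ring
      · linarith
  -- Fatou
  set g : I → ℝ≥0∞ := fun y => if y = 1 then ⊤ else ENNReal.ofReal (GG (y : ℝ)) with hg
  have hgmeas : Measurable g := by
    simp only [hg]
    apply Measurable.ite (measurableSet_singleton 1) measurable_const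
    exact ENNReal.measurable_ofReal.comp (measurable_GG.comp measurable_subtype_coe)
  have hlimE : ∀ y : I, Tendsto (fun n => ENNReal.ofReal (-KK (X n) (y : ℝ))) atTop (𝓝 (g y)) := by
    intro y
    by_cases hy : y = 1
    · simp only [hg, hy, if_true]
      apply ENNReal.tendsto_ofReal_atTop.comp
      have h1 : ∀ n, -KK (X n) ((1 : I) : ℝ) = -Real.log (X n) := by
        intro n
        rw [Icc.coe_one, KK_of_ne _ one_ne_zero]
        simp
      simp_rw [h1]
      rw [tendsto_neg_atTop_iff]
      apply Real.tendsto_log_nhdsGT_zero.comp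
      rw [tendsto_nhdsWithin_iff]
      exact ⟨hXlim, Eventually.of_forall hXpos⟩
    · simp only [hg, hy, if_false]
      exact ENNReal.tendsto_ofReal (hKlim y hy)
  have hfatou : ∫⁻ y, g y ∂κ ≤ ENNReal.ofReal (L 1) := by
    have h1 := lintegral_liminf_le (μ := κ) (u := atTop)
      (f := fun n (y : I) => ENNReal.ofReal (-KK (X n) (y : ℝ))) (fun n =>
      (ENNReal.continuous_ofReal.comp (continuous_KK (hXpos n)).neg).measurable)
    have h2 : ∀ y : I, liminf (fun n => ENNReal.ofReal (-KK (X n) (y : ℝ))) atTop = g y :=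
      fun y => (hlimE y).liminf_eq
    simp_rw [h2] at h1
    refine h1.trans (le_of_eq ?_)
    apply Tendsto.liminf_eq
    have h3 : ∀ n, ∫⁻ y : I, ENNReal.ofReal (-KK (X n) (y : ℝ)) ∂κ = ENNReal.ofReal (L 1 - L (X n)) := by
      intro n
      have h4 : Integrable (fun y : I => -KK (X n) (y : ℝ)) κ :=
        integrable_of_cont (continuous_KK (hXpos n)).neg
      rw [← ofReal_integral_eq_lintegral_ofReal h4
        (Eventually.of_forall (fun y => neg_KK_nonneg (hXpos n) (hXlt n) y)), ← hint n]
    simp_rw [h3]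
    apply ENNReal.tendsto_ofReal
    simpa using hLX.const_sub (L 1)
  have hae : ∀ᵐ y ∂κ, y ≠ 1 := by
    have h1 := ae_lt_top hgmeas (ne_of_lt (lt_of_le_of_lt hfatou ENNReal.ofReal_lt_top))
    filter_upwards [h1] with y hy h
    simp [hg, h] at hy
  have hGint : Integrable (fun y : I => GG (y : ℝ)) κ := by
    refine ⟨(measurable_GG.comp measurable_subtype_coe).aestronglyMeasurable, ?_⟩
    rw [hasFiniteIntegral_iff_ofReal (Eventually.of_forall GG_nonneg)]
    refine lt_of_le_of_lt (le_trans (lintegral_mono_ae ?_) hfatou) ENNReal.ofReal_lt_top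
    filter_upwards [hae] with y hy
    simp only [hg, hy, if_false]
    exact le_rfl
  have hL1 : L 1 = ∫ y : I, GG (y : ℝ) ∂κ := by
    have h1 : Tendsto (fun n => ∫ y : I, -KK (X n) (y : ℝ) ∂κ) atTop (𝓝 (∫ y : I, GG (y : ℝ) ∂κ)) := by
      apply tendsto_integral_of_dominated_convergence (fun y : I => GG (y : ℝ))
      · intro n; exact (continuous_KK (hXpos n)).neg.aestronglyMeasurable
      · exact hGint
      · intro n
        filter_upwards [hae] with y hy
        rw [Real.norm_eq_abs, abs_of_nonneg (neg_KK_nonneg (hXpos n) (hXlt n) y)]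
        exact neg_KK_le (hXpos n) y hy
      · filter_upwards [hae] with y hy using hKlim y hy
    have h2 : Tendsto (fun n => ∫ y : I, -KK (X n) (y : ℝ) ∂κ) atTop (𝓝 (L 1)) := by
      simp_rw [hint]
      simpa using hLX.const_sub (L 1)
    exact tendsto_nhds_unique h2 h1
  -- the measure U
  set q : I → ℝ≥0∞ := fun y => ENNReal.ofReal (1 / (y : ℝ)) with hq
  have hqm : Measurable q := by simp only [hq]; fun_prop
  set T : I → ℝ := fun y => 1 / (y : ℝ) - 1 with hT
  have hTm : Measurable T := by simp only [hT]; fun_prop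
  set ρ : Measure I := (κ.restrict {(0 : I)}ᶜ).withDensity q with hρ
  refine ⟨κ.real {(0 : I)}, measureReal_nonneg, Measure.map T ρ, ?_, ?_⟩
  · rw [Measure.map_apply hTm measurableSet_Iic, hρ,
      withDensity_apply _ (hTm measurableSet_Iic)]
    have hnull : ((κ.restrict {(0 : I)}ᶜ).restrict (T ⁻¹' Iic 0)) = 0 := by
      rw [Measure.restrict_eq_zero, Measure.restrict_apply (hTm measurableSet_Iic)]
      refine measure_mono_null ?_ (ae_iff.1 hae)
      rintro y ⟨hy1, hy2⟩
      simp only [mem_preimage, hT, mem_Iic] at hy1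
      simp only [mem_compl_iff, mem_singleton_iff] at hy2
      have hy0 : (y : ℝ) ≠ 0 := fun h => hy2 (Subtype.ext h)
      have hypos : 0 < (y : ℝ) := lt_of_le_of_ne y.2.1 (Ne.symm hy0)
      have h3 : 1 ≤ (y : ℝ) := by
        have : 1 / (y : ℝ) ≤ 1 := by linarith
        rwa [div_le_one hypos] at this
      simp only [mem_ofPred_eq, not_not]
      apply Subtype.ext
      exact le_antisymm y.2.2 h3
    rw [hnull]; simp
  · intro l hl
    have hlogm : Measurable fun t : ℝ => Real.log (1 + l / t) := by fun_prop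
    have hpt : ∀ᵐ y ∂(κ.restrict {(0 : I)}ᶜ), (q y).toReal • Real.log (1 + l / T y)
        = GG (y : ℝ) + KK l (y : ℝ) := by
      rw [ae_restrict_iff' (measurableSet_singleton _).compl]
      filter_upwards [hae] with y hy1 hy0'
      have hy0 : (y : ℝ) ≠ 0 := fun h => hy0' (by
        rw [mem_singleton_iff]; exact Subtype.ext h)
      have hypos : 0 < (y : ℝ) := lt_of_le_of_ne y.2.1 (Ne.symm hy0)
      have hylt : (y : ℝ) < 1 := by
        rcases lt_or_eq_of_le y.2.2 with h | h
        · exact h
        · exact absurd (Subtype.ext h) hy1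
      have h1 : 1 - (y : ℝ) ≠ 0 := by linarith
      simp only [hq, hT]
      rw [ENNReal.toReal_ofReal (by positivity), smul_eq_mul, KK_of_ne _ hy0, GG, if_neg hy0]
      have h2 : 1 + l / (1 / (y : ℝ) - 1) = (1 + (l - 1) * (y : ℝ)) / (1 - y) := by
        have : 1 / (y : ℝ) - 1 = (1 - y) / y := by field_simp
        rw [this]
        field_simp
        ring
      rw [h2, Real.log_div (ker_pos hl y).ne' h1]
      ring
    have hint1 : Integrable (fun y : I => GG (y : ℝ) + KK l (y : ℝ)) κ :=
      hGint.add (integrable_of_cont (continuous_KK hl))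
    constructor
    · rw [integrable_map_measure hlogm.aestronglyMeasurable hTm.aemeasurable, hρ,
        integrable_withDensity_iff_integrable_smul' hqm (by
          filter_upwards with y; exact ENNReal.ofReal_lt_top)]
      refine (hint1.mono_measure Measure.restrict_le_self).congr ?_
      filter_upwards [hpt] with y hy
      exact hy.symm
    · rw [hφ l hl, integral_map hTm.aemeasurable hlogm.aestronglyMeasurable, hρ,
        integral_withDensity_eq_integral_toReal_smul hqm (by
          filter_upwards with y; exact ENNReal.ofReal_lt_top),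
        integral_congr_ae hpt]
      congr 1
      have h1 : L l = ∫ y : I, (GG (y : ℝ) + KK l (y : ℝ)) ∂κ := by
        rw [integral_add hGint (integrable_of_cont (continuous_KK hl)), ← hL1, ← hrep l hl]
        ring
      rw [h1, ← integral_add_compl (measurableSet_singleton (0 : I)) hint1, integral_singleton]
      simp only [Icc.coe_zero, KK_zero, GG, if_true, smul_eq_mul]
      ring

end Pool.Agent.Helper7.GGC
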