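import Mathlib
import Pool.Agent.Helper7.GGC.Gam
import Pool.Agent.Helper7.GGC.Thorin2

open MeasureTheory Filter Topology Set Metric
open scoped ENNReal NNReal unitInterval

namespace Pool.Agent.Helper7.GGC

/-- `φ x φ y` is a mixture of `exp (-(p xy + q (x+y)))`. -/
def JJ (φ : ℝ → ℝ) : Prop :=
  ∃ (Ω : Type) (_ : MeasurableSpace Ω) (μ : Measure Ω) (P Q : Ω → ℝ), IsFiniteMeasure μ ∧
    Measurable P ∧ Measurable Q ∧ (∀ ω, 0 ≤ P ω) ∧ (∀ ω, 0 ≤ Q ω) ∧
    ∀ x y : ℝ, 0 < x → 0 < y → φ x * φ y = ∫ ω, Real.exp (-(P ω * (x * y) + Q ω * (x + y))) ∂μ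

lemma JJ_exp {a : ℝ} (ha : 0 ≤ a) : JJ (fun x => Real.exp (-(a * x))) := by
  refine ⟨Unit, inferInstance, Measure.dirac (), fun _ => 0, fun _ => a, inferInstance,
    measurable_const, measurable_const, fun _ => le_rfl, fun _ => ha, fun x y _ _ => ?_⟩
  rw [integral_dirac, ← Real.exp_add]
  congr 1; ring

lemma JJ_mul {φ ψ : ℝ → ℝ} (hφ : JJ φ) (hψ : JJ ψ) : JJ (fun x => φ x * ψ x) := by
  obtain ⟨Ω, mΩ, μ, P, Q, hμ, hP, hQ, hP0, hQ0, h⟩ := hφ
  obtain ⟨Ω', mΩ', μ', P', Q', hμ', hP', hQ', hP0', hQ0', h'⟩ := hψ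
  refine ⟨Ω × Ω', inferInstance, μ.prod μ', fun w => P w.1 + P' w.2, fun w => Q w.1 + Q' w.2,
    inferInstance, by fun_prop, by fun_prop, fun w => add_nonneg (hP0 _) (hP0' _),
    fun w => add_nonneg (hQ0 _) (hQ0' _), fun x y hx hy => ?_⟩
  have h1 : φ x * ψ x * (φ y * ψ y) = (φ x * φ y) * (ψ x * ψ y) := by ring
  rw [h1, h x y hx hy, h' x y hx hy, ← integral_prod_mul]
  apply integral_congr_ae
  filter_upwards with w
  rw [← Real.exp_add]
  congr 1; ring

lemma JJ_gamma {b β : ℝ} (hb : 0 ≤ b) (hβ : 0 < β) : JJ (fun x => (1 + b * x) ^ (-β)) := by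
  have := isProb_gam hβ
  refine ⟨ℝ, inferInstance, gam β, fun τ => b ^ 2 * max τ 0, fun τ => b * max τ 0, inferInstance,
    by fun_prop, by fun_prop, fun τ => by positivity, fun τ => by positivity, fun x y hx hy => ?_⟩
  have hA : 0 < 1 + (b ^ 2 * (x * y) + b * (x + y)) := by positivity
  rw [← Real.mul_rpow (by positivity) (by positivity)]
  have h1 : (1 + b * x) * (1 + b * y) = 1 + (b ^ 2 * (x * y) + b * (x + y)) := by ring
  rw [h1, ← integral_exp_gam hβ hA]
  apply integral_congr_ae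
  filter_upwards [gam_ae_pos β] with τ hτ
  simp only [max_eq_left hτ.le]
  congr 1; ring

/-- A function in the basic class: continuous on the positive axis, with values in `(0,1]`. -/
structure Nice (φ : ℝ → ℝ) : Prop where
  meas : Measurable φ
  pos : ∀ x, 0 < x → 0 < φ x
  le_one : ∀ x, 0 < x → φ x ≤ 1

lemma log_map_aux {x β : ℝ} (hx : 0 < x) (hβ : 0 ≤ β) : 0 ≤ Real.log (1 + x * β) :=
  Real.log_nonneg (by nlinarith [mul_nonneg hx.le hβ])

lemma log_scale_le {x r : ℝ} (hx : 0 ≤ x) (hr : 1 ≤ r) :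
    Real.log (1 + r * x) ≤ r * Real.log (1 + x) := by
  have h1 : (1 : ℝ) + r * x ≤ (1 + x) ^ r := one_add_mul_self_le_rpow_one_add (by linarith) hr
  have h2 : 0 < 1 + r * x := by nlinarith [mul_nonneg (by linarith : (0:ℝ) ≤ r) hx]
  calc Real.log (1 + r * x) ≤ Real.log ((1 + x) ^ r) := Real.log_le_log h2 h1
    _ = r * Real.log (1 + x) := Real.log_rpow (by linarith) r

theorem JJ_finsum {ι : Type*} (s : Finset ι) (b u : ι → ℝ) (hb : ∀ i ∈ s, 0 ≤ b i)
    (hu : ∀ i ∈ s, 0 ≤ u i) {a : ℝ} (ha : 0 ≤ a) :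
    JJ (fun x => Real.exp (-(a * x)) * ∏ i ∈ s, (1 + b i * x) ^ (-(u i))) := by
  classical
  induction s using Finset.induction_on with
  | empty => simpa using JJ_exp ha
  | insert i s hi ih =>
    have h1 := ih (fun j hj => hb j (Finset.mem_insert_of_mem hj))
      (fun j hj => hu j (Finset.mem_insert_of_mem hj))
    rcases eq_or_lt_of_le (hu i (Finset.mem_insert_self _ _)) with h0 | h0
    · simp_rw [Finset.prod_insert hi, ← h0]
      simpa using h1
    · have h2 := JJ_mul h1 (JJ_gamma (hb i (Finset.mem_insert_self _ _)) h0)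
      convert h2 using 2 with x
      rw [Finset.prod_insert hi]
      ring

end Pool.Agent.Helper7.GGC
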