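import Mathlib
import Pool.Agent.Helper7.GGC.JJ

open MeasureTheory Filter Topology Set Metric
open scoped ENNReal NNReal unitInterval

namespace Pool.Agent.Helper7.GGC

theorem exists_JJ_seq {φ : ℝ → ℝ} (h : Thorin φ) :
    ∃ φn : ℕ → ℝ → ℝ, (∀ n, JJ (φn n)) ∧ (∀ n, Nice (φn n)) ∧
      ∀ x, 0 < x → Tendsto (fun n => φn n x) atTop (𝓝 (φ x)) := by
  classical
  obtain ⟨a, ha, U, hU0, hU⟩ := h
  have hUpos : ∀ᵐ t ∂U, 0 < t := by
    have : ∀ᵐ t ∂U, t ∉ Iic (0 : ℝ) := measure_eq_zero_iff_ae_notMem.1 hU0
    filter_upwards [this] with t ht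
    simpa using ht
  set f : ℝ → ℝ := fun t => if 0 < t then 1 / t else 0 with hf
  have hfm : Measurable f := by
    simp only [hf]
    apply Measurable.ite measurableSet_Ioi _ measurable_const
    fun_prop
  have h0mem : (0 : ℝ) ∈ Ici (0 : ℝ) := by simp
  set b : ℕ → SimpleFunc ℝ ℝ := fun n => SimpleFunc.approxOn f hfm (Ici 0) 0 h0mem n with hb
  have hb0 : ∀ n t, 0 ≤ b n t := fun n t => SimpleFunc.approxOn_mem hfm h0mem n t
  have hf0 : ∀ t, 0 ≤ f t := by
    intro t; simp only [hf]; split_ifs <;> positivity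
  have hble : ∀ n t, b n t ≤ 2 * f t := by
    intro n t
    have := SimpleFunc.norm_approxOn_zero_le hfm h0mem t n
    rw [Real.norm_eq_abs, Real.norm_eq_abs, abs_of_nonneg (hf0 t)] at this
    have h2 := le_abs_self (b n t)
    simp only [hb] at h2 ⊢
    linarith
  have hblim : ∀ t, Tendsto (fun n => b n t) atTop (𝓝 (f t)) := by
    intro t
    apply SimpleFunc.tendsto_approxOn hfm h0mem
    exact subset_closure (hf0 t)
  have hflog : ∀ x t, 0 < t → Real.log (1 + x / t) = Real.log (1 + x * f t) := by
    intro x t ht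
    simp only [hf, ht, if_true]
    rw [mul_one_div]
  have hdom : ∀ n x, 0 < x → ∀ t, Real.log (1 + x * b n t) ≤ 2 * Real.log (1 + x * f t) := by
    intro n x hx t
    have h1 : Real.log (1 + x * b n t) ≤ Real.log (1 + 2 * (x * f t)) := by
      apply Real.log_le_log
      · nlinarith [mul_nonneg hx.le (hb0 n t)]
      · nlinarith [hble n t]
    exact h1.trans (log_scale_le (mul_nonneg hx.le (hf0 t)) (by norm_num))
  have hdomint : ∀ x, 0 < x → Integrable (fun t => 2 * Real.log (1 + x * f t)) U := by
    intro x hx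
    refine ((hU x hx).1.const_mul 2).congr ?_
    filter_upwards [hUpos] with t ht
    rw [hflog x t ht]
  have hint : ∀ n x, 0 < x → Integrable (fun t => Real.log (1 + x * b n t)) U := by
    intro n x hx
    refine (hdomint x hx).mono' ?_ ?_
    · have := (b n).measurable
      exact Measurable.aestronglyMeasurable (by fun_prop)
    · filter_upwards with t
      rw [Real.norm_eq_abs, abs_of_nonneg (log_map_aux hx (hb0 n t))]
      exact hdom n x hx t
  have hbint : ∀ n, Integrable (b n) U := by
    intro n
    rw [SimpleFunc.integrable_iff_finMeasSupp]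
    have h1 : ((b n).map (fun β => Real.log (1 + 1 * |β|))).FinMeasSupp U := by
      rw [← SimpleFunc.integrable_iff_finMeasSupp]
      refine (hint n 1 one_pos).congr ?_
      filter_upwards with t
      rw [SimpleFunc.map_apply, abs_of_nonneg (hb0 n t)]
    refine h1.of_map (fun β hβ => ?_)
    have h2 : (1 : ℝ) + 1 * |β| = 1 := by
      apply Real.eq_one_of_pos_of_log_eq_zero (by positivity) hβ
    have h3 : |β| = 0 := by linarith
    exact abs_eq_zero.1 h3
  have hsum : ∀ n x, 0 < x → ∫ t, Real.log (1 + x * b n t) ∂U =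
      ∑ β ∈ (b n).range, U.real (b n ⁻¹' {β}) * Real.log (1 + x * β) := by
    intro n x hx
    have h1 := SimpleFunc.map_integral (b n) (fun β => Real.log (1 + x * β)) (hbint n) (by simp)
    have h2 : Integrable ((b n).map (fun β => Real.log (1 + x * β))) U := by
      refine (hint n x hx).congr ?_
      filter_upwards with t
      rw [SimpleFunc.map_apply]
    rw [SimpleFunc.integral_eq_integral _ h2] at h1
    simp only [SimpleFunc.map_apply, smul_eq_mul] at h1
    exact h1
  have hrange : ∀ n, ∀ β ∈ (b n).range, 0 ≤ β := by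
    intro n β hβ
    rw [SimpleFunc.mem_range] at hβ
    obtain ⟨t, rfl⟩ := hβ
    exact hb0 n t
  set φn : ℕ → ℝ → ℝ := fun n x => Real.exp (-(a * x)) *
    ∏ β ∈ (b n).range, (1 + β * x) ^ (-(U.real (b n ⁻¹' {β}))) with hφn
  have hφn_eq : ∀ n x, 0 < x → φn n x = Real.exp (-(a * x) - ∫ t, Real.log (1 + x * b n t) ∂U) := by
    intro n x hx
    rw [hsum n x hx, sub_eq_add_neg, Real.exp_add, ← Finset.sum_neg_distrib, Real.exp_sum]
    simp only [hφn]
    congr 1
    apply Finset.prod_congr rfl
    intro β hβ
    have h1 : 0 < 1 + β * x := by nlinarith [mul_nonneg (hrange n β hβ) hx.le]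
    rw [Real.rpow_def_of_pos h1]
    congr 1
    rw [mul_comm β x]; ring
  refine ⟨φn, fun n => ?_, fun n => ⟨?_, ?_, ?_⟩, fun x hx => ?_⟩
  · exact JJ_finsum (b n).range (fun β => β) (fun β => U.real (b n ⁻¹' {β})) (hrange n)
      (fun β _ => measureReal_nonneg) ha
  · simp only [hφn]
    apply Measurable.mul (by fun_prop)
    apply Finset.measurable_prod
    intro β _
    fun_prop
  · intro x hx
    rw [hφn_eq n x hx]; positivity
  · intro x hx
    rw [hφn_eq n x hx, Real.exp_le_one_iff]
    have h1 : 0 ≤ ∫ t, Real.log (1 + x * b n t) ∂U :=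
      integral_nonneg (fun t => log_map_aux hx (hb0 n t))
    have := mul_nonneg ha hx.le
    linarith
  · rw [(hU x hx).2]
    have h1 : Tendsto (fun n => ∫ t, Real.log (1 + x * b n t) ∂U) atTop
        (𝓝 (∫ t, Real.log (1 + x / t) ∂U)) := by
      apply tendsto_integral_of_dominated_convergence (fun t => 2 * Real.log (1 + x * f t))
      · intro n; exact (hint n x hx).aestronglyMeasurable
      · exact hdomint x hx
      · intro n
        filter_upwards with t
        rw [Real.norm_eq_abs, abs_of_nonneg (log_map_aux hx (hb0 n t))]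
        exact hdom n x hx t
      · filter_upwards [hUpos] with t ht
        rw [hflog x t ht]
        apply Tendsto.log
        · exact ((hblim t).const_mul x).const_add 1
        · have := mul_nonneg hx.le (hf0 t)
          linarith
    have h2 : Tendsto (fun n => Real.exp (-(a * x) - ∫ t, Real.log (1 + x * b n t) ∂U)) atTop
        (𝓝 (Real.exp (-(a * x) - ∫ t, Real.log (1 + x / t) ∂U))) :=
      (Real.continuous_exp.tendsto _).comp (h1.const_sub _)
    refine h2.congr (fun n => (hφn_eq n x hx).symm)

end Pool.Agent.Helper7.GGC
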