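import Mathlib

open MeasureTheory Filter Topology Set Metric
open scoped ENNReal NNReal unitInterval ComplexConjugate

namespace Pool.Agent.Helper7.GGC

/-- principal complex square root -/
noncomputable def csq (z : ℂ) : ℂ := z ^ (((2 : ℕ) : ℂ)⁻¹)

lemma csq_sq (z : ℂ) : csq z ^ 2 = z := Complex.cpow_nat_inv_pow z two_ne_zero

lemma csq_re_aux {z : ℂ} (hz : z ≠ 0) :
    (csq z).re = Real.exp (Real.log ‖z‖ / 2) * Real.cos (z.arg / 2) := by
  rw [csq, Complex.cpow_def_of_ne_zero hz, Complex.exp_re]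
  have h1 : (Complex.log z * ((2 : ℕ) : ℂ)⁻¹).re = Real.log ‖z‖ / 2 := by
    have : Complex.log z * ((2 : ℕ) : ℂ)⁻¹ = Complex.log z / (2 : ℝ) := by
      push_cast; ring
    rw [this, Complex.div_ofReal_re, Complex.log_re]
  have h2 : (Complex.log z * ((2 : ℕ) : ℂ)⁻¹).im = z.arg / 2 := by
    have : Complex.log z * ((2 : ℕ) : ℂ)⁻¹ = Complex.log z / (2 : ℝ) := by
      push_cast; ring
    rw [this, Complex.div_ofReal_im, Complex.log_im]
  rw [h1, h2]

lemma csq_re_nonneg (z : ℂ) : 0 ≤ (csq z).re := by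
  by_cases hz : z = 0
  · rw [hz, csq, Complex.zero_cpow (by norm_num)]; simp
  · rw [csq_re_aux hz]
    apply mul_nonneg (Real.exp_pos _).le
    apply Real.cos_nonneg_of_neg_pi_div_two_le_of_le
    · have := Complex.neg_pi_lt_arg z; linarith
    · have := Complex.arg_le_pi z; linarith

lemma csq_re_pos {z : ℂ} (hz : z ∈ Complex.slitPlane) : 0 < (csq z).re := by
  have h0 := Complex.slitPlane_ne_zero hz
  rw [csq_re_aux h0]
  apply mul_pos (Real.exp_pos _)
  have h1 := Complex.mem_slitPlane_iff_arg.1 hz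
  apply Real.cos_pos_of_mem_Ioo
  constructor
  · have := Complex.neg_pi_lt_arg z; linarith
  · have := lt_of_le_of_ne (Complex.arg_le_pi z) h1.1; linarith

lemma csq_differentiableAt {z : ℂ} (hz : z ∈ Complex.slitPlane) : DifferentiableAt ℂ csq z := by
  unfold csq
  exact (hasStrictDerivAt_id z).cpow_const hz |>.hasDerivAt.differentiableAt

lemma csq_continuousAt_zero : ContinuousAt csq 0 := by
  have h1 : ContinuousAt (fun x : ℂ × ℂ => x.1 ^ x.2) (0, ((2 : ℕ) : ℂ)⁻¹) := by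
    apply Complex.continuousAt_cpow_zero_of_re_pos
    norm_num
  have h2 : ContinuousAt (fun z : ℂ => ((z, ((2 : ℕ) : ℂ)⁻¹) : ℂ × ℂ)) 0 := by fun_prop
  exact ContinuousAt.comp (f := fun z : ℂ => ((z, ((2 : ℕ) : ℂ)⁻¹) : ℂ × ℂ))
    (g := fun x : ℂ × ℂ => x.1 ^ x.2) (x := 0) h1 h2

lemma csq_ofReal {x : ℝ} (hx : 0 ≤ x) : csq x = Real.sqrt x := by
  have h1 : (csq x) ^ 2 = (Real.sqrt x : ℂ) ^ 2 := by
    rw [csq_sq]; norm_cast; rw [Real.sq_sqrt hx]
  rcases sq_eq_sq_iff_eq_or_eq_neg.1 h1 with h | h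
  · exact h
  · have h2 := csq_re_nonneg x
    rw [h] at h2
    simp only [Complex.neg_re, Complex.ofReal_re] at h2
    have h3 : Real.sqrt x = 0 := le_antisymm (by linarith) (Real.sqrt_nonneg x)
    rw [h, h3]; simp

/-- basic facts on the pair `√(1+q) ± T`, where `T² = q`. -/
lemma pair_re_pos {q T : ℂ} (hq : 1 + q ∈ Complex.slitPlane) (hT : T ^ 2 = q) :
    0 < (csq (1 + q) + T).re ∧ 0 < (csq (1 + q) - T).re := by
  have key : ∀ T : ℂ, T ^ 2 = q → 0 ≤ T.re → 0 < (csq (1 + q) + T).re ∧ 0 < (csq (1 + q) - T).re := by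
    intro T hT hT0
    have h1 : 0 < (csq (1 + q) + T).re := by
      rw [Complex.add_re]
      linarith [csq_re_pos hq]
    refine ⟨h1, ?_⟩
    have h2 : (csq (1 + q) + T) * (csq (1 + q) - T) = 1 := by
      have : (csq (1 + q) + T) * (csq (1 + q) - T) = csq (1 + q) ^ 2 - T ^ 2 := by ring
      rw [this, csq_sq, hT]; ring
    have h3 : csq (1 + q) - T = (csq (1 + q) + T)⁻¹ := by
      apply eq_inv_of_mul_eq_one_right h2
    rw [h3, Complex.inv_re]
    apply div_pos h1
    apply Complex.normSq_pos.2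
    intro h
    rw [h] at h1; simp at h1
  rcases le_total 0 T.re with h | h
  · exact key T hT h
  · have := key (-T) (by rw [neg_sq]; exact hT) (by simpa using h)
    rw [sub_neg_eq_add, ← sub_eq_add_neg] at this
    exact ⟨this.2, this.1⟩

end Pool.Agent.Helper7.GGC
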