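import Mathlib
import Pool.Agent.Helper7.GGC.Gam

open MeasureTheory Filter Topology Set Metric
open scoped ENNReal NNReal unitInterval

namespace Pool.Agent.Helper7.GGC

lemma K0 {γ α β κ C : ℝ} (hα : 0 < α) (hC : 0 ≤ C) :
    ∫⁻ g in Ioi (0 : ℝ), ∫⁻ g' in Ioi (0 : ℝ), ENNReal.ofReal
        (C * (g ^ (γ - 1) * g' ^ (γ - 1) * Real.exp (-(α * g + β * g' + κ * (g * g'))))) =
    ∫⁻ z in Ioi (0 : ℝ), ∫⁻ τ in Ioi (0 : ℝ), ENNReal.ofReal
        (C * (z ^ (γ - 1) * Real.exp (-(κ * z + τ + α * β * (z / τ))) / τ)) := by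
  have h1 : ∫⁻ g in Ioi (0 : ℝ), ∫⁻ g' in Ioi (0 : ℝ), ENNReal.ofReal
        (C * (g ^ (γ - 1) * g' ^ (γ - 1) * Real.exp (-(α * g + β * g' + κ * (g * g'))))) =
      ∫⁻ g in Ioi (0 : ℝ), ∫⁻ z in Ioi (0 : ℝ), ENNReal.ofReal
        (C * (z ^ (γ - 1) * Real.exp (-(α * g + β * (z / g) + κ * z)) / g)) := by
    apply setLIntegral_congr_fun measurableSet_Ioi
    intro g hg
    have hg0 : 0 < g := hg
    simp only
    rw [lintegral_scale (one_div_pos.2 hg0)]
    apply setLIntegral_congr_fun measurableSet_Ioi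
    intro z hz
    have hz0 : 0 < z := hz
    simp only
    rw [← ENNReal.ofReal_mul (by positivity)]
    congr 1
    have h2 : g ^ (γ - 1) * (1 / g * z) ^ (γ - 1) = z ^ (γ - 1) := by
      rw [← Real.mul_rpow hg0.le (by positivity)]
      congr 1
      field_simp
    have h3 : g * (1 / g * z) = z := by field_simp
    rw [h2, h3]
    have h4 : β * (1 / g * z) = β * (z / g) := by ring
    rw [h4]
    field_simp
  rw [h1, lintegral_lintegral_swap]
  · apply setLIntegral_congr_fun measurableSet_Ioi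
    intro z hz
    have hz0 : 0 < z := hz
    simp only
    rw [lintegral_scale (one_div_pos.2 hα)]
    apply setLIntegral_congr_fun measurableSet_Ioi
    intro τ hτ
    have hτ0 : 0 < τ := hτ
    simp only
    rw [← ENNReal.ofReal_mul (by positivity)]
    congr 1
    have h3 : α * (1 / α * τ) = τ := by field_simp
    have h4 : β * (z / (1 / α * τ)) = α * β * (z / τ) := by field_simp
    rw [h3, h4]
    have h5 : τ + α * β * (z / τ) + κ * z = κ * z + τ + α * β * (z / τ) := by ring
    rw [h5]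
    field_simp
  · apply Measurable.aemeasurable
    unfold Function.uncurry
    fun_prop

end Pool.Agent.Helper7.GGC
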