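import Mathlib
import Pool.Agent.Helper7.GGC.Approx
import Pool.Agent.Helper7.GGC.K0

open MeasureTheory Filter Topology Set Metric
open scoped ENNReal NNReal unitInterval

namespace Pool.Agent.Helper7.GGC

/-- Representation `F q = ∫ y^q dμ(y)`, `q > 0`, with total mass at most one. -/
def HC1 (F : ℝ → ℝ) : Prop :=
  ∃ μ : Measure I, μ univ ≤ 1 ∧ ∀ q : ℝ, 0 < q → F q = ∫ y : I, (y : ℝ) ^ q ∂μ

theorem HC1_of_tendsto {ι : Type*} {l : Filter ι} [l.NeBot] {Fi : ι → ℝ → ℝ} {F : ℝ → ℝ}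
    (h : ∀ i, HC1 (Fi i)) (hlim : ∀ q, 0 < q → Tendsto (fun i => Fi i q) l (𝓝 (F q))) : HC1 F := by
  choose μ hμ hrep using h
  obtain ⟨f, hf, κ, hκ, hlim'⟩ := exists_limit_measure l μ 1 (by simpa using hμ)
  refine ⟨κ, ?_, fun q hq => ?_⟩
  · have h1 := hlim' (fun _ => 1) continuous_const
    have h2 : ∫ _y : I, (1 : ℝ) ∂κ ≤ 1 := by
      refine le_of_tendsto h1 (Eventually.of_forall (fun i => ?_))
      simp only [integral_const, smul_eq_mul, mul_one, measureReal_def]
      have := ENNReal.toReal_mono ENNReal.one_ne_top (hμ i)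
      simpa using this
    simp only [integral_const, smul_eq_mul, mul_one, measureReal_def] at h2
    have h3 := ENNReal.ofReal_le_ofReal h2
    rwa [ENNReal.ofReal_toReal (measure_ne_top _ _), ENNReal.ofReal_one] at h3
  · have hc : Continuous fun y : I => (y : ℝ) ^ q := by
      exact continuous_subtype_val.rpow_const (fun y => Or.inr hq.le)
    exact tendsto_nhds_unique ((hlim q hq).mono_left hf)
      ((hlim' _ hc).congr (fun i => (hrep i q hq).symm))

/-- multiplication by an independent shifted gamma variable -/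
noncomputable def TT (c γ : ℝ) (φ : ℝ → ℝ) : ℝ → ℝ := fun x => ∫ g, φ (x * (1 + c * g)) ∂(gam γ)

lemma TT_integrable {φ : ℝ → ℝ} (hφ : Nice φ) {c γ x : ℝ} (hc : 0 ≤ c) (hγ : 0 < γ) (hx : 0 < x) :
    Integrable (fun g => φ (x * (1 + c * g))) (gam γ) := by
  have := isProb_gam hγ
  refine Integrable.mono' (integrable_const (1 : ℝ)) ?_ ?_
  · exact (hφ.meas.comp (by fun_prop)).aestronglyMeasurable
  · filter_upwards [gam_ae_pos γ] with g hg
    have h1 : 0 < x * (1 + c * g) := by positivity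
    rw [Real.norm_eq_abs, abs_of_pos (hφ.pos _ h1)]
    exact hφ.le_one _ h1

lemma TT_pos {φ : ℝ → ℝ} (hφ : Nice φ) {c γ x : ℝ} (hc : 0 ≤ c) (hγ : 0 < γ) (hx : 0 < x) :
    0 < TT c γ φ x := by
  have hprob := isProb_gam hγ
  unfold TT
  have h0 : ∀ᵐ g ∂(gam γ), 0 < φ (x * (1 + c * g)) := by
    filter_upwards [gam_ae_pos γ] with g hg
    exact hφ.pos _ (by positivity)
  rw [integral_pos_iff_support_of_nonneg_ae]
  · have h1 : ∀ᵐ g ∂(gam γ), g ∈ Function.support (fun g => φ (x * (1 + c * g))) := by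
      filter_upwards [h0] with g hg using hg.ne'
    have h2 : (gam γ) (Function.support (fun g => φ (x * (1 + c * g)))) = 1 := by
      rw [← prob_compl_eq_zero_iff₀]
      · exact ae_iff.1 h1
      · exact ((hφ.meas.comp (by fun_prop : Measurable fun g : ℝ => x * (1 + c * g)))
          (measurableSet_singleton 0).compl).nullMeasurableSet
    rw [h2]; exact one_pos
  · filter_upwards [h0] with g hg using hg.le
  · exact TT_integrable hφ hc hγ hx

lemma TT_le_one {φ : ℝ → ℝ} (hφ : Nice φ) {c γ x : ℝ} (hc : 0 ≤ c) (hγ : 0 < γ) (hx : 0 < x) :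
    TT c γ φ x ≤ 1 := by
  have hprob := isProb_gam hγ
  have h1 : TT c γ φ x ≤ ∫ _g, (1 : ℝ) ∂(gam γ) := by
    apply integral_mono_ae (TT_integrable hφ hc hγ hx) (integrable_const 1)
    filter_upwards [gam_ae_pos γ] with g hg
    exact hφ.le_one _ (by positivity)
  simpa using h1

lemma TT_measurable {φ : ℝ → ℝ} (hφ : Nice φ) {c γ : ℝ} (hγ : 0 < γ) : Measurable (TT c γ φ) := by
  have hprob := isProb_gam hγ
  have h1 : StronglyMeasurable (Function.uncurry fun x g : ℝ => φ (x * (1 + c * g))) := by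
    apply Measurable.stronglyMeasurable
    exact hφ.meas.comp (by fun_prop)
  exact h1.integral_prod_right.measurable

lemma TT_nice {φ : ℝ → ℝ} (hφ : Nice φ) {c γ : ℝ} (hc : 0 ≤ c) (hγ : 0 < γ) : Nice (TT c γ φ) :=
  ⟨TT_measurable hφ hγ, fun _ hx => TT_pos hφ hc hγ hx, fun _ hx => TT_le_one hφ hc hγ hx⟩

end Pool.Agent.Helper7.GGC
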