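import Mathlib
import Pool.Agent.Helper7.GGC.Csq
import Pool.Agent.Helper7.GGC.HCM

open MeasureTheory Filter Topology Set Metric ProbabilityTheory
open scoped ENNReal NNReal unitInterval ComplexConjugate

namespace Pool.Agent.Helper7.GGC

/-- the symmetric product, as a function of `q` -/
noncomputable def FF (Ψ : ℂ → ℂ) (ρ : ℝ) (q : ℂ) : ℂ :=
  Ψ (ρ * (csq (1 + q) + csq q)) * Ψ (ρ * (csq (1 + q) - csq q))

lemma FF_eq_alt (Ψ : ℂ → ℂ) (ρ : ℝ) (q : ℂ) {T : ℂ} (hT : T ^ 2 = q) :
    FF Ψ ρ q = Ψ (ρ * (csq (1 + q) + T)) * Ψ (ρ * (csq (1 + q) - T)) := by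
  have h1 : csq q ^ 2 = T ^ 2 := by rw [csq_sq, hT]
  rcases sq_eq_sq_iff_eq_or_eq_neg.1 h1 with h | h
  · rw [FF, h]
  · rw [FF, h, sub_neg_eq_add, ← sub_eq_add_neg, mul_comm]

lemma slit_open : IsOpen {q : ℂ | 1 + q ∈ Complex.slitPlane} :=
  Complex.isOpen_slitPlane.preimage (by fun_prop)

theorem FF_differentiableOn {Ψ : ℂ → ℂ} (hΨ : DifferentiableOn ℂ Ψ {k | 0 < k.re}) {ρ : ℝ}
    (hρ : 0 < ρ) : DifferentiableOn ℂ (FF Ψ ρ) {q : ℂ | 1 + q ∈ Complex.slitPlane} := by
  have hopen : IsOpen {k : ℂ | 0 < k.re} := isOpen_lt continuous_const Complex.continuous_re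
  have hΨa : ∀ k : ℂ, 0 < k.re → DifferentiableAt ℂ Ψ k := fun k hk =>
    (hΨ k hk).differentiableAt (hopen.mem_nhds hk)
  have hre : ∀ z : ℂ, 0 < z.re → 0 < ((ρ : ℂ) * z).re := by
    intro z hz
    rw [Complex.re_ofReal_mul]; positivity
  have h0 : (0 : ℂ) ∈ {q : ℂ | 1 + q ∈ Complex.slitPlane} := by simp
  rw [← Complex.differentiableOn_compl_singleton_and_continuousAt_iff (slit_open.mem_nhds h0)]
  constructor
  · rintro q ⟨hq, hq0⟩
    have hq0' : q ≠ 0 := hq0
    have hq1 : 1 + q ∈ Complex.slitPlane := hq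
    have hS : DifferentiableAt ℂ (fun q : ℂ => csq (1 + q)) q := by
      have := csq_differentiableAt hq1
      exact DifferentiableAt.comp (g := csq) (f := fun q : ℂ => 1 + q) q this (by fun_prop)
    apply DifferentiableAt.differentiableWithinAt
    rcases Complex.mem_slitPlane_or_neg_mem_slitPlane hq0' with h | h
    · have hT : DifferentiableAt ℂ csq q := csq_differentiableAt h
      obtain ⟨h1, h2⟩ := pair_re_pos hq1 (csq_sq q)
      unfold FF
      apply DifferentiableAt.fun_mul
      · exact DifferentiableAt.comp (g := Ψ) (f := fun q : ℂ => (ρ : ℂ) * (csq (1 + q) + csq q)) q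
          (hΨa _ (hre _ h1)) ((hS.add hT).const_mul _)
      · exact DifferentiableAt.comp (g := Ψ) (f := fun q : ℂ => (ρ : ℂ) * (csq (1 + q) - csq q)) q
          (hΨa _ (hre _ h2)) ((hS.sub hT).const_mul _)
    · have hT2 : ∀ q : ℂ, (Complex.I * csq (-q)) ^ 2 = q := by
        intro q
        rw [mul_pow, csq_sq, Complex.I_sq]; ring
      have hT : DifferentiableAt ℂ (fun q : ℂ => Complex.I * csq (-q)) q := by
        have := csq_differentiableAt h
        exact (DifferentiableAt.comp (g := csq) (f := fun q : ℂ => -q) q this (by fun_prop)).const_mul _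
      obtain ⟨h1, h2⟩ := pair_re_pos hq1 (hT2 q)
      have hfun : FF Ψ ρ = fun q => Ψ (ρ * (csq (1 + q) + Complex.I * csq (-q))) *
          Ψ (ρ * (csq (1 + q) - Complex.I * csq (-q))) := by
        funext q
        exact FF_eq_alt Ψ ρ q (hT2 q)
      rw [hfun]
      apply DifferentiableAt.fun_mul
      · exact DifferentiableAt.comp (g := Ψ)
          (f := fun q : ℂ => (ρ : ℂ) * (csq (1 + q) + Complex.I * csq (-q))) q
          (hΨa _ (hre _ h1)) ((hS.add hT).const_mul _)
      · exact DifferentiableAt.comp (g := Ψ)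
          (f := fun q : ℂ => (ρ : ℂ) * (csq (1 + q) - Complex.I * csq (-q))) q
          (hΨa _ (hre _ h2)) ((hS.sub hT).const_mul _)
  · have h01 : (1 : ℂ) + 0 ∈ Complex.slitPlane := by simp
    have hS : ContinuousAt (fun q : ℂ => csq (1 + q)) 0 := by
      have h1 : ContinuousAt csq (1 + 0) := (csq_differentiableAt h01).continuousAt
      exact ContinuousAt.comp (g := csq) (f := fun q : ℂ => 1 + q) (x := 0) h1 (by fun_prop)
    obtain ⟨h1, h2⟩ := pair_re_pos h01 (csq_sq 0)
    unfold FF
    apply ContinuousAt.fun_mul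
    · exact ContinuousAt.comp (g := Ψ) (f := fun q : ℂ => (ρ : ℂ) * (csq (1 + q) + csq q)) (x := 0)
        (hΨa _ (hre _ h1)).continuousAt ((hS.add csq_continuousAt_zero).const_mul _)
    · exact ContinuousAt.comp (g := Ψ) (f := fun q : ℂ => (ρ : ℂ) * (csq (1 + q) - csq q)) (x := 0)
        (hΨa _ (hre _ h2)).continuousAt ((hS.sub csq_continuousAt_zero).const_mul _)

/-- An `HC1` function which extends analytically has nonpositive derivative up to `-1`. -/
theorem deriv_nonpos_of_HC1 {G : ℂ → ℂ}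
    (hG : DifferentiableOn ℂ G {q : ℂ | 1 + q ∈ Complex.slitPlane}) {F : ℝ → ℝ} (hF : HC1 F)
    (hGF : ∀ q : ℝ, 0 < q → G q = F q) {t : ℝ} (ht : -1 < t) (ht3 : t < 1) :
    (deriv G t).re ≤ 0 := by
  obtain ⟨μ, hμ1, hrep⟩ := hF
  have hμfin : IsFiniteMeasure μ := ⟨lt_of_le_of_lt hμ1 ENNReal.one_lt_top⟩
  set ν : Measure I := μ.restrict {y : I | 0 < (y : ℝ)} with hν
  have hset : MeasurableSet {y : I | 0 < (y : ℝ)} :=
    measurableSet_lt measurable_const measurable_subtype_coe
  set X : I → ℝ := fun y => Real.log (y : ℝ) with hX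
  have hXm : Measurable X := by simp only [hX]; fun_prop
  have hX0 : ∀ y, X y ≤ 0 := by
    intro y
    exact Real.log_nonpos y.2.1 y.2.2
  -- integrability of exponentials
  have hsub : Ioi (0 : ℝ) ⊆ integrableExpSet X ν := by
    intro s hs
    have hs0 : 0 < s := hs
    apply Integrable.mono' (integrable_const (1 : ℝ))
    · apply Measurable.aestronglyMeasurable; fun_prop
    · filter_upwards with y
      rw [Real.norm_eq_abs, abs_of_pos (Real.exp_pos _), Real.exp_le_one_iff]
      exact mul_nonpos_of_nonneg_of_nonpos hs0.le (hX0 y)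
  have hint : ∀ s : ℝ, 0 < s → s ∈ interior (integrableExpSet X ν) := by
    intro s hs
    exact interior_maximal hsub isOpen_Ioi hs
  -- F as an mgf
  have hFm : ∀ q : ℝ, 0 < q → (F q : ℂ) = complexMGF X ν q := by
    intro q hq
    rw [complexMGF_ofReal]
    congr 1
    rw [hrep q hq, mgf, hν, ← integral_indicator hset]
    apply integral_congr_ae
    filter_upwards with y
    by_cases hy : 0 < (y : ℝ)
    · rw [indicator_of_mem (by exact hy), Real.rpow_def_of_pos hy]
      simp only [hX]; rw [mul_comm]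
    · have hy0 : (y : ℝ) = 0 := le_antisymm (not_lt.1 hy) y.2.1
      rw [indicator_of_notMem (by exact hy), hy0, Real.zero_rpow hq.ne']
  -- identity theorem
  have hUopen : IsOpen {q : ℂ | 0 < q.re} := isOpen_lt continuous_const Complex.continuous_re
  have hUpre : IsPreconnected {q : ℂ | 0 < q.re} := (convex_halfSpace_re_gt 0).isPreconnected
  have hUsub : {q : ℂ | 0 < q.re} ⊆ {q : ℂ | 1 + q ∈ Complex.slitPlane} := by
    intro q hq
    have hq' : 0 < q.re := hq
    apply Complex.mem_slitPlane_iff.2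
    left
    simp only [Complex.add_re, Complex.one_re]
    linarith
  have hGa : AnalyticOnNhd ℂ G {q : ℂ | 0 < q.re} := (hG.mono hUsub).analyticOnNhd hUopen
  have hMa : AnalyticOnNhd ℂ (complexMGF X ν) {q : ℂ | 0 < q.re} := by
    intro q hq
    exact analyticAt_complexMGF (hint _ hq)
  have h1mem : (1 : ℂ) ∈ {q : ℂ | 0 < q.re} := by simp
  have hfreq : ∃ᶠ z in 𝓝[≠] (1 : ℂ), G z = complexMGF X ν z := by
    have ht : Tendsto (fun n : ℕ => ((1 + 1 / ((n : ℝ) + 1) : ℝ) : ℂ)) atTop (𝓝[≠] (1 : ℂ)) := by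
      rw [tendsto_nhdsWithin_iff]
      constructor
      · have h2 : Tendsto (fun n : ℕ => (1 + 1 / ((n : ℝ) + 1) : ℝ)) atTop (𝓝 (1 + 0)) :=
          tendsto_one_div_add_atTop_nhds_zero_nat.const_add 1
        have h3 := (Complex.continuous_ofReal.tendsto (1 + 0)).comp h2
        rw [add_zero, Complex.ofReal_one] at h3
        exact h3
      · filter_upwards with n
        intro h
        have h4 : (1 + 1 / ((n : ℝ) + 1) : ℝ) = 1 := by
          rw [mem_singleton_iff] at h
          exact Complex.ofReal_injective (by rw [h, Complex.ofReal_one])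
        have h5 : 0 < 1 / ((n : ℝ) + 1) := by positivity
        linarith
    refine ht.frequently (Eventually.frequently (Eventually.of_forall (fun n => ?_)))
    have hpos : 0 < (1 + 1 / ((n : ℝ) + 1) : ℝ) := by positivity
    rw [hGF _ hpos, hFm _ hpos]
  have heq : EqOn G (complexMGF X ν) {q : ℂ | 0 < q.re} :=
    hGa.eqOn_of_preconnected_of_frequently_eq hMa hUpre h1mem hfreq
  have hev : G =ᶠ[𝓝 (1 : ℂ)] complexMGF X ν := by
    filter_upwards [hUopen.mem_nhds h1mem] with z hz using heq hz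
  -- iterated derivatives at one
  have hiter : ∀ n : ℕ, iteratedDeriv n G 1 = ((∫ y, X y ^ n * Real.exp (X y) ∂ν : ℝ) : ℂ) := by
    intro n
    rw [hev.iteratedDeriv_eq n, iteratedDeriv_complexMGF (by
      rw [Complex.one_re]; exact hint 1 one_pos), ← integral_complex_ofReal]
    apply integral_congr_ae
    filter_upwards with y
    push_cast
    rw [one_mul]
  have hsign : ∀ n : ℕ, 0 ≤ (-1 : ℝ) ^ n * ∫ y, X y ^ n * Real.exp (X y) ∂ν := by
    intro n
    rw [← integral_const_mul]
    apply integral_nonneg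
    intro y
    simp only [Pi.zero_apply]
    rw [← mul_assoc, ← mul_pow]
    have : 0 ≤ -1 * X y := by linarith [hX0 y]
    positivity
  -- the function z ↦ -G'(-z)
  set f : ℂ → ℂ := fun z => -(deriv G (-z)) with hf
  have hfd : DifferentiableOn ℂ f (ball (-1) 2) := by
    have h1 : DifferentiableOn ℂ (deriv G) {q : ℂ | 1 + q ∈ Complex.slitPlane} := hG.deriv slit_open
    apply DifferentiableOn.neg
    apply h1.comp (by fun_prop)
    intro z hz
    rw [mem_ball, dist_eq_norm] at hz
    apply Complex.mem_slitPlane_iff.2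
    left
    simp only [Complex.add_re, Complex.one_re, Complex.neg_re]
    have h2 := (Complex.abs_re_le_norm (z - (-1))).trans_lt hz
    simp only [Complex.sub_re, Complex.neg_re, Complex.one_re] at h2
    rw [abs_lt] at h2
    linarith [h2.2]
  have hfi : ∀ n : ℕ, iteratedDeriv n f (-1) = -((-1) ^ n * iteratedDeriv (n + 1) G 1) := by
    intro n
    have h1 : f = fun z => -((fun w => deriv G (-w)) z) := rfl
    rw [h1, iteratedDeriv_fun_neg, iteratedDeriv_comp_neg, neg_neg, smul_eq_mul,
      ← iteratedDeriv_succ']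
  have hres := DifferentiableOn.nonneg_of_iteratedDeriv_nonneg (z := ((-t : ℝ) : ℂ)) hfd (by
    intro n
    rw [hfi n, hiter (n + 1)]
    have h2 : -((-1 : ℂ) ^ n * ((∫ y, X y ^ (n + 1) * Real.exp (X y) ∂ν : ℝ) : ℂ))
        = (((-1 : ℝ) ^ (n + 1) * ∫ y, X y ^ (n + 1) * Real.exp (X y) ∂ν : ℝ) : ℂ) := by
      push_cast; ring
    rw [h2]
    exact_mod_cast hsign (n + 1)) (by
      have : (-1 : ℂ) = ((-1 : ℝ) : ℂ) := by push_cast; rfl
      rw [this, Complex.real_le_real]
      linarith) (by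
      rw [mem_ball, dist_eq_norm]
      have : ((-t : ℝ) : ℂ) - (-1) = ((1 - t : ℝ) : ℂ) := by push_cast; ring
      rw [this, Complex.norm_real, Real.norm_eq_abs, abs_lt]
      constructor <;> linarith)
  have h3 := (Complex.nonneg_iff.1 hres).1
  simp only [hf, Complex.neg_re] at h3
  have h4 : -((-t : ℝ) : ℂ) = t := by push_cast; ring
  rw [h4] at h3
  linarith

end Pool.Agent.Helper7.GGC
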