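import Mathlib
import Pool.Agent.Helper7.GGC.HCM

open MeasureTheory Filter Topology Set Metric
open scoped ENNReal NNReal unitInterval

namespace Pool.Agent.Helper7.GGC

/-- density of the mixture -/
noncomputable def DD (c γ P Q m s z τ : ℝ) : ℝ :=
  ((Real.Gamma γ)⁻¹ ^ 2 * Real.exp (-(P * m + Q * s))) *
    (z ^ (γ - 1) * Real.exp (-(P * m * c ^ 2 * z + τ +
    ((1 + P * m * c) ^ 2 + (1 + P * m * c) * (Q * c) * s + (Q * c) ^ 2 * m) * (z / τ))) / τ)

lemma DD_add {c γ P Q m s d z τ : ℝ} :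
    DD c γ P Q m (s + d) z τ =
      DD c γ P Q m s z τ * Real.exp (-(d * (Q + (1 + P * m * c) * (Q * c) * (z / τ)))) := by
  unfold DD
  have h : ∀ A B C D E : ℝ, (A * Real.exp E) * (B * Real.exp C / D) = A * B / D * Real.exp (C + E) := by
    intro A B C D E
    rw [Real.exp_add]; ring
  have h' : ∀ A B C D : ℝ, A / D * Real.exp B * Real.exp C = A / D * Real.exp (B + C) := by
    intro A B C D
    rw [Real.exp_add]; ring
  rw [h, h, h']
  congr 2
  ring

lemma swap3 {Ω : Type} [MeasurableSpace Ω] {μ : Measure Ω} [SFinite μ] {V : Measure ℝ} [SFinite V]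
    {F : ℝ → ℝ → Ω → ℝ≥0∞} (hF : Measurable fun w : ℝ × ℝ × Ω => F w.1 w.2.1 w.2.2) :
    ∫⁻ g, (∫⁻ g', (∫⁻ ω, F g g' ω ∂μ) ∂V) ∂V = ∫⁻ ω, (∫⁻ g, (∫⁻ g', F g g' ω ∂V) ∂V) ∂μ := by
  have h1 : ∀ g, ∫⁻ g', (∫⁻ ω, F g g' ω ∂μ) ∂V = ∫⁻ ω, (∫⁻ g', F g g' ω ∂V) ∂μ := by
    intro g
    rw [lintegral_lintegral_swap]
    apply Measurable.aemeasurable
    exact hF.comp (by fun_prop : Measurable fun w : ℝ × Ω => ((g, w.1, w.2) : ℝ × ℝ × Ω))
  simp_rw [h1]
  rw [lintegral_lintegral_swap]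
  apply Measurable.aemeasurable
  have h2 : Measurable fun w : (ℝ × Ω) × ℝ => F w.1.1 w.2 w.1.2 :=
    hF.comp (by fun_prop : Measurable fun w : (ℝ × Ω) × ℝ => ((w.1.1, w.2, w.1.2) : ℝ × ℝ × Ω))
  exact h2.lintegral_prod_right'

theorem TT_mixture {φ : ℝ → ℝ} (hφ : Nice φ) {Ω : Type} [MeasurableSpace Ω] {μ : Measure Ω}
    [IsFiniteMeasure μ] {P Q : Ω → ℝ} (hPm : Measurable P) (hQm : Measurable Q)
    (hP : ∀ ω, 0 ≤ P ω) (hQ : ∀ ω, 0 ≤ Q ω)
    (hrep : ∀ x y : ℝ, 0 < x → 0 < y →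
      φ x * φ y = ∫ ω, Real.exp (-(P ω * (x * y) + Q ω * (x + y))) ∂μ)
    {c γ x y : ℝ} (hc : 0 ≤ c) (hγ : 0 < γ) (hx : 0 < x) (hy : 0 < y) :
    ENNReal.ofReal (TT c γ φ x * TT c γ φ y) =
      ∫⁻ ω, (∫⁻ z in Ioi (0 : ℝ), (∫⁻ τ in Ioi (0 : ℝ),
        ENNReal.ofReal (DD c γ (P ω) (Q ω) (x * y) (x + y) z τ))) ∂μ := by
  have hprob := isProb_gam hγ
  have hG := Real.Gamma_pos_of_pos hγ
  have hφm : ∀ x : ℝ, Measurable fun g : ℝ => φ (x * (1 + c * g)) := fun x =>
    hφ.meas.comp (by fun_prop)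
  have hφm' : ∀ x : ℝ, Measurable fun g : ℝ => ENNReal.ofReal (φ (x * (1 + c * g))) := fun x =>
    ENNReal.measurable_ofReal.comp (hφm x)
  -- step 1: products as lower integrals
  have h1 : ∀ x : ℝ, 0 < x → ENNReal.ofReal (TT c γ φ x)
      = ∫⁻ g in Ioi (0 : ℝ), ENNReal.ofReal (gw γ g) * ENNReal.ofReal (φ (x * (1 + c * g))) := by
    intro x hx
    rw [TT, ofReal_integral_eq_lintegral_ofReal (TT_integrable hφ hc hγ hx)]
    · rw [lintegral_gam γ (hφm' x)]
    · filter_upwards [gam_ae_pos γ] with g hg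
      exact (hφ.pos _ (by positivity)).le
  have hm1 : ∀ x : ℝ, Measurable fun g : ℝ =>
      ENNReal.ofReal (gw γ g) * ENNReal.ofReal (φ (x * (1 + c * g))) := fun x =>
    (ENNReal.measurable_ofReal.comp (measurable_gw γ)).mul (hφm' x)
  rw [ENNReal.ofReal_mul (TT_pos hφ hc hγ hx).le, h1 x hx, h1 y hy,
    ← lintegral_mul_const _ (hm1 x)]
  -- step 2: expand
  have h2 : ∀ g ∈ Ioi (0 : ℝ),
      (ENNReal.ofReal (gw γ g) * ENNReal.ofReal (φ (x * (1 + c * g)))) *
        (∫⁻ g' in Ioi (0 : ℝ), ENNReal.ofReal (gw γ g') * ENNReal.ofReal (φ (y * (1 + c * g')))) =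
      ∫⁻ g' in Ioi (0 : ℝ), (∫⁻ ω, ENNReal.ofReal ((gw γ g * gw γ g') *
        Real.exp (-(P ω * ((x * (1 + c * g)) * (y * (1 + c * g'))) +
          Q ω * (x * (1 + c * g) + y * (1 + c * g'))))) ∂μ) := by
    intro g hg
    rw [← lintegral_const_mul _ (hm1 y)]
    apply setLIntegral_congr_fun measurableSet_Ioi
    intro g' hg'
    have hg0 : 0 < g := hg
    have hg0' : 0 < g' := hg'
    have hx' : 0 < x * (1 + c * g) := by positivity
    have hy' : 0 < y * (1 + c * g') := by positivity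
    have hgw := gw_nonneg hγ hg0
    have hgw' := gw_nonneg hγ hg0'
    simp only
    have h3 : ∀ a b d e : ℝ, 0 ≤ a → 0 ≤ b → 0 ≤ d → 0 ≤ e →
        ENNReal.ofReal a * ENNReal.ofReal b * (ENNReal.ofReal d * ENNReal.ofReal e)
          = ENNReal.ofReal (a * d) * ENNReal.ofReal (b * e) := by
      intro a b d e ha hb hd he
      rw [ENNReal.ofReal_mul ha, ENNReal.ofReal_mul hb]; ring
    rw [h3 _ _ _ _ hgw (hφ.pos _ hx').le hgw' (hφ.pos _ hy').le, hrep _ _ hx' hy',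
      ofReal_integral_eq_lintegral_ofReal]
    · rw [← lintegral_const_mul]
      · apply lintegral_congr
        intro ω
        rw [← ENNReal.ofReal_mul (mul_nonneg hgw hgw')]
      · fun_prop
    · apply Integrable.mono' (integrable_const (1 : ℝ))
      · exact Measurable.aestronglyMeasurable (by fun_prop)
      · filter_upwards with ω
        rw [Real.norm_eq_abs, abs_of_pos (Real.exp_pos _), Real.exp_le_one_iff]
        have := mul_nonneg (hP ω) (mul_pos hx' hy').le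
        have := mul_nonneg (hQ ω) (add_pos hx' hy').le
        linarith
    · filter_upwards with ω using (Real.exp_pos _).le
  rw [setLIntegral_congr_fun measurableSet_Ioi h2]
  -- step 3: swap
  have hgwm := measurable_gw γ
  rw [swap3 (F := fun g g' ω => ENNReal.ofReal ((gw γ g * gw γ g') *
        Real.exp (-(P ω * ((x * (1 + c * g)) * (y * (1 + c * g'))) +
          Q ω * (x * (1 + c * g) + y * (1 + c * g')))))) (by fun_prop)]
  apply lintegral_congr
  intro ω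
  -- step 4: K0
  have hPω := hP ω
  have hQω := hQ ω
  have hα : 0 < 1 + P ω * (x * y) * c + Q ω * c * x := by positivity
  have h5 : ∫⁻ g in Ioi (0 : ℝ), (∫⁻ g' in Ioi (0 : ℝ), ENNReal.ofReal ((gw γ g * gw γ g') *
        Real.exp (-(P ω * ((x * (1 + c * g)) * (y * (1 + c * g'))) +
          Q ω * (x * (1 + c * g) + y * (1 + c * g')))))) =
      ∫⁻ g in Ioi (0 : ℝ), (∫⁻ g' in Ioi (0 : ℝ), ENNReal.ofReal
        (((Real.Gamma γ)⁻¹ ^ 2 * Real.exp (-(P ω * (x * y) + Q ω * (x + y)))) *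
          (g ^ (γ - 1) * g' ^ (γ - 1) * Real.exp (-((1 + P ω * (x * y) * c + Q ω * c * x) * g +
            (1 + P ω * (x * y) * c + Q ω * c * y) * g' + (P ω * (x * y) * c ^ 2) * (g * g')))))) := by
    apply lintegral_congr
    intro g
    apply lintegral_congr
    intro g'
    congr 1
    simp only [gw]
    have h6 : ∀ A B G E : ℝ, A * Real.exp (-g) / G * (B * Real.exp (-g') / G) * Real.exp E
        = G⁻¹ ^ 2 * (A * B) * Real.exp (-g + -g' + E) := by
      intro A B G E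
      rw [Real.exp_add, Real.exp_add]; ring
    have h7 : ∀ G A B E F : ℝ, (G * Real.exp F) * (A * B * Real.exp E)
        = G * (A * B) * Real.exp (F + E) := by
      intro G A B E F
      rw [Real.exp_add]; ring
    rw [h6, h7]
    congr 2
    ring
  rw [h5, K0 hα (by positivity)]
  apply lintegral_congr
  intro z
  apply lintegral_congr
  intro τ
  congr 1
  unfold DD
  congr 5
  ring

end Pool.Agent.Helper7.GGC
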