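import Mathlib
import Pool.Agent.Helper7.GGC.HCM2

open MeasureTheory Filter Topology Set Metric
open scoped ENNReal NNReal unitInterval

namespace Pool.Agent.Helper7.GGC

lemma sq_pair {q : ℝ} (hq : 0 ≤ q) :
    0 < Real.sqrt (1 + q) - Real.sqrt q ∧ 0 < Real.sqrt (1 + q) + Real.sqrt q ∧
    (Real.sqrt (1 + q) + Real.sqrt q) ^ 2 * (Real.sqrt (1 + q) - Real.sqrt q) ^ 2 = 1 ∧
    (Real.sqrt (1 + q) + Real.sqrt q) ^ 2 + (Real.sqrt (1 + q) - Real.sqrt q) ^ 2 = 2 + 4 * q := by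
  have h1 : Real.sqrt (1 + q) ^ 2 = 1 + q := Real.sq_sqrt (by linarith)
  have h2 : Real.sqrt q ^ 2 = q := Real.sq_sqrt hq
  have h3 : Real.sqrt q < Real.sqrt (1 + q) := Real.sqrt_lt_sqrt hq (by linarith)
  have h4 := Real.sqrt_nonneg q
  refine ⟨by linarith, by linarith, ?_, ?_⟩
  · have : (Real.sqrt (1 + q) + Real.sqrt q) ^ 2 * (Real.sqrt (1 + q) - Real.sqrt q) ^ 2
        = (Real.sqrt (1 + q) ^ 2 - Real.sqrt q ^ 2) ^ 2 := by ring
    rw [this, h1, h2]; ring
  · have : (Real.sqrt (1 + q) + Real.sqrt q) ^ 2 + (Real.sqrt (1 + q) - Real.sqrt q) ^ 2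
        = 2 * Real.sqrt (1 + q) ^ 2 + 2 * Real.sqrt q ^ 2 := by ring
    rw [this, h1, h2]; ring

theorem HC1_TT_of_JJ {φ : ℝ → ℝ} (hJ : JJ φ) (hN : Nice φ) {c γ u : ℝ} (hc : 0 ≤ c) (hγ : 0 < γ)
    (hu : 0 < u) :
    HC1 (fun q => TT c γ φ (u * (Real.sqrt (1 + q) + Real.sqrt q) ^ 2) *
      TT c γ φ (u * (Real.sqrt (1 + q) - Real.sqrt q) ^ 2)) := by
  obtain ⟨Ω, mΩ, μ, P, Q, hμ, hPm, hQm, hP, hQ, hrep⟩ := hJ
  set V : Measure ℝ := volume.restrict (Ioi (0 : ℝ)) with hV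
  set R : Ω × ℝ × ℝ → ℝ := fun w =>
    max (4 * u * (Q w.1 + (1 + P w.1 * u ^ 2 * c) * (Q w.1 * c) * (w.2.1 / w.2.2))) 0 with hR
  have hRm : Measurable R := by simp only [hR]; fun_prop
  have hR0 : ∀ w, 0 ≤ R w := fun w => le_max_right _ _
  set E : Ω × ℝ × ℝ → I := fun w => ⟨Real.exp (-(R w)), (Real.exp_pos _).le, by
    rw [Real.exp_le_one_iff]; linarith [hR0 w]⟩ with hE
  have hEm : Measurable E := by
    apply Measurable.subtype_mk
    fun_prop
  set D : Ω × ℝ × ℝ → ℝ≥0∞ := fun w =>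
    ENNReal.ofReal (DD c γ (P w.1) (Q w.1) (u ^ 2) (2 * u) w.2.1 w.2.2) with hD
  have hDm : Measurable D := by simp only [hD]; unfold DD; fun_prop
  set M : Measure (Ω × ℝ × ℝ) := (μ.prod (V.prod V)).withDensity D with hM
  -- main lower integral
  have hmain : ∀ q : ℝ, 0 ≤ q → ∫⁻ y : I, ENNReal.ofReal ((y : ℝ) ^ q) ∂(Measure.map E M) =
      ENNReal.ofReal (TT c γ φ (u * (Real.sqrt (1 + q) + Real.sqrt q) ^ 2) *
        TT c γ φ (u * (Real.sqrt (1 + q) - Real.sqrt q) ^ 2)) := by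
    intro q hq
    obtain ⟨h1, h2, h3, h4⟩ := sq_pair hq
    set x : ℝ := u * (Real.sqrt (1 + q) + Real.sqrt q) ^ 2 with hx
    set y : ℝ := u * (Real.sqrt (1 + q) - Real.sqrt q) ^ 2 with hy
    have hx0 : 0 < x := by positivity
    have hy0 : 0 < y := by positivity
    have hxy : x * y = u ^ 2 := by
      rw [hx, hy]
      linear_combination (u ^ 2) * h3
    have hxy2 : x + y = 2 * u + 4 * u * q := by
      rw [hx, hy]
      linear_combination u * h4
    have hfm : Measurable fun y : I => ENNReal.ofReal ((y : ℝ) ^ q) := by fun_prop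
    have hfm' : Measurable fun w : Ω × ℝ × ℝ => ENNReal.ofReal ((E w : ℝ) ^ q) := hfm.comp hEm
    rw [TT_mixture hN hPm hQm hP hQ hrep hc hγ hx0 hy0, hxy, hxy2, lintegral_map hfm hEm, hM,
      lintegral_withDensity_eq_lintegral_mul _ hDm hfm', lintegral_prod _
        (by exact (hDm.mul hfm').aemeasurable)]
    apply lintegral_congr
    intro ω
    rw [lintegral_prod _ (by
      exact ((hDm.mul hfm').comp measurable_prodMk_left).aemeasurable)]
    apply setLIntegral_congr_fun measurableSet_Ioi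
    intro z hz
    apply setLIntegral_congr_fun measurableSet_Ioi
    intro τ hτ
    have hz0 : 0 < z := hz
    have hτ0 : 0 < τ := hτ
    have hPω := hP ω
    have hQω := hQ ω
    have hnn : 0 ≤ DD c γ (P ω) (Q ω) (u ^ 2) (2 * u) z τ := by
      unfold DD; positivity
    simp only [Pi.mul_apply, hD, hE]
    rw [DD_add, ← ENNReal.ofReal_mul hnn]
    congr 2
    have hRval : R (ω, z, τ) = 4 * u * (Q ω + (1 + P ω * u ^ 2 * c) * (Q ω * c) * (z / τ)) := by
      simp only [hR]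
      apply max_eq_left
      positivity
    rw [hRval, ← Real.exp_mul]
    congr 1
    ring
  have hu1 : Real.sqrt (1 + 0) = 1 := by norm_num
  refine ⟨Measure.map E M, ?_, fun q hq => ?_⟩
  · have h0 := hmain 0 le_rfl
    simp only [Real.rpow_zero, ENNReal.ofReal_one, lintegral_one] at h0
    rw [h0, hu1, Real.sqrt_zero]
    simp only [add_zero, sub_zero, one_pow, mul_one]
    rw [← ENNReal.ofReal_one]
    apply ENNReal.ofReal_le_ofReal
    have h1 := TT_le_one hN hc hγ hu (γ := γ)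
    have h2 := TT_pos hN hc hγ hu (γ := γ)
    nlinarith
  · have h1 := hmain q hq.le
    rw [integral_eq_lintegral_of_nonneg_ae, h1, ENNReal.toReal_ofReal]
    · obtain ⟨h1, h2, h3, h4⟩ := sq_pair hq.le
      exact mul_nonneg (TT_pos hN hc hγ (by positivity)).le (TT_pos hN hc hγ (by positivity)).le
    · filter_upwards with y
      exact Real.rpow_nonneg y.2.1 _
    · apply Measurable.aestronglyMeasurable; fun_prop

theorem TT_tendsto {φn : ℕ → ℝ → ℝ} {φ : ℝ → ℝ} (hN : ∀ n, Nice (φn n)) {c γ x : ℝ}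
    (hc : 0 ≤ c) (hγ : 0 < γ) (hx : 0 < x)
    (hlim : ∀ x, 0 < x → Tendsto (fun n => φn n x) atTop (𝓝 (φ x))) :
    Tendsto (fun n => TT c γ (φn n) x) atTop (𝓝 (TT c γ φ x)) := by
  have hprob := isProb_gam hγ
  unfold TT
  apply tendsto_integral_of_dominated_convergence (fun _ => (1 : ℝ))
  · intro n; exact (TT_integrable (hN n) hc hγ hx).aestronglyMeasurable
  · exact integrable_const _
  · intro n
    filter_upwards [gam_ae_pos γ] with g hg
    have h1 : 0 < x * (1 + c * g) := by positivity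
    rw [Real.norm_eq_abs, abs_of_pos ((hN n).pos _ h1)]
    exact (hN n).le_one _ h1
  · filter_upwards [gam_ae_pos γ] with g hg
    exact hlim _ (by positivity)

theorem HC1_TT_of_Thorin {φ : ℝ → ℝ} (hT : Thorin φ) {c γ u : ℝ} (hc : 0 ≤ c) (hγ : 0 < γ)
    (hu : 0 < u) :
    HC1 (fun q => TT c γ φ (u * (Real.sqrt (1 + q) + Real.sqrt q) ^ 2) *
      TT c γ φ (u * (Real.sqrt (1 + q) - Real.sqrt q) ^ 2)) := by
  obtain ⟨φn, hJ, hN, hlim⟩ := exists_JJ_seq hT
  refine HC1_of_tendsto (l := atTop) (fun n => HC1_TT_of_JJ (hJ n) (hN n) hc hγ hu) ?_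
  intro q hq
  obtain ⟨h1, h2, h3, h4⟩ := sq_pair hq.le
  exact (TT_tendsto hN hc hγ (by positivity) hlim).mul (TT_tendsto hN hc hγ (by positivity) hlim)

end Pool.Agent.Helper7.GGC
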