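import Mathlib

open MeasureTheory Filter Topology Set Metric
open scoped ENNReal NNReal unitInterval

namespace Pool.Agent.Helper7.GGC

/-- The coordinate `(1 - cos θ)/2` on the circle, as a point of the unit interval. -/
noncomputable def yc (θ : ℝ) : I :=
  ⟨(1 - Real.cos θ) / 2, by
    constructor
    · have := Real.cos_le_one θ; linarith
    · have := Real.neg_one_le_cos θ; linarith⟩

lemma continuous_yc : Continuous yc := by
  unfold yc
  fun_prop

/-- Positive representation (typically real functions) on the unit disc. -/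
theorem disc_rep {H : ℂ → ℂ} {R : ℝ} (hR : 1 < R) (hd : DifferentiableOn ℂ H (ball 0 R))
    (h0 : (H 0).im = 0)
    (him : ∀ θ : ℝ, 0 ≤ Real.sin θ * (H (circleMap 0 1 θ)).im) :
    ∃ ν : Measure I, ν univ = ENNReal.ofReal (deriv H 0).re ∧
      ∀ w : ℝ, w ∈ Ioo (-1 : ℝ) 1 →
        (H w - H 0).re = ∫ y : I, w / ((1 - w) ^ 2 + 4 * w * (y : ℝ)) ∂ν := by
  classical
  set Q : ℂ → ℂ := fun z => (1 - z ^ 2) * dslope H 0 z with hQ
  have h0mem : ball (0 : ℂ) R ∈ 𝓝 (0 : ℂ) := ball_mem_nhds _ (by linarith)
  have hds : DifferentiableOn ℂ (dslope H 0) (ball 0 R) :=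
    (Complex.differentiableOn_dslope h0mem).2 hd
  have hQd : DifferentiableOn ℂ Q (ball 0 R) := by
    apply DifferentiableOn.mul _ hds
    fun_prop
  have hsub : closedBall (0 : ℂ) 1 ⊆ ball 0 R := closedBall_subset_ball hR
  have hQc : DiffContOnCl ℂ Q (ball 0 1) := by
    apply DifferentiableOn.diffContOnCl
    rw [closure_ball _ one_ne_zero]
    exact hQd.mono hsub
  have hHcont : ContinuousOn H (closedBall 0 1) := hd.continuousOn.mono hsub
  have hcm : ∀ θ : ℝ, circleMap (0 : ℂ) 1 θ ∈ closedBall (0 : ℂ) 1 := by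
    intro θ
    exact circleMap_mem_closedBall _ zero_le_one θ
  have hHcm : Continuous fun θ : ℝ => H (circleMap 0 1 θ) :=
    hHcont.comp_continuous (continuous_circleMap 0 1) hcm
  -- the density
  set m : ℝ → ℝ := fun θ => (2 * Real.sin θ * (H (circleMap 0 1 θ)).im) / (2 * Real.pi) with hm
  have hmcont : Continuous m := by
    have h1 : Continuous fun θ : ℝ => (H (circleMap 0 1 θ)).im := Complex.continuous_im.comp hHcm
    simp only [hm]
    fun_prop
  have hmnn : ∀ θ, 0 ≤ m θ := by
    intro θ
    simp only [hm]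
    have := him θ
    have hpi := Real.pi_pos
    apply div_nonneg _ (by positivity)
    nlinarith
  have hcm_val : ∀ θ : ℝ, circleMap (0 : ℂ) 1 θ = (Real.cos θ : ℂ) + (Real.sin θ : ℂ) * Complex.I := by
    intro θ
    rw [circleMap]
    simp [Complex.exp_mul_I]
  -- real part of Q on the circle
  have hQre : ∀ θ : ℝ, (Q (circleMap 0 1 θ)).re = 2 * Real.sin θ * (H (circleMap 0 1 θ)).im := by
    intro θ
    have hz0 : circleMap (0 : ℂ) 1 θ ≠ 0 := circleMap_ne_center one_ne_zero
    simp only [hQ]
    rw [dslope_of_ne _ hz0, slope_def_field, sub_zero]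
    have hzz : (1 - circleMap (0 : ℂ) 1 θ ^ 2) * ((H (circleMap 0 1 θ) - H 0) / circleMap 0 1 θ)
        = (-(2 * Real.sin θ : ℝ) * Complex.I : ℂ) * (H (circleMap 0 1 θ) - H 0) := by
      have : (1 - circleMap (0 : ℂ) 1 θ ^ 2) / circleMap 0 1 θ = (-(2 * Real.sin θ : ℝ) * Complex.I : ℂ) := by
        rw [div_eq_iff hz0, hcm_val θ]
        have h1 := Complex.I_sq
        have h2 : (Real.cos θ : ℂ) ^ 2 + (Real.sin θ : ℂ) ^ 2 = 1 := by
          norm_cast
          rw [add_comm]; exact Real.sin_sq_add_cos_sq θ
        rw [Complex.ofReal_mul, Complex.ofReal_ofNat]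
        linear_combination (-1 : ℂ) * h2 + (((Real.sin θ : ℝ) : ℂ) ^ 2) * h1
      rw [← this]; ring
    rw [hzz]
    simp only [Complex.mul_re, Complex.sub_re, Complex.sub_im, h0, Complex.neg_re, Complex.neg_im,
      Complex.ofReal_re, Complex.ofReal_im, Complex.I_re, Complex.I_im, Complex.mul_im]
    ring
  -- the measure
  set ρ : Measure ℝ := (volume.restrict (Ioc 0 (2 * Real.pi))).withDensity
    (fun θ => ENNReal.ofReal (m θ)) with hρ
  have key : ∀ w : ℝ, w ∈ Ioo (-1 : ℝ) 1 →
      (Q w).re = ∫ θ in Ioc 0 (2 * Real.pi), m θ * ((1 - w ^ 2) / ((1 - w) ^ 2 + 4 * w * (yc θ : ℝ))) := by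
    intro w hw
    have hwb : (w : ℂ) ∈ ball (0 : ℂ) 1 := by
      rw [mem_ball_zero_iff, Complex.norm_real, Real.norm_eq_abs, abs_lt]
      exact hw
    have hP := hQc.circleAverage_poissonKernel_smul' hwb
    have hci : CircleIntegrable (fun z : ℂ ↦ ((‖z - 0‖ ^ 2 - ‖(w : ℂ) - 0‖ ^ 2) / ‖(z - 0) - ((w : ℂ) - 0)‖ ^ 2) • Q z) 0 1 := by
      apply ContinuousOn.circleIntegrable zero_le_one
      apply ContinuousOn.fun_smul
      · apply ContinuousOn.div
        · fun_prop
        · fun_prop
        · intro z hz
          have : ‖z‖ = 1 := by simpa using hz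
          have hne : z - 0 - ((w : ℂ) - 0) ≠ 0 := by
            intro h
            have hzw : z = w := by
              have := sub_eq_zero.1 h; simpa using this
            rw [hzw] at this
            rw [mem_ball_zero_iff] at hwb
            linarith
          have := norm_pos_iff.2 hne
          positivity
      · exact hQd.continuousOn.mono (sphere_subset_closedBall.trans hsub)
    have hre := Complex.reCLM.circleAverage_comp_comm hci
    rw [hP] at hre
    rw [Complex.reCLM_apply] at hre
    rw [← hre, Real.circleAverage_def, intervalIntegral.integral_of_le (by positivity), smul_eq_mul,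
      ← integral_const_mul]
    apply setIntegral_congr_fun measurableSet_Ioc
    intro θ _
    simp only [Function.comp_apply, Complex.reCLM_apply, sub_zero]
    rw [Complex.smul_re, hQre θ]
    have hn1 : ‖circleMap (0 : ℂ) 1 θ‖ = 1 := by simp
    have hn2 : ‖circleMap (0 : ℂ) 1 θ - w‖ ^ 2 = (1 - w) ^ 2 + 4 * w * (yc θ : ℝ) := by
      rw [← Complex.normSq_eq_norm_sq, hcm_val θ, Complex.normSq_apply]
      simp only [yc, Complex.sub_re, Complex.add_re, Complex.mul_re, Complex.ofReal_re,
        Complex.ofReal_im, Complex.I_re, Complex.I_im, Complex.sub_im, Complex.add_im,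
        Complex.mul_im]
      have h2 := Real.sin_sq_add_cos_sq θ
      nlinarith [h2]
    rw [hn1, hn2, Complex.norm_real, Real.norm_eq_abs, sq_abs]
    simp only [smul_eq_mul, hm]
    ring
  have hρint : ∀ g : I → ℝ, Continuous g →
      ∫ y, g y ∂(Measure.map yc ρ) = ∫ θ in Ioc 0 (2 * Real.pi), m θ * g (yc θ) := by
    intro g hg
    rw [integral_map continuous_yc.measurable.aemeasurable hg.aestronglyMeasurable]
    rw [hρ, integral_withDensity_eq_integral_toReal_smul]
    · apply integral_congr_ae
      filter_upwards with θ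
      rw [ENNReal.toReal_ofReal (hmnn θ), smul_eq_mul]
    · exact (ENNReal.continuous_ofReal.comp hmcont).measurable
    · filter_upwards with θ
      exact ENNReal.ofReal_lt_top
  refine ⟨Measure.map yc ρ, ?_, ?_⟩
  · rw [Measure.map_apply continuous_yc.measurable MeasurableSet.univ, preimage_univ, hρ,
      withDensity_apply _ MeasurableSet.univ, Measure.restrict_univ,
      ← ofReal_integral_eq_lintegral_ofReal]
    · have := key 0 (by constructor <;> norm_num)
      simp only [Complex.ofReal_zero] at this
      have hQ0 : Q 0 = deriv H 0 := by simp [hQ]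
      rw [hQ0] at this
      rw [this]
      congr 1
      apply integral_congr_ae
      filter_upwards with θ
      simp
    · exact (hmcont.integrableOn_Icc).mono_set Ioc_subset_Icc_self
    · filter_upwards with θ using hmnn θ
  · intro w hw
    have hden : ∀ y : I, 0 < (1 - w) ^ 2 + 4 * w * (y : ℝ) := by
      intro y
      have hy0 := y.2.1
      have hy1 := y.2.2
      rcases le_or_gt 0 w with h | h
      · have : 0 < (1 - w) ^ 2 := by
          have : 1 - w > 0 := by linarith [hw.2]
          positivity
        nlinarith [mul_nonneg h hy0]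
      · have h3 : 0 < (1 + w) ^ 2 := by
          have : 1 + w > 0 := by linarith [hw.1]
          positivity
        nlinarith [mul_nonneg (neg_pos.2 h).le (sub_nonneg.2 hy1)]
    rw [hρint (fun y : I => w / ((1 - w) ^ 2 + 4 * w * (y : ℝ)))]
    · have hk := key w hw
      have h1w : (1 - w ^ 2) ≠ 0 := by nlinarith [hw.1, hw.2]
      have hval : (H w - H 0).re = w / (1 - w ^ 2) * (Q w).re := by
        have hds2 := sub_smul_dslope H 0 (w : ℂ)
        rw [sub_zero, smul_eq_mul] at hds2
        rw [← hds2]
        simp only [hQ]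
        have : ((1 - (w : ℂ) ^ 2) * dslope H 0 w).re = (1 - w ^ 2) * (dslope H 0 w).re := by
          have : (1 - (w : ℂ) ^ 2) = ((1 - w ^ 2 : ℝ) : ℂ) := by push_cast; ring
          rw [this, Complex.re_ofReal_mul]
        rw [this, Complex.re_ofReal_mul]
        field_simp
      rw [hval, hk, ← integral_const_mul]
      apply integral_congr_ae
      filter_upwards with θ
      have := (hden (yc θ)).ne'
      field_simp
    · apply Continuous.div
      · fun_prop
      · fun_prop
      · intro y; exact (hden y).ne'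

end Pool.Agent.Helper7.GGC
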