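import Mathlib
import Pool.Agent.Helper7.GGC.Compact
import Pool.Agent.Helper7.GGC.Disc
import Pool.Agent.Helper7.GGC.Kernel

open MeasureTheory Filter Topology Set Metric
open scoped ENNReal NNReal unitInterval ComplexConjugate

namespace Pool.Agent.Helper7.GGC

lemma cay_aux {ζ : ℂ} (h : ‖ζ‖ < 1) : 1 - ζ ≠ 0 ∧ 0 < ((1 + ζ) / (1 - ζ)).re ∧
    ((1 + ζ) / (1 - ζ)).im = 2 * ζ.im / Complex.normSq (1 - ζ) := by
  have h1 : 1 - ζ ≠ 0 := by
    intro h0
    have : ζ = 1 := (sub_eq_zero.1 h0).symm
    rw [this] at h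
    simp at h
  have h2 : 0 < Complex.normSq (1 - ζ) := Complex.normSq_pos.2 h1
  have h3 : Complex.normSq ζ < 1 := by
    rw [Complex.normSq_eq_norm_sq]
    nlinarith [norm_nonneg ζ]
  rw [Complex.normSq_apply] at h3
  refine ⟨h1, ?_, ?_⟩
  · rw [Complex.div_re, ← add_div]
    apply div_pos _ h2
    simp only [Complex.add_re, Complex.one_re, Complex.sub_re, Complex.add_im, Complex.one_im,
      Complex.sub_im]
    nlinarith
  · rw [Complex.div_im, ← sub_div]
    congr 1
    simp only [Complex.add_re, Complex.one_re, Complex.sub_re, Complex.add_im, Complex.one_im,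
      Complex.sub_im]
    ring

theorem pick {F : ℂ → ℂ} (hd : DifferentiableOn ℂ F {k | 0 < k.re})
    (hconj : ∀ k : ℂ, 0 < k.re → F (conj k) = conj (F k))
    (hpos : ∀ x : ℝ, 0 < x → 0 ≤ (F x).re)
    (him : ∀ k : ℂ, 0 < k.re → 0 < k.im → 0 ≤ (F k).im) :
    ∃ κ : Measure I, IsFiniteMeasure κ ∧
      ∀ x : ℝ, 0 < x → (F x).re = x ^ 2 * ∫ y : I, 1 / (1 + (x ^ 2 - 1) * (y : ℝ)) ∂κ := by
  have hopen : IsOpen {k : ℂ | 0 < k.re} := isOpen_lt continuous_const Complex.continuous_re
  -- radii
  set r : ℕ → ℝ := fun n => 1 - 1 / ((n : ℝ) + 2) with hr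
  have hrpos : ∀ n, 0 < r n := by
    intro n
    simp only [hr]
    have h1 : 1 / ((n : ℝ) + 2) < 1 := by
      rw [div_lt_one (by positivity)]
      have : (0 : ℝ) ≤ n := Nat.cast_nonneg n
      linarith
    linarith
  have hrlt : ∀ n, r n < 1 := by
    intro n
    simp only [hr]
    have : 0 < 1 / ((n : ℝ) + 2) := by positivity
    linarith
  have hrlim : Tendsto r atTop (𝓝 1) := by
    have h1 : Tendsto (fun n : ℕ => 1 / ((n : ℝ) + 1)) atTop (𝓝 0) :=
      tendsto_one_div_add_atTop_nhds_zero_nat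
    have h2 := (tendsto_add_atTop_iff_nat 1).2 h1
    have h3 : Tendsto (fun n : ℕ => 1 - 1 / (((n + 1 : ℕ) : ℝ) + 1)) atTop (𝓝 (1 - 0)) :=
      tendsto_const_nhds.sub h2
    rw [sub_zero] at h3
    refine h3.congr (fun n => ?_)
    simp only [hr]; push_cast; ring_nf
  set H : ℕ → ℂ → ℂ := fun n z => F ((1 + r n * z) / (1 - r n * z)) with hH
  have hFreal : ∀ x : ℝ, 0 < x → (F x).im = 0 := by
    intro x hx
    have h1 := hconj (x : ℂ) (by simpa using hx)
    rw [Complex.conj_ofReal] at h1
    exact Complex.conj_eq_iff_im.1 h1.symm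
  have hnorm : ∀ n (z : ℂ), ‖z‖ < 1 / r n → ‖(r n : ℂ) * z‖ < 1 := by
    intro n z hz
    rw [norm_mul, Complex.norm_real, Real.norm_eq_abs, abs_of_pos (hrpos n)]
    rw [lt_div_iff₀ (hrpos n)] at hz
    linarith
  have hHd : ∀ n, DifferentiableOn ℂ (H n) (ball 0 (1 / r n)) := by
    intro n
    apply hd.comp
    · apply DifferentiableOn.div
      · fun_prop
      · fun_prop
      · intro z hz
        rw [mem_ball_zero_iff] at hz
        exact (cay_aux (hnorm n z hz)).1
    · intro z hz
      rw [mem_ball_zero_iff] at hz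
      exact (cay_aux (hnorm n z hz)).2.1
  have hR : ∀ n, 1 < 1 / r n := by
    intro n
    rw [lt_div_iff₀ (hrpos n), one_mul]
    exact hrlt n
  have hH0 : ∀ n, H n 0 = F 1 := by intro n; simp [hH]
  have hH0im : ∀ n, (H n 0).im = 0 := by
    intro n
    rw [hH0]
    have := hFreal 1 one_pos
    simpa using this
  have hHim : ∀ n (θ : ℝ), 0 ≤ Real.sin θ * (H n (circleMap 0 1 θ)).im := by
    intro n θ
    set ζ : ℂ := (r n : ℂ) * circleMap 0 1 θ with hζ
    have hζn : ‖ζ‖ < 1 := by
      apply hnorm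
      simp only [norm_circleMap_zero, abs_one]
      exact hR n
    have hζim : ζ.im = r n * Real.sin θ := by
      rw [hζ, Complex.im_ofReal_mul]
      simp [circleMap, Complex.exp_ofReal_mul_I_im]
    obtain ⟨hne, hre, him'⟩ := cay_aux hζn
    have hns : 0 < Complex.normSq (1 - ζ) := Complex.normSq_pos.2 hne
    rcases lt_trichotomy (Real.sin θ) 0 with hs | hs | hs
    · -- negative
      have hk : ((1 + ζ) / (1 - ζ)).im < 0 := by
        rw [him', hζim]
        apply div_neg_of_neg_of_pos _ hns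
        nlinarith [hrpos n]
      have h1 := him (conj ((1 + ζ) / (1 - ζ))) (by rw [Complex.conj_re]; exact hre)
        (by rw [Complex.conj_im]; linarith)
      rw [hconj _ hre, Complex.conj_im] at h1
      have : (H n (circleMap 0 1 θ)).im ≤ 0 := by
        simp only [hH]
        linarith
      nlinarith
    · rw [hs, zero_mul]
    · have hk : 0 < ((1 + ζ) / (1 - ζ)).im := by
        rw [him', hζim]
        apply div_pos _ hns
        nlinarith [mul_pos (hrpos n) hs]
      have h1 := him _ hre hk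
      exact mul_nonneg hs.le h1
  have hdiff1 : DifferentiableAt ℂ F 1 := by
    have : (1 : ℂ) ∈ {k : ℂ | 0 < k.re} := by simp
    exact (hd 1 this).differentiableAt (hopen.mem_nhds this)
  have hderiv : ∀ n, deriv (H n) 0 = deriv F 1 * (2 * r n) := by
    intro n
    have h1 : HasDerivAt (fun z : ℂ => (1 + r n * z) / (1 - r n * z)) (2 * r n) 0 := by
      have h2 : HasDerivAt (fun z : ℂ => (1 + r n * z)) (r n : ℂ) 0 := by
        simpa using ((hasDerivAt_id (0 : ℂ)).const_mul (r n : ℂ)).const_add 1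
      have h3 : HasDerivAt (fun z : ℂ => (1 - r n * z)) (-(r n : ℂ)) 0 := by
        simpa using ((hasDerivAt_id (0 : ℂ)).const_mul (r n : ℂ)).const_sub 1
      have h4 := h2.fun_div h3 (by simp)
      have h6 : ((r n : ℂ) * (1 - r n * 0) - (1 + r n * 0) * (-(r n : ℂ))) / (1 - r n * 0) ^ 2
          = 2 * r n := by
        simp
        ring
      rw [h6] at h4
      exact h4
    have h5 : HasDerivAt F (deriv F 1) ((fun z : ℂ => (1 + r n * z) / (1 - r n * z)) 0) := by
      have : (fun z : ℂ => (1 + r n * z) / (1 - r n * z)) 0 = 1 := by simp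
      rw [this]
      exact hdiff1.hasDerivAt
    exact (h5.comp 0 h1).deriv
  choose ν hνmass hνrep using fun n => disc_rep (hR n) (hHd n) (hH0im n) (hHim n)
  set C : ℝ≥0 := Real.toNNReal (‖deriv F 1‖ * 2) with hC
  have hmass : ∀ n, ν n univ ≤ C := by
    intro n
    rw [hνmass n, hC, ENNReal.ofReal]
    rw [ENNReal.coe_le_coe]
    apply Real.toNNReal_le_toNNReal
    rw [hderiv n]
    calc (deriv F 1 * (2 * (r n : ℂ))).re ≤ ‖deriv F 1 * (2 * (r n : ℂ))‖ := Complex.re_le_norm _
      _ = ‖deriv F 1‖ * (2 * r n) := by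
          rw [norm_mul, norm_mul, Complex.norm_real, Real.norm_eq_abs, abs_of_pos (hrpos n)]
          simp
      _ ≤ ‖deriv F 1‖ * 2 := by
          apply mul_le_mul_of_nonneg_left _ (norm_nonneg _)
          linarith [hrlt n]
  obtain ⟨f, hf, κ, hκ, hlim⟩ := exists_limit_measure atTop ν C hmass
  -- limit representation
  have hrep : ∀ l : ℝ, 0 < l → (F (Real.sqrt l)).re - (F (Real.sqrt 1)).re
      = ∫ y : I, (l - 1) / (4 * (1 + (l - 1) * (y : ℝ))) ∂κ := by
    intro l hl
    set x : ℝ := Real.sqrt l with hx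
    have hxpos : 0 < x := Real.sqrt_pos.2 hl
    have hx2 : x ^ 2 = l := Real.sq_sqrt hl.le
    set w : ℝ := (x - 1) / (x + 1) with hw
    have hx1 : x + 1 ≠ 0 := by positivity
    have hwmem : w ∈ Ioo (-1 : ℝ) 1 := by
      constructor
      · rw [hw, lt_div_iff₀ (by positivity)]; linarith
      · rw [hw, div_lt_one (by positivity)]; linarith
    have h1w : 1 - w ≠ 0 := by linarith [hwmem.2]
    have hkx : (1 + (w : ℂ)) / (1 - w) = x := by
      have : (1 + w) / (1 - w) = x := by
        rw [div_eq_iff h1w, hw]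
        field_simp
        ring
      rw [← this]; push_cast; rfl
    have hker : ∀ y : I, w / ((1 - w) ^ 2 + 4 * w * (y : ℝ)) = (l - 1) / (4 * (1 + (l - 1) * (y : ℝ))) := by
      intro y
      have h1 := ker_pos hl y
      have h2 : 1 - w = 2 / (x + 1) := by rw [hw]; field_simp; ring
      have h3 : (1 - w) ^ 2 + 4 * w * (y : ℝ) = 4 * (1 + (l - 1) * (y : ℝ)) / (x + 1) ^ 2 := by
        rw [h2, hw, ← hx2]; field_simp; ring
      rw [h3, hw, div_div_eq_mul_div]
      congr 1
      rw [← hx2]
      field_simp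
      ring
    have h1 : Tendsto (fun n => (H n w - H n 0).re) f (𝓝 ((F x - F 1).re)) := by
      have hcont : ContinuousAt F x := by
        have hmem : (x : ℂ) ∈ {k : ℂ | 0 < k.re} := by simpa using hxpos
        exact ((hd x hmem).differentiableAt (hopen.mem_nhds hmem)).continuousAt
      have h2 : Tendsto (fun n => ((1 : ℂ) + r n * w) / (1 - r n * w)) f (𝓝 x) := by
        rw [← hkx]
        have hrl : Tendsto (fun n => (r n : ℂ)) f (𝓝 1) := by
          have : Tendsto (fun n => ((r n : ℝ) : ℂ)) atTop (𝓝 ((1 : ℝ) : ℂ)) :=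
            (Complex.continuous_ofReal.tendsto 1).comp hrlim
          rw [Complex.ofReal_one] at this
          exact this.mono_left hf
        have h3 := (tendsto_const_nhds (x := (1 : ℂ)) (f := (f : Filter ℕ))).add (hrl.mul_const (w : ℂ))
        have h4 := (tendsto_const_nhds (x := (1 : ℂ)) (f := (f : Filter ℕ))).sub (hrl.mul_const (w : ℂ))
        rw [one_mul] at h3 h4
        apply h3.div h4
        intro h
        apply h1w
        have : ((1 - w : ℝ) : ℂ) = 0 := by push_cast; exact h
        exact_mod_cast this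
      have h5 : Tendsto (fun n => H n w) f (𝓝 (F x)) := hcont.tendsto.comp h2
      have h6 : Tendsto (fun n => H n 0) f (𝓝 (F 1)) := by
        simp_rw [hH0]; exact tendsto_const_nhds
      exact (Complex.continuous_re.tendsto _).comp (h5.sub h6)
    have h2 := hlim (fun y : I => w / ((1 - w) ^ 2 + 4 * w * (y : ℝ))) (by
      simp_rw [hker]
      exact continuous_ker' hl)
    have h3 : Tendsto (fun n => (H n w - H n 0).re) f
        (𝓝 (∫ y : I, w / ((1 - w) ^ 2 + 4 * w * (y : ℝ)) ∂κ)) := by
      refine h2.congr (fun n => ?_)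
      exact (hνrep n w hwmem).symm
    have h4 := tendsto_nhds_unique h1 h3
    rw [Complex.sub_re] at h4
    rw [Real.sqrt_one, Complex.ofReal_one, h4]
    apply integral_congr_ae
    filter_upwards with y using hker y
  obtain ⟨κ', hκ', hrep'⟩ := stieltjes_of_kernel (ν := κ) (h := fun l => (F (Real.sqrt l)).re)
    (fun l hl => hpos _ (Real.sqrt_pos.2 hl)) hrep
  refine ⟨κ', hκ', fun x hx => ?_⟩
  have := hrep' (x ^ 2) (by positivity)
  simp only [Real.sqrt_sq hx.le] at this
  exact this

end Pool.Agent.Helper7.GGC
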