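import Mathlib
import Pool.Agent.Helper7.GGC.Cont
import Pool.Agent.Helper7.GGC.HCM3
import Pool.Agent.Helper7.GGC.Pick

open MeasureTheory Filter Topology Set Metric ProbabilityTheory
open scoped ENNReal NNReal unitInterval ComplexConjugate

namespace Pool.Agent.Helper7.GGC

/-- circle parametrisation -/
lemma FF_circle {Ψ : ℂ → ℂ} (hconj : ∀ k : ℂ, 0 < k.re → Ψ (conj k) = conj (Ψ k)) {ρ η : ℝ}
    (hρ : 0 < ρ) (hη : 0 < Real.cos η) :
    FF Ψ ρ ((-(Real.sin η) ^ 2 : ℝ) : ℂ) = ((Complex.normSq (Ψ (ρ * Complex.exp (η * Complex.I))) : ℝ) : ℂ) := by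
  have hT : (Complex.I * (Real.sin η : ℂ)) ^ 2 = ((-(Real.sin η) ^ 2 : ℝ) : ℂ) := by
    rw [mul_pow, Complex.I_sq]; push_cast; ring
  rw [FF_eq_alt Ψ ρ _ hT]
  have hS : csq (1 + ((-(Real.sin η) ^ 2 : ℝ) : ℂ)) = (Real.cos η : ℂ) := by
    have h1 : (1 : ℂ) + ((-(Real.sin η) ^ 2 : ℝ) : ℂ) = ((Real.cos η ^ 2 : ℝ) : ℂ) := by
      have := Real.sin_sq_add_cos_sq η
      have h2 : 1 + (-(Real.sin η) ^ 2) = Real.cos η ^ 2 := by linarith
      rw [← h2]; push_cast; ring
    rw [h1, csq_ofReal (sq_nonneg _), Real.sqrt_sq hη.le]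
  rw [hS]
  have hk : (ρ : ℂ) * ((Real.cos η : ℂ) + Complex.I * (Real.sin η : ℂ)) = ρ * Complex.exp (η * Complex.I) := by
    rw [Complex.exp_mul_I, Complex.ofReal_cos, Complex.ofReal_sin]; ring
  have hkre : 0 < ((ρ : ℂ) * Complex.exp (η * Complex.I)).re := by
    rw [Complex.re_ofReal_mul, Complex.exp_ofReal_mul_I_re]; positivity
  have hk2 : (ρ : ℂ) * ((Real.cos η : ℂ) - Complex.I * (Real.sin η : ℂ)) =
      conj ((ρ : ℂ) * Complex.exp (η * Complex.I)) := by
    rw [← hk, map_mul, map_add, map_mul, Complex.conj_ofReal, Complex.conj_ofReal,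
      Complex.conj_ofReal, Complex.conj_I]
    ring
  rw [hk, hk2, hconj _ hkre, Complex.mul_conj]

section

variable {Ψ : ℂ → ℂ} {Φ : ℝ → ℝ}

/-- The data used in the representation theorem. -/
structure Data (Ψ : ℂ → ℂ) (Φ : ℝ → ℝ) : Prop where
  diff : DifferentiableOn ℂ Ψ {k | 0 < k.re}
  cj : ∀ k : ℂ, 0 < k.re → Ψ (conj k) = conj (Ψ k)
  val : ∀ x : ℝ, 0 < x → Ψ x = Φ (x ^ 2)
  pos : ∀ x : ℝ, 0 < x → 0 < Φ x
  anti : AntitoneOn Φ (Ioi 0)
  hc : ∀ u : ℝ, 0 < u → HC1 (fun q => Φ (u * (Real.sqrt (1 + q) + Real.sqrt q) ^ 2) *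
      Φ (u * (Real.sqrt (1 + q) - Real.sqrt q) ^ 2))

lemma Data.diffAt (h : Data Ψ Φ) {k : ℂ} (hk : 0 < k.re) : DifferentiableAt ℂ Ψ k :=
  (h.diff k hk).differentiableAt
    ((isOpen_lt continuous_const Complex.continuous_re).mem_nhds hk)

lemma Data.G_deriv (h : Data Ψ Φ) {ρ t : ℝ} (hρ : 0 < ρ) (ht : -1 < t) (ht1 : t < 1) :
    (deriv (FF Ψ ρ) t).re ≤ 0 := by
  refine deriv_nonpos_of_HC1 (FF_differentiableOn h.diff hρ) (h.hc (ρ ^ 2) (by positivity)) ?_ ht ht1
  intro q hq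
  have h1q : (1 : ℂ) + q = ((1 + q : ℝ) : ℂ) := by push_cast; rfl
  obtain ⟨h1, h2, h3, h4⟩ := sq_pair hq.le
  rw [FF, h1q, csq_ofReal (by linarith), csq_ofReal hq.le]
  have e1 : (ρ : ℂ) * ((Real.sqrt (1 + q) : ℂ) + (Real.sqrt q : ℂ))
      = ((ρ * (Real.sqrt (1 + q) + Real.sqrt q) : ℝ) : ℂ) := by push_cast; ring
  have e2 : (ρ : ℂ) * ((Real.sqrt (1 + q) : ℂ) - (Real.sqrt q : ℂ))
      = ((ρ * (Real.sqrt (1 + q) - Real.sqrt q) : ℝ) : ℂ) := by push_cast; ring
  rw [e1, e2, h.val _ (by positivity), h.val _ (by positivity), mul_pow, mul_pow]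
  push_cast; ring

lemma mem_slit_of {t : ℝ} (ht : -1 < t) : ((t : ℝ) : ℂ) ∈ {q : ℂ | 1 + q ∈ Complex.slitPlane} := by
  apply Complex.mem_slitPlane_iff.2
  left
  simp only [Complex.add_re, Complex.one_re, Complex.ofReal_re]
  linarith

lemma Data.G_hasDeriv (h : Data Ψ Φ) {ρ t : ℝ} (hρ : 0 < ρ) (ht : -1 < t) :
    HasDerivAt (fun t : ℝ => (FF Ψ ρ t).re) (deriv (FF Ψ ρ) t).re t := by
  have h1 : DifferentiableAt ℂ (FF Ψ ρ) t :=
    ((FF_differentiableOn h.diff hρ) _ (mem_slit_of ht)).differentiableAt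
      (slit_open.mem_nhds (mem_slit_of ht))
  exact h1.hasDerivAt.real_of_complex

lemma Data.G_anti (h : Data Ψ Φ) {ρ t : ℝ} (hρ : 0 < ρ) (ht : -1 < t) (ht0 : t ≤ 0) :
    (FF Ψ ρ (0 : ℝ)).re ≤ (FF Ψ ρ t).re := by
  have hanti : AntitoneOn (fun t : ℝ => (FF Ψ ρ t).re) (Ioo (-1) 1) := by
    apply antitoneOn_of_deriv_nonpos (convex_Ioo _ _)
    · intro s hs
      exact (h.G_hasDeriv hρ hs.1).continuousAt.continuousWithinAt
    · intro s hs
      rw [interior_Ioo] at hs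
      exact (h.G_hasDeriv hρ hs.1).differentiableAt.differentiableWithinAt
    · intro s hs
      rw [interior_Ioo] at hs
      rw [(h.G_hasDeriv hρ hs.1).deriv]
      exact h.G_deriv hρ hs.1 hs.2
  exact hanti ⟨ht, by linarith⟩ (by norm_num) ht0

lemma Data.val_re (h : Data Ψ Φ) {x : ℝ} (hx : 0 < x) : (Ψ x).re = Φ (x ^ 2) ∧ (Ψ x).im = 0 := by
  rw [h.val x hx]; simp

lemma cos_pos_of {k : ℂ} (hk : 0 < k.re) : 0 < Real.cos k.arg := by
  have h0 : k ≠ 0 := by intro h; rw [h] at hk; simp at hk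
  rw [Complex.cos_arg h0]
  exact div_pos hk (norm_pos_iff.2 h0)

lemma Data.ne_zero (h : Data Ψ Φ) {k : ℂ} (hk : 0 < k.re) : Ψ k ≠ 0 := by
  have h0 : k ≠ 0 := by intro h; rw [h] at hk; simp at hk
  have hρ : 0 < ‖k‖ := norm_pos_iff.2 h0
  have hcos := cos_pos_of hk
  have h1 := FF_circle h.cj hρ hcos
  rw [Complex.norm_mul_exp_arg_mul_I] at h1
  have hs : Real.sin k.arg ^ 2 < 1 := by
    have := Real.sin_sq_add_cos_sq k.arg
    nlinarith
  have h2 := h.G_anti (ρ := ‖k‖) hρ (t := -(Real.sin k.arg) ^ 2) (by linarith)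
    (by have := sq_nonneg (Real.sin k.arg); linarith)
  rw [h1, Complex.ofReal_re] at h2
  have h3 := FF_circle h.cj hρ (η := 0) (by simp)
  simp only [Real.sin_zero, ne_eq, OfNat.ofNat_ne_zero, not_false_eq_true, zero_pow, neg_zero,
    Complex.ofReal_zero, zero_mul, Complex.exp_zero, mul_one] at h3
  rw [Complex.ofReal_zero, h3, Complex.ofReal_re, Complex.normSq_apply, (h.val_re hρ).1, (h.val_re hρ).2] at h2
  have h4 := h.pos (‖k‖ ^ 2) (by positivity)
  intro h5
  rw [h5, Complex.normSq_zero] at h2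
  nlinarith

lemma normSq_hasDerivAt {f : ℝ → ℂ} {f' : ℂ} {t : ℝ} (hf : HasDerivAt f f' t) :
    HasDerivAt (fun t => Complex.normSq (f t)) (2 * (f' * conj (f t)).re) t := by
  have h1 : HasDerivAt (fun t => (f t).re) f'.re t :=
    Complex.reCLM.hasFDerivAt.comp_hasDerivAt t hf
  have h2 : HasDerivAt (fun t => (f t).im) f'.im t :=
    Complex.imCLM.hasFDerivAt.comp_hasDerivAt t hf
  have h3 := (h1.mul h1).add (h2.mul h2)
  have h4 : (fun t => Complex.normSq (f t)) = fun t => (f t).re * (f t).re + (f t).im * (f t).im := by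
    funext t; exact Complex.normSq_apply _
  rw [h4]
  refine h3.congr_deriv ?_
  simp only [Complex.mul_re, Complex.conj_re, Complex.conj_im]
  ring

lemma Data.im_nonneg (h : Data Ψ Φ) {k : ℂ} (hk : 0 < k.re) (hki : 0 < k.im) :
    0 ≤ (-(1 / 2 : ℂ) * k * deriv Ψ k / Ψ k).im := by
  have h0 : k ≠ 0 := by intro h; rw [h] at hk; simp at hk
  have hρ : 0 < ‖k‖ := norm_pos_iff.2 h0
  have hcos := cos_pos_of hk
  set ρ : ℝ := ‖k‖ with hρd
  set η : ℝ := k.arg with hη
  have hsin : 0 < Real.sin η := by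
    rw [hη, Complex.sin_arg]
    exact div_pos hki hρ
  have hkexp : (ρ : ℂ) * Complex.exp (η * Complex.I) = k := Complex.norm_mul_exp_arg_mul_I k
  -- first derivative
  set f : ℝ → ℂ := fun t => Ψ (ρ * Complex.exp (t * Complex.I)) with hf
  have hfd : HasDerivAt f (deriv Ψ k * (k * Complex.I)) η := by
    have h1 : HasDerivAt (fun t : ℝ => (ρ : ℂ) * Complex.exp (t * Complex.I)) (k * Complex.I) η := by
      have h2 : HasDerivAt (fun t : ℝ => (t : ℂ) * Complex.I) Complex.I η := by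
        simpa using (Complex.ofRealCLM.hasDerivAt (x := η)).mul_const Complex.I
      have h3 := (h2.cexp).const_mul (ρ : ℂ)
      rw [← mul_assoc, hkexp] at h3
      exact h3
    have h4 : HasDerivAt Ψ (deriv Ψ k) ((fun t : ℝ => (ρ : ℂ) * Complex.exp (t * Complex.I)) η) := by
      simp only [hkexp]
      exact (h.diffAt hk).hasDerivAt
    exact h4.comp η h1
  have hN1 := normSq_hasDerivAt hfd
  -- second derivative
  have hs1 : Real.sin η ^ 2 < 1 := by
    have := Real.sin_sq_add_cos_sq η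
    nlinarith
  have hN2 : HasDerivAt (fun t : ℝ => Complex.normSq (f t))
      ((deriv (FF Ψ ρ) ((-(Real.sin η) ^ 2 : ℝ) : ℂ)).re * (-(2 * Real.sin η * Real.cos η))) η := by
    have h1 := h.G_hasDeriv hρ (t := -(Real.sin η) ^ 2) (by linarith)
    have h2 : HasDerivAt (fun t : ℝ => -(Real.sin t) ^ 2) (-(2 * Real.sin η * Real.cos η)) η := by
      have := ((Real.hasDerivAt_sin η).pow 2).neg
      refine this.congr_deriv ?_
      simp
    have h3 := h1.comp η h2
    refine h3.congr_of_eventuallyEq ?_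
    have h4 : ∀ᶠ t in 𝓝 η, 0 < Real.cos t := Real.continuous_cos.continuousAt.eventually_const_lt hcos
    filter_upwards [h4] with t ht
    simp only [Function.comp_apply, hf]
    rw [FF_circle h.cj hρ ht, Complex.ofReal_re]
  have heq := hN1.unique hN2
  have hneg := h.G_deriv hρ (t := -(Real.sin η) ^ 2) (by linarith)
    (by have := sq_nonneg (Real.sin η); linarith)
  have hnn : 0 ≤ 2 * (deriv Ψ k * (k * Complex.I) * conj (f η)).re := by
    rw [heq]
    have : 0 < 2 * Real.sin η * Real.cos η := by positivity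
    nlinarith
  have hfη : f η = Ψ k := by simp only [hf, hkexp]
  rw [hfη] at hnn
  have hne := h.ne_zero hk
  have hns : 0 < Complex.normSq (Ψ k) := Complex.normSq_pos.2 hne
  have e1 : -(1 / 2 : ℂ) * k * deriv Ψ k / Ψ k
      = (-(1 / 2 : ℂ) * (k * deriv Ψ k * conj (Ψ k))) / ((Complex.normSq (Ψ k) : ℝ) : ℂ) := by
    rw [← Complex.mul_conj]
    have hc : conj (Ψ k) ≠ 0 := by simpa using hne
    field_simp
  rw [e1, Complex.div_ofReal_im]
  apply div_nonneg _ hns.le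
  have e2 : deriv Ψ k * (k * Complex.I) * conj (Ψ k) = (k * deriv Ψ k * conj (Ψ k)) * Complex.I := by
    ring
  rw [e2, Complex.mul_I_re] at hnn
  have e3 : (-(1 / 2 : ℂ) * (k * deriv Ψ k * conj (Ψ k))).im = -(1 / 2) * (k * deriv Ψ k * conj (Ψ k)).im := by
    have : (-(1 / 2 : ℂ)) = ((-(1 / 2) : ℝ) : ℂ) := by push_cast; ring
    rw [this, Complex.im_ofReal_mul]
  rw [e3]
  linarith

lemma Data.deriv_conj (h : Data Ψ Φ) {k : ℂ} (hk : 0 < k.re) : deriv Ψ (conj k) = conj (deriv Ψ k) := by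
  have hopen : IsOpen {k : ℂ | 0 < k.re} := isOpen_lt continuous_const Complex.continuous_re
  have h1 : Ψ =ᶠ[𝓝 (conj k)] (conj ∘ Ψ ∘ conj) := by
    have hk' : conj k ∈ {k : ℂ | 0 < k.re} := by simpa using hk
    filter_upwards [hopen.mem_nhds hk'] with z hz
    simp only [Function.comp_apply]
    rw [h.cj z hz, Complex.conj_conj]
  rw [h1.deriv_eq, deriv_conj_conj]
  simp

theorem Data.pt (h : Data Ψ Φ) : PT (fun l => -Real.log (Φ l)) := by
  have hopen : IsOpen {k : ℂ | 0 < k.re} := isOpen_lt continuous_const Complex.continuous_re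
  set F : ℂ → ℂ := fun k => -(1 / 2 : ℂ) * k * deriv Ψ k / Ψ k with hF
  have hFd : DifferentiableOn ℂ F {k | 0 < k.re} := by
    have h1 : DifferentiableOn ℂ (deriv Ψ) {k | 0 < k.re} := h.diff.deriv hopen
    apply DifferentiableOn.div
    · exact (DifferentiableOn.mul (by fun_prop) h1)
    · exact h.diff
    · intro k hk; exact h.ne_zero hk
  have hFconj : ∀ k : ℂ, 0 < k.re → F (conj k) = conj (F k) := by
    intro k hk
    simp only [hF]
    rw [h.cj k hk, h.deriv_conj hk]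
    simp only [map_div₀, map_mul, map_neg, map_one, map_ofNat]
  have hre : ∀ x : ℝ, 0 < x → HasDerivAt (fun x : ℝ => Φ (x ^ 2)) (deriv Ψ x).re x ∧
      (F x).re = -(1 / 2) * x * (deriv Ψ x).re / Φ (x ^ 2) := by
    intro x hx
    have hx' : 0 < (x : ℂ).re := by simpa using hx
    constructor
    · have h1 := (h.diffAt hx').hasDerivAt.real_of_complex
      refine h1.congr_of_eventuallyEq ?_
      filter_upwards [lt_mem_nhds hx] with y hy
      exact (h.val_re hy).1.symm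
    · simp only [hF]
      rw [h.val x hx, Complex.div_ofReal_re]
      congr 1
      have : (-(1 / 2 : ℂ)) * x = ((-(1 / 2) * x : ℝ) : ℂ) := by push_cast; ring
      rw [this, Complex.re_ofReal_mul]
  have hderiv_nonpos : ∀ x : ℝ, 0 < x → (deriv Ψ x).re ≤ 0 := by
    intro x hx
    have h1 := (hre x hx).1
    rw [← h1.deriv]
    have hmono : AntitoneOn (fun x : ℝ => Φ (x ^ 2)) (Ioi 0) := by
      intro a ha b hb hab
      have ha0 : 0 < a := ha
      have hb0 : 0 < b := hb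
      exact h.anti (by exact pow_pos ha0 2) (by exact pow_pos hb0 2) (pow_le_pow_left₀ ha0.le hab 2)
    have h2 := hmono.derivWithin_nonpos (x := x)
    rwa [derivWithin_of_isOpen isOpen_Ioi hx] at h2
  obtain ⟨κ, hκ, hrep⟩ := pick hFd hFconj (by
    intro x hx
    rw [(hre x hx).2]
    apply div_nonneg _ (h.pos _ (by positivity)).le
    have := hderiv_nonpos x hx
    nlinarith) (fun k hk hki => h.im_nonneg hk hki)
  -- the logarithm
  set L : ℝ → ℝ := fun l => -Real.log (Φ l) with hL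
  have hLd : ∀ l, 0 < l → HasDerivAt L (∫ y : I, 1 / (1 + (l - 1) * (y : ℝ)) ∂κ) l := by
    intro l hl
    set x : ℝ := Real.sqrt l with hx
    have hx0 : 0 < x := Real.sqrt_pos.2 hl
    have hx2 : x ^ 2 = l := Real.sq_sqrt hl.le
    have h1 := (hre x hx0).1
    have h2 : HasDerivAt Real.sqrt (1 / (2 * x)) l := Real.hasDerivAt_sqrt hl.ne'
    have h3 : HasDerivAt Φ ((deriv Ψ x).re * (1 / (2 * x))) l := by
      have h4 := HasDerivAt.comp l (h₂ := fun x : ℝ => Φ (x ^ 2)) (h := Real.sqrt) h1 h2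
      refine h4.congr_of_eventuallyEq ?_
      filter_upwards [lt_mem_nhds hl] with y hy
      simp only [Function.comp_apply]
      rw [Real.sq_sqrt hy.le]
    have hpos := h.pos l hl
    have h5 := (h3.log hpos.ne').neg
    refine h5.congr_deriv ?_
    have h6 := hrep x hx0
    rw [(hre x hx0).2, hx2] at h6
    have h7 : ∫ y : I, 1 / (1 + (l - 1) * (y : ℝ)) ∂κ = -(1 / 2) * x * (deriv Ψ x).re / Φ l / l := by
      rw [h6]; field_simp
    rw [h7]
    rw [← hx2] at hpos ⊢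
    field_simp
  exact PT_of_stieltjes hLd (fun x _ => rfl)

theorem Data.thorin (h : Data Ψ Φ) (hlim : Tendsto Φ (𝓝[>] 0) (𝓝 1)) : Thorin Φ := by
  refine thorin_of_PT (L := fun l => -Real.log (Φ l)) ?_ h.pt ?_
  · intro x hx
    rw [neg_neg, Real.exp_log (h.pos x hx)]
  · have h1 : Tendsto (fun l => -Real.log (Φ l)) (𝓝[>] 0) (𝓝 (-Real.log 1)) :=
      (hlim.log one_ne_zero).neg
    simpa using h1

end

end Pool.Agent.Helper7.GGC
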