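import Mathlib
import Pool.Agent.Helper7.GGC.Main

open MeasureTheory Filter Topology Set Metric ProbabilityTheory
open scoped ENNReal NNReal unitInterval ComplexConjugate

namespace Pool.Agent.Helper7.GGC

/-- The inductive class. -/
structure GB (Ψ : ℂ → ℂ) (Φ : ℝ → ℝ) : Prop where
  diff : DifferentiableOn ℂ Ψ {k | 0 < k.re}
  cj : ∀ k : ℂ, 0 < k.re → Ψ (conj k) = conj (Ψ k)
  val : ∀ x : ℝ, 0 < x → Ψ x = Φ (x ^ 2)
  nice : Nice Φ
  anti : AntitoneOn Φ (Ioi 0)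
  lim : Tendsto Φ (𝓝[>] 0) (𝓝 1)
  thorin : Thorin Φ
  pt : PT (fun l => -Real.log (Φ l))
  bd : ∀ δ : ℝ, 0 < δ → ∃ C : ℝ, ∀ k : ℂ, 0 < k.re → δ * ‖k‖ ≤ k.re → ‖Ψ k‖ ≤ C

/-- complex version of the operator -/
noncomputable def TTc (c γ : ℝ) (Ψ : ℂ → ℂ) : ℂ → ℂ :=
  fun k => ∫ g, Ψ (k * (Real.sqrt (1 + c * g) : ℝ)) ∂(gam γ)

lemma sqrt_pos_aux {c g : ℝ} (hc : 0 ≤ c) (hg : 0 < g) : 0 < Real.sqrt (1 + c * g) :=
  Real.sqrt_pos.2 (by positivity)

lemma re_mul_pos {k : ℂ} {s : ℝ} (hk : 0 < k.re) (hs : 0 < s) : 0 < (k * (s : ℂ)).re := by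
  rw [Complex.re_mul_ofReal]; positivity

lemma aesm_aux {f : ℂ → ℂ} (hf : ContinuousOn f {k | 0 < k.re}) {c γ : ℝ} (hc : 0 ≤ c) {k : ℂ}
    (hk : 0 < k.re) :
    AEStronglyMeasurable (fun g : ℝ => f (k * (Real.sqrt (1 + c * g) : ℝ))) (gam γ) := by
  have h1 : ContinuousOn (fun g : ℝ => f (k * (Real.sqrt (1 + c * g) : ℝ))) (Ioi 0) := by
    apply hf.comp
    · fun_prop
    · intro g hg
      exact re_mul_pos hk (sqrt_pos_aux hc hg)
  have h2 := h1.aestronglyMeasurable (μ := volume) measurableSet_Ioi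
  exact h2.mono_ac (withDensity_absolutelyContinuous _ _)

theorem TTc_diff {Ψ : ℂ → ℂ} (hΨ : DifferentiableOn ℂ Ψ {k | 0 < k.re})
    (hbd : ∀ δ : ℝ, 0 < δ → ∃ C : ℝ, ∀ k : ℂ, 0 < k.re → δ * ‖k‖ ≤ k.re → ‖Ψ k‖ ≤ C)
    {c γ : ℝ} (hc : 0 ≤ c) (hγ : 0 < γ) : DifferentiableOn ℂ (TTc c γ Ψ) {k | 0 < k.re} := by
  have hprob := isProb_gam hγ
  have hopen : IsOpen {k : ℂ | 0 < k.re} := isOpen_lt continuous_const Complex.continuous_re
  intro k0 hk0
  have hk0' : 0 < k0.re := hk0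
  have hn0 : 0 < ‖k0‖ := lt_of_lt_of_le hk0' (Complex.re_le_norm k0)
  set ε : ℝ := k0.re / 4 with hε
  have hεpos : 0 < ε := by positivity
  set δ : ℝ := k0.re / (3 * ‖k0‖) with hδ
  have hδpos : 0 < δ := by positivity
  obtain ⟨C, hC⟩ := hbd δ hδpos
  -- geometry
  have hgeo : ∀ k : ℂ, ‖k - k0‖ ≤ 2 * ε → 0 < k.re ∧ δ * ‖k‖ ≤ k.re := by
    intro k hk
    have h1 := (Complex.abs_re_le_norm (k - k0)).trans hk
    rw [Complex.sub_re, abs_le] at h1
    have h2 : k0.re / 2 ≤ k.re := by rw [hε] at h1; linarith [h1.1]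
    have h3 : ‖k‖ ≤ ‖k0‖ + 2 * ε := by
      calc ‖k‖ = ‖k0 + (k - k0)‖ := by congr 1; ring
        _ ≤ ‖k0‖ + ‖k - k0‖ := norm_add_le _ _
        _ ≤ ‖k0‖ + 2 * ε := by linarith
    have h4 : ‖k‖ ≤ 3 / 2 * ‖k0‖ := by
      have := Complex.re_le_norm k0
      rw [hε] at h3
      linarith
    refine ⟨by linarith, ?_⟩
    calc δ * ‖k‖ ≤ δ * (3 / 2 * ‖k0‖) := by gcongr
      _ = k0.re / 2 := by rw [hδ]; field_simp
      _ ≤ k.re := h2
  have hscale : ∀ (k : ℂ) (s : ℝ), 0 < s → ‖k - k0‖ ≤ 2 * ε → ‖Ψ (k * (s : ℂ))‖ ≤ C := by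
    intro k s hs hk
    obtain ⟨h1, h2⟩ := hgeo k hk
    apply hC _ (re_mul_pos h1 hs)
    rw [norm_mul, Complex.norm_real, Real.norm_eq_abs, abs_of_pos hs, Complex.re_mul_ofReal,
      ← mul_assoc]
    gcongr
  have hdiffs : ∀ (k : ℂ) (s : ℝ), 0 < s → ‖k - k0‖ ≤ 2 * ε →
      HasDerivAt (fun k : ℂ => Ψ (k * (s : ℂ))) (deriv Ψ (k * s) * s) k := by
    intro k s hs hk
    have h1 := re_mul_pos (hgeo k hk).1 hs
    have h2 : HasDerivAt Ψ (deriv Ψ (k * s)) (k * s) :=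
      ((hΨ _ h1).differentiableAt (hopen.mem_nhds h1)).hasDerivAt
    have h3 : HasDerivAt (fun k : ℂ => k * (s : ℂ)) (s : ℂ) k := by
      simpa using (hasDerivAt_id k).mul_const (s : ℂ)
    exact HasDerivAt.comp (h₂ := Ψ) (h := fun k : ℂ => k * (s : ℂ)) k h2 h3
  have hbound : ∀ (k : ℂ) (s : ℝ), 0 < s → k ∈ ball k0 ε → ‖deriv Ψ (k * s) * s‖ ≤ C / ε := by
    intro k s hs hk
    rw [mem_ball, dist_eq_norm] at hk
    have h1 : DiffContOnCl ℂ (fun k : ℂ => Ψ (k * (s : ℂ))) (ball k ε) := by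
      apply DifferentiableOn.diffContOnCl
      intro z hz
      rw [closure_ball _ hεpos.ne', mem_closedBall, dist_eq_norm] at hz
      apply (hdiffs z s hs _).differentiableAt.differentiableWithinAt
      calc ‖z - k0‖ = ‖(z - k) + (k - k0)‖ := by congr 1; ring
        _ ≤ ‖z - k‖ + ‖k - k0‖ := norm_add_le _ _
        _ ≤ 2 * ε := by linarith
    have h2 := Complex.norm_deriv_le_of_forall_mem_sphere_norm_le hεpos h1 (C := C) (by
      intro z hz
      rw [mem_sphere, dist_eq_norm] at hz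
      apply hscale z s hs
      calc ‖z - k0‖ = ‖(z - k) + (k - k0)‖ := by congr 1; ring
        _ ≤ ‖z - k‖ + ‖k - k0‖ := norm_add_le _ _
        _ ≤ 2 * ε := by linarith)
    rwa [(hdiffs k s hs (by linarith)).deriv] at h2
  apply DifferentiableAt.differentiableWithinAt
  have := hasDerivAt_integral_of_dominated_loc_of_deriv_le
    (F := fun (k : ℂ) (g : ℝ) => Ψ (k * (Real.sqrt (1 + c * g) : ℝ)))
    (F' := fun (k : ℂ) (g : ℝ) => deriv Ψ (k * (Real.sqrt (1 + c * g) : ℝ)) * (Real.sqrt (1 + c * g) : ℝ))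
    (bound := fun _ => C / ε) (μ := gam γ) (x₀ := k0) (ball_mem_nhds k0 hεpos) ?_ ?_ ?_ ?_ ?_ ?_
  · exact this.2.differentiableAt
  · filter_upwards [hopen.mem_nhds hk0] with k hk
    exact aesm_aux hΨ.continuousOn hc hk
  · apply Integrable.mono' (integrable_const C) (aesm_aux hΨ.continuousOn hc hk0)
    filter_upwards [gam_ae_pos γ] with g hg
    apply hscale k0 _ (sqrt_pos_aux hc hg)
    simp only [sub_self, norm_zero]; positivity
  · apply AEStronglyMeasurable.mul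
    · exact aesm_aux (hΨ.deriv hopen).continuousOn hc hk0
    · apply Measurable.aestronglyMeasurable; fun_prop
  · filter_upwards [gam_ae_pos γ] with g hg k hk
    exact hbound k _ (sqrt_pos_aux hc hg) hk
  · exact integrable_const _
  · filter_upwards [gam_ae_pos γ] with g hg k hk
    apply hdiffs k _ (sqrt_pos_aux hc hg)
    rw [mem_ball, dist_eq_norm] at hk
    linarith

theorem GB.step {Ψ : ℂ → ℂ} {Φ : ℝ → ℝ} (h : GB Ψ Φ) {c γ : ℝ} (hc : 0 ≤ c) (hγ : 0 < γ) :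
    GB (TTc c γ Ψ) (TT c γ Φ) := by
  have hprob := isProb_gam hγ
  have hdiff := TTc_diff h.diff h.bd hc hγ
  have hcj : ∀ k : ℂ, 0 < k.re → TTc c γ Ψ (conj k) = conj (TTc c γ Ψ k) := by
    intro k hk
    unfold TTc
    rw [← integral_conj]
    apply integral_congr_ae
    filter_upwards [gam_ae_pos γ] with g hg
    rw [← h.cj _ (re_mul_pos hk (sqrt_pos_aux hc hg)), map_mul, Complex.conj_ofReal]
  have hval : ∀ x : ℝ, 0 < x → TTc c γ Ψ x = TT c γ Φ (x ^ 2) := by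
    intro x hx
    unfold TTc TT
    rw [← integral_complex_ofReal]
    apply integral_congr_ae
    filter_upwards [gam_ae_pos γ] with g hg
    have h1 := sqrt_pos_aux hc hg
    have h2 : (x : ℂ) * (Real.sqrt (1 + c * g) : ℝ) = ((x * Real.sqrt (1 + c * g) : ℝ) : ℂ) := by
      push_cast; rfl
    rw [h2, h.val _ (by positivity), mul_pow, Real.sq_sqrt (by positivity)]
  have hanti : AntitoneOn (TT c γ Φ) (Ioi 0) := by
    intro a ha b hb hab
    have ha0 : 0 < a := ha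
    have hb0 : 0 < b := hb
    unfold TT
    apply integral_mono_ae (TT_integrable h.nice hc hγ hb0) (TT_integrable h.nice hc hγ ha0)
    filter_upwards [gam_ae_pos γ] with g hg
    apply h.anti
    · exact mul_pos ha0 (by positivity)
    · exact mul_pos hb0 (by positivity)
    · apply mul_le_mul_of_nonneg_right hab; positivity
  have hlim : Tendsto (TT c γ Φ) (𝓝[>] 0) (𝓝 1) := by
    have h1 : Tendsto (fun x => ∫ g, Φ (x * (1 + c * g)) ∂(gam γ)) (𝓝[>] 0)
        (𝓝 (∫ _g, (1 : ℝ) ∂(gam γ))) := by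
      apply tendsto_integral_filter_of_dominated_convergence (fun _ => (1 : ℝ))
      · filter_upwards [self_mem_nhdsWithin] with x hx
        exact (TT_integrable h.nice hc hγ hx).aestronglyMeasurable
      · filter_upwards [self_mem_nhdsWithin] with x hx
        have hx0 : 0 < x := hx
        filter_upwards [gam_ae_pos γ] with g hg
        have h2 : 0 < x * (1 + c * g) := by positivity
        rw [Real.norm_eq_abs, abs_of_pos (h.nice.pos _ h2)]
        exact h.nice.le_one _ h2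
      · exact integrable_const _
      · filter_upwards [gam_ae_pos γ] with g hg
        apply h.lim.comp
        rw [tendsto_nhdsWithin_iff]
        constructor
        · have h3 : Tendsto (fun x : ℝ => x * (1 + c * g)) (𝓝 0) (𝓝 (0 * (1 + c * g))) :=
            tendsto_id.mul_const _
          rw [zero_mul] at h3
          exact h3.mono_left nhdsWithin_le_nhds
        · filter_upwards [self_mem_nhdsWithin] with x hx
          have hx0 : 0 < x := hx
          exact mul_pos hx0 (by positivity)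
    have h4 : ∫ _g, (1 : ℝ) ∂(gam γ) = 1 := by simp
    rw [h4] at h1
    exact h1
  have hnice := TT_nice h.nice hc hγ (c := c) (γ := γ)
  have hD : Data (TTc c γ Ψ) (TT c γ Φ) :=
    ⟨hdiff, hcj, hval, hnice.pos, hanti, fun u hu => HC1_TT_of_Thorin h.thorin hc hγ hu⟩
  refine ⟨hdiff, hcj, hval, hnice, hanti, hlim, hD.thorin hlim, hD.pt, fun δ hδ => ?_⟩
  obtain ⟨C, hC⟩ := h.bd δ hδ
  refine ⟨C, fun k hk hkδ => ?_⟩
  unfold TTc
  refine (norm_integral_le_of_norm_le_const (C := C) ?_).trans ?_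
  · filter_upwards [gam_ae_pos γ] with g hg
    have h1 := sqrt_pos_aux hc hg
    apply hC _ (re_mul_pos hk h1)
    rw [norm_mul, Complex.norm_real, Real.norm_eq_abs, abs_of_pos h1, Complex.re_mul_ofReal,
      ← mul_assoc]
    gcongr
  · simp

end Pool.Agent.Helper7.GGC
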