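import Mathlib
import Pool.Agent.Helper7.GGC.Step

open MeasureTheory Filter Topology Set Metric ProbabilityTheory
open scoped ENNReal NNReal unitInterval ComplexConjugate

namespace Pool.Agent.Helper7.GGC

noncomputable def Phi0 (N : ℕ) (x : ℝ) : ℝ := ((1 + x / (N + 1)) ^ (N + 1))⁻¹

noncomputable def Psi0 (N : ℕ) (k : ℂ) : ℂ := ((1 + k ^ 2 / (N + 1)) ^ (N + 1))⁻¹

lemma sq_lower {k : ℂ} (hk : 0 < k.re) {δ : ℝ} (hδ : 0 < δ) (hkδ : δ * ‖k‖ ≤ k.re) {M : ℝ}
    (hM : 0 < M) : min (1 / 2) (δ ^ 2) ≤ ‖1 + k ^ 2 / M‖ := by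
  have hre : (1 + k ^ 2 / M).re = 1 + (k.re ^ 2 - k.im ^ 2) / M := by
    rw [Complex.add_re, Complex.one_re, Complex.div_ofReal_re]
    congr 2
    rw [sq, Complex.mul_re]; ring
  have him : (1 + k ^ 2 / M).im = 2 * k.re * k.im / M := by
    rw [Complex.add_im, Complex.one_im, Complex.div_ofReal_im, zero_add]
    congr 1
    rw [sq, Complex.mul_im]; ring
  by_cases h : -(1 / 2) ≤ (k.re ^ 2 - k.im ^ 2) / M
  · refine (min_le_left _ _).trans ?_
    have h1 := Complex.re_le_norm (1 + k ^ 2 / M)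
    rw [hre] at h1
    linarith
  · push Not at h
    refine (min_le_right _ _).trans ?_
    have h1 := Complex.abs_im_le_norm (1 + k ^ 2 / M)
    refine le_trans ?_ h1
    rw [him, abs_div, abs_of_pos hM, le_div_iff₀ hM, abs_mul, abs_of_pos (by positivity : 0 < 2 * k.re)]
    have h2 : k.re ^ 2 - k.im ^ 2 < -(1 / 2) * M := by rwa [div_lt_iff₀ hM] at h
    have h3 : ‖k‖ ^ 2 = k.re ^ 2 + k.im ^ 2 := by
      rw [← Complex.normSq_eq_norm_sq, Complex.normSq_apply]; ring
    have h4 : k.re < |k.im| := by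
      apply lt_of_pow_lt_pow_left₀ 2 (abs_nonneg _)
      rw [sq_abs]
      nlinarith
    have h5 : 0 ≤ ‖k‖ := norm_nonneg k
    -- M/2 < im^2 - re^2 ≤ ‖k‖^2
    have h6 : M / 2 < ‖k‖ ^ 2 := by nlinarith [sq_nonneg k.re]
    have h7 : (δ * ‖k‖) * (δ * ‖k‖) ≤ k.re * |k.im| := by
      apply mul_le_mul hkδ (hkδ.trans h4.le) (by positivity) hk.le
    nlinarith

lemma mem_slit_sq {k : ℂ} (hk : 0 < k.re) {M : ℝ} (hM : 0 < M) : 1 + k ^ 2 / M ≠ 0 := by
  have hn : 0 < ‖k‖ := lt_of_lt_of_le hk (Complex.re_le_norm k)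
  have h1 := sq_lower hk (δ := k.re / ‖k‖) (by positivity) (by field_simp; exact le_rfl) hM
  intro h
  rw [h, norm_zero] at h1
  have h2 : 0 < min (1 / 2) ((k.re / ‖k‖) ^ 2) := by
    apply lt_min (by norm_num); positivity
  linarith

theorem GB_init (N : ℕ) : GB (Psi0 N) (Phi0 N) := by
  have hM : (0 : ℝ) < (N : ℝ) + 1 := by positivity
  have hMc : ((N : ℂ) + 1) = (((N : ℝ) + 1 : ℝ) : ℂ) := by push_cast; rfl
  have hMc0 : ((N : ℂ) + 1) ≠ 0 := by rw [hMc]; exact_mod_cast hM.ne'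
  have hbase : ∀ x : ℝ, 0 < x → 1 ≤ 1 + x / ((N : ℝ) + 1) := by
    intro x hx
    have : 0 < x / ((N : ℝ) + 1) := by positivity
    linarith
  have hpos : ∀ x : ℝ, 0 < x → 0 < Phi0 N x := by
    intro x hx
    unfold Phi0
    have := hbase x hx
    positivity
  have hlim : Tendsto (Phi0 N) (𝓝[>] 0) (𝓝 1) := by
    have h1 : ContinuousAt (Phi0 N) 0 := by
      unfold Phi0
      apply ContinuousAt.inv₀
      · fun_prop
      · simp
    have h2 := h1.tendsto.mono_left (nhdsWithin_le_nhds (s := Ioi 0))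
    simpa [Phi0] using h2
  refine ⟨?_, ?_, ?_, ⟨?_, hpos, ?_⟩, ?_, hlim, ?_, ?_, ?_⟩
  · intro k hk
    have h1 : 1 + k ^ 2 / ((N : ℂ) + 1) ≠ 0 := by rw [hMc]; exact mem_slit_sq hk hM
    apply DifferentiableAt.differentiableWithinAt
    unfold Psi0
    apply DifferentiableAt.inv
    · fun_prop
    · exact pow_ne_zero _ h1
  · intro k _
    simp [Psi0]
  · intro x _
    simp [Psi0, Phi0]
  · unfold Phi0; fun_prop
  · intro x hx
    unfold Phi0
    apply inv_le_one_of_one_le₀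
    exact one_le_pow₀ (hbase x hx)
  · intro a ha b hb hab
    have ha0 : 0 < a := ha
    have hb0 : 0 < b := hb
    unfold Phi0
    have := hbase a ha0
    apply inv_anti₀ (by positivity)
    gcongr
  · -- Thorin
    refine ⟨0, le_rfl, ENNReal.ofReal ((N : ℝ) + 1) • Measure.dirac ((N : ℝ) + 1), ?_, fun l hl => ⟨?_, ?_⟩⟩
    · rw [Measure.smul_apply, Measure.dirac_apply' _ measurableSet_Iic]
      simp only [smul_eq_mul, mul_eq_zero]
      right
      rw [indicator_of_notMem]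
      simp only [mem_Iic, not_le]; positivity
    · apply Integrable.smul_measure _ ENNReal.ofReal_ne_top
      exact integrable_dirac (by simp)
    · rw [integral_smul_measure, integral_dirac, ENNReal.toReal_ofReal hM.le, smul_eq_mul,
        zero_mul, neg_zero, zero_sub]
      have h1 : 0 < 1 + l / ((N : ℝ) + 1) := by positivity
      have h2 : ((N : ℝ) + 1) * Real.log (1 + l / ((N : ℝ) + 1)) = Real.log ((1 + l / ((N : ℝ) + 1)) ^ (N + 1)) := by
        rw [Real.log_pow]; push_cast; ring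
      rw [h2, Real.exp_neg, Real.exp_log (by positivity), Phi0]
  · -- PT
    have hy0 : (1 : ℝ) / ((N : ℝ) + 2) ∈ I := by
      constructor
      · positivity
      · rw [div_le_one (by positivity)]
        have : (0 : ℝ) ≤ N := Nat.cast_nonneg N
        linarith
    set y0 : I := ⟨1 / ((N : ℝ) + 2), hy0⟩ with hy0d
    set κ : Measure I := ENNReal.ofReal (((N : ℝ) + 1) / ((N : ℝ) + 2)) • Measure.dirac y0 with hκ
    have hκfin : IsFiniteMeasure κ := by
      constructor
      simp [hκ, ENNReal.ofReal_lt_top]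
    refine PT_of_stieltjes (κ := κ) (L' := fun l => ((N : ℝ) + 1) / ((N : ℝ) + 1 + l)) ?_ ?_
    · intro l hl
      have h1 : HasDerivAt (fun l : ℝ => 1 + l / ((N : ℝ) + 1)) (1 / ((N : ℝ) + 1)) l := by
        simpa using ((hasDerivAt_id l).div_const ((N : ℝ) + 1)).const_add 1
      have h2 : 0 < 1 + l / ((N : ℝ) + 1) := by positivity
      have h3 := (h1.log h2.ne').const_mul ((N : ℝ) + 1)
      have h4 : (fun l => -Real.log (Phi0 N l)) =ᶠ[𝓝 l] fun l => ((N : ℝ) + 1) * Real.log (1 + l / ((N : ℝ) + 1)) := by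
        filter_upwards [lt_mem_nhds hl] with x hx
        rw [Phi0, Real.log_inv, neg_neg, Real.log_pow]; push_cast; ring
      refine (h3.congr_of_eventuallyEq h4).congr_deriv ?_
      field_simp
    · intro l hl
      rw [hκ, integral_smul_measure, integral_dirac, ENNReal.toReal_ofReal (by positivity), smul_eq_mul]
      have h1 : 1 + (l - 1) * ((y0 : I) : ℝ) = ((N : ℝ) + 1 + l) / ((N : ℝ) + 2) := by
        simp only [hy0d]
        field_simp
        ring
      rw [h1]
      field_simp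
  · intro δ hδ
    refine ⟨((min (1 / 2) (δ ^ 2)) ^ (N + 1))⁻¹, fun k hk hkδ => ?_⟩
    have h1 := sq_lower hk hδ hkδ hM
    have h2 : 0 < min (1 / 2) (δ ^ 2) := by
      apply lt_min (by norm_num); positivity
    unfold Psi0
    rw [norm_inv, norm_pow, hMc]
    apply inv_anti₀ (by positivity)
    gcongr

end Pool.Agent.Helper7.GGC
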