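import Mathlib
import Pool.Agent.Helper7.GGC.Init

open MeasureTheory Filter Topology Set Metric ProbabilityTheory
open scoped ENNReal NNReal unitInterval ComplexConjugate

namespace Pool.Agent.Helper7.GGC

/-- law of a finite product of independent shifted gamma variables -/
noncomputable def prodLaw : List (ℝ × ℝ) → Measure ℝ
  | [] => Measure.dirac 1
  | p :: t => Measure.map (fun w : ℝ × ℝ => w.1 * (1 + p.1 * w.2)) ((prodLaw t).prod (gam p.2))

lemma prodLaw_nil : prodLaw [] = Measure.dirac 1 := rfl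

lemma prodLaw_cons (p : ℝ × ℝ) (t : List (ℝ × ℝ)) : prodLaw (p :: t) =
    Measure.map (fun w : ℝ × ℝ => w.1 * (1 + p.1 * w.2)) ((prodLaw t).prod (gam p.2)) := rfl

def Valid (t : List (ℝ × ℝ)) : Prop := ∀ p ∈ t, 0 ≤ p.1 ∧ 0 < p.2

lemma Valid.head {p : ℝ × ℝ} {t : List (ℝ × ℝ)} (h : Valid (p :: t)) : 0 ≤ p.1 ∧ 0 < p.2 :=
  h p List.mem_cons_self

lemma Valid.tail {p : ℝ × ℝ} {t : List (ℝ × ℝ)} (h : Valid (p :: t)) : Valid t :=
  fun q hq => h q (List.mem_cons_of_mem _ hq)

lemma isProb_prodLaw : ∀ (t : List (ℝ × ℝ)), Valid t → IsProbabilityMeasure (prodLaw t)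
  | [], _ => by unfold prodLaw; infer_instance
  | p :: t, h => by
    have h1 := isProb_prodLaw t h.tail
    have h2 := isProb_gam h.head.2
    unfold prodLaw
    exact Measure.isProbabilityMeasure_map (by fun_prop)

lemma prodLaw_integral {E : Type*} [NormedAddCommGroup E] [NormedSpace ℝ E] [CompleteSpace E]
    (p : ℝ × ℝ) (t : List (ℝ × ℝ))
    (h : Valid (p :: t)) {f : ℝ → E} (hf : StronglyMeasurable f) {C : ℝ}
    (hC : ∀ᵐ y ∂(prodLaw (p :: t)), ‖f y‖ ≤ C) :
    ∫ y, f y ∂(prodLaw (p :: t)) = ∫ g, (∫ y, f (y * (1 + p.1 * g)) ∂(prodLaw t)) ∂(gam p.2) := by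
  have h1 := isProb_prodLaw t h.tail
  have h2 := isProb_gam h.head.2
  have hm : Measurable fun w : ℝ × ℝ => w.1 * (1 + p.1 * w.2) := by fun_prop
  have hint : Integrable f (prodLaw (p :: t)) := by
    have := isProb_prodLaw (p :: t) h
    exact Integrable.mono' (integrable_const C) hf.aestronglyMeasurable hC
  rw [prodLaw_cons] at hint ⊢
  rw [integral_map hm.aemeasurable hf.aestronglyMeasurable]
  rw [integrable_map_measure hf.aestronglyMeasurable hm.aemeasurable] at hint
  have hint' : Integrable (fun w : ℝ × ℝ => f (w.1 * (1 + p.1 * w.2)))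
      ((prodLaw t).prod (gam p.2)) := hint
  rw [integral_prod_symm _ hint']

lemma prodLaw_ae_one_le : ∀ (t : List (ℝ × ℝ)), Valid t → ∀ᵐ y ∂(prodLaw t), 1 ≤ y
  | [], _ => by
    rw [prodLaw_nil, ae_dirac_iff (p := fun y : ℝ => 1 ≤ y) measurableSet_Ici]
  | p :: t, h => by
    have h1 := isProb_prodLaw t h.tail
    have h2 := isProb_gam h.head.2
    have ih := prodLaw_ae_one_le t h.tail
    rw [prodLaw_cons, ae_map_iff (p := fun y : ℝ => 1 ≤ y) (by fun_prop) measurableSet_Ici]
    have h3 : ∀ᵐ w ∂((prodLaw t).prod (gam p.2)), 1 ≤ w.1 ∧ 0 < w.2 := by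
      have a1 : ∀ᵐ w ∂((prodLaw t).prod (gam p.2)), 1 ≤ w.1 :=
        Measure.quasiMeasurePreserving_fst.ae ih
      have a2 : ∀ᵐ w ∂((prodLaw t).prod (gam p.2)), 0 < w.2 :=
        Measure.quasiMeasurePreserving_snd.ae (gam_ae_pos p.2)
      filter_upwards [a1, a2] with w b1 b2 using ⟨b1, b2⟩
    filter_upwards [h3] with w hw
    have h4 : 1 ≤ 1 + p.1 * w.2 := by
      have := mul_nonneg h.head.1 hw.2.le
      linarith
    nlinarith [hw.1]

/-- recursion for the transforms -/
noncomputable def Phi (N : ℕ) : List (ℝ × ℝ) → ℝ → ℝ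
  | [] => Phi0 N
  | p :: t => TT p.1 p.2 (Phi N t)

lemma GB_Phi (N : ℕ) : ∀ (t : List (ℝ × ℝ)), Valid t → ∃ Ψ, GB Ψ (Phi N t)
  | [], _ => ⟨Psi0 N, GB_init N⟩
  | p :: t, h => by
    obtain ⟨Ψ, hΨ⟩ := GB_Phi N t h.tail
    exact ⟨_, hΨ.step h.head.1 h.head.2⟩

lemma Phi0_meas (N : ℕ) : Measurable (Phi0 N) := by unfold Phi0; fun_prop

lemma Phi0_bound (N : ℕ) {x : ℝ} (hx : 0 < x) : ‖Phi0 N x‖ ≤ 1 := by
  have h := (GB_init N).nice
  rw [Real.norm_eq_abs, abs_of_pos (h.pos x hx)]
  exact h.le_one x hx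

lemma Phi_eq (N : ℕ) : ∀ (t : List (ℝ × ℝ)), Valid t → ∀ x : ℝ, 0 < x →
    Phi N t x = ∫ y, Phi0 N (x * y) ∂(prodLaw t)
  | [], _, x, _ => by
    unfold prodLaw Phi
    rw [integral_dirac]; simp
  | p :: t, h, x, hx => by
    rw [prodLaw_integral p t h (C := 1)]
    · unfold Phi TT
      apply integral_congr_ae
      filter_upwards [gam_ae_pos p.2] with g hg
      have h1 : 0 < 1 + p.1 * g := by
        have := mul_nonneg h.head.1 hg.le
        linarith
      rw [Phi_eq N t h.tail _ (by positivity)]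
      congr 1
      funext y
      congr 1; ring
    · exact ((Phi0_meas N).comp (by fun_prop)).stronglyMeasurable
    · filter_upwards [prodLaw_ae_one_le _ h] with y hy
      exact Phi0_bound N (by nlinarith)

/-- Laplace transform of the product law -/
noncomputable def lap (P : Measure ℝ) (x : ℝ) : ℝ := ∫ y, Real.exp (-(x * y)) ∂P

lemma lap_integrable {P : Measure ℝ} [IsProbabilityMeasure P] (hP : ∀ᵐ y ∂P, 0 ≤ y) {x : ℝ}
    (hx : 0 < x) : Integrable (fun y => Real.exp (-(x * y))) P := by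
  apply Integrable.mono' (integrable_const (1 : ℝ))
  · exact Measurable.aestronglyMeasurable (by fun_prop)
  · filter_upwards [hP] with y hy
    rw [Real.norm_eq_abs, abs_of_pos (Real.exp_pos _), Real.exp_le_one_iff]
    have := mul_nonneg hx.le hy
    linarith

lemma lap_pos {P : Measure ℝ} [IsProbabilityMeasure P] (hP : ∀ᵐ y ∂P, 0 ≤ y) {x : ℝ}
    (hx : 0 < x) : 0 < lap P x := by
  unfold lap
  rw [integral_pos_iff_support_of_nonneg (fun y => (Real.exp_pos _).le) (lap_integrable hP hx)]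
  have : Function.support (fun y : ℝ => Real.exp (-(x * y))) = univ := by
    ext y; simp
  rw [this]; simp

theorem PT_prodLaw (t : List (ℝ × ℝ)) (h : Valid t) : PT (fun x => -Real.log (lap (prodLaw t) x)) := by
  have hprob := isProb_prodLaw t h
  have hae : ∀ᵐ y ∂(prodLaw t), 0 ≤ y := by
    filter_upwards [prodLaw_ae_one_le t h] with y hy
    linarith
  refine PT_of_tendsto (l := atTop) (Li := fun N x => -Real.log (Phi N t x)) ?_ ?_
  · intro N
    obtain ⟨Ψ, hΨ⟩ := GB_Phi N t h
    exact hΨ.pt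
  · intro x hx
    apply Tendsto.neg
    apply Tendsto.log _ (lap_pos hae hx).ne'
    simp_rw [Phi_eq _ t h x hx]
    unfold lap
    apply tendsto_integral_of_dominated_convergence (fun _ => (1 : ℝ))
    · intro N
      exact ((Phi0_meas N).comp (by fun_prop)).aestronglyMeasurable
    · exact integrable_const _
    · intro N
      filter_upwards [prodLaw_ae_one_le t h] with y hy
      exact Phi0_bound N (by nlinarith)
    · filter_upwards with y
      have h1 := (Real.tendsto_one_add_div_pow_exp (x * y))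
      have h2 := (tendsto_add_atTop_iff_nat 1).2 h1
      have h3 := h2.inv₀ (Real.exp_ne_zero _)
      rw [← Real.exp_neg] at h3
      refine h3.congr (fun N => ?_)
      simp only [Phi0]
      push_cast
      rfl

end Pool.Agent.Helper7.GGC
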