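import Mathlib
import Pool.Agent.Helper7.GGC.Laws

open MeasureTheory Filter Topology Set Metric ProbabilityTheory
open scoped ENNReal NNReal unitInterval ComplexConjugate

namespace Pool.Agent.Helper7.GGC

/-- inverse moments of the product law -/
noncomputable def mom (t : List (ℝ × ℝ)) (k : ℕ) : ℝ := ∫ y, (y⁻¹) ^ k ∂(prodLaw t)

/-- inverse moments of a single factor -/
noncomputable def gmom (c γ : ℝ) (k : ℕ) : ℝ := ∫ g, ((1 + c * g)⁻¹) ^ k ∂(gam γ)

lemma mom_nil (k : ℕ) : mom [] k = 1 := by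
  unfold mom; rw [prodLaw_nil, integral_dirac]; simp

lemma mom_cons {p : ℝ × ℝ} {t : List (ℝ × ℝ)} (h : Valid (p :: t)) (k : ℕ) :
    mom (p :: t) k = gmom p.1 p.2 k * mom t k := by
  unfold mom
  rw [prodLaw_integral p t h (C := 1)]
  · unfold gmom
    rw [← integral_mul_const]
    congr 1
    funext g
    rw [← integral_const_mul]
    congr 1
    funext y
    rw [mul_inv, mul_pow, mul_comm]
  · exact Measurable.stronglyMeasurable (by fun_prop)
  · filter_upwards [prodLaw_ae_one_le _ h] with y hy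
    rw [norm_pow, norm_inv, Real.norm_eq_abs, abs_of_pos (by linarith)]
    exact pow_le_one₀ (by positivity) (inv_le_one_of_one_le₀ hy)

lemma mom_append {s : List (ℝ × ℝ)} : ∀ {t : List (ℝ × ℝ)}, Valid t → Valid s → ∀ k : ℕ,
    mom (t ++ s) k = mom t k * mom s k
  | [], _, _, k => by rw [List.nil_append, mom_nil, one_mul]
  | p :: t, ht, hs, k => by
    have hv : Valid (p :: (t ++ s)) := by
      intro q hq
      rcases List.mem_cons.1 hq with rfl | hq
      · exact ht.head
      · rcases List.mem_append.1 hq with hq | hq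
        · exact ht.tail q hq
        · exact hs q hq
    rw [List.cons_append, mom_cons hv, mom_cons ht, mom_append ht.tail hs k, mul_assoc]

lemma Valid.append {s t : List (ℝ × ℝ)} (ht : Valid t) (hs : Valid s) : Valid (t ++ s) := by
  intro q hq
  rcases List.mem_append.1 hq with hq | hq
  · exact ht q hq
  · exact hs q hq

lemma Valid.replicate {p : ℝ × ℝ} (hp : 0 ≤ p.1 ∧ 0 < p.2) (n : ℕ) :
    Valid (List.replicate n p) := by
  intro q hq
  rw [List.eq_of_mem_replicate hq]
  exact hp

lemma mom_replicate {p : ℝ × ℝ} (hp : 0 ≤ p.1 ∧ 0 < p.2) (n k : ℕ) :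
    mom (List.replicate n p) k = gmom p.1 p.2 k ^ n := by
  induction n with
  | zero => simp [mom_nil]
  | succ n ih =>
    have hv : Valid (p :: List.replicate n p) := Valid.replicate hp (n + 1)
    rw [List.replicate_succ, mom_cons hv, ih, pow_succ, mul_comm]

lemma mom_pos {t : List (ℝ × ℝ)} (h : Valid t) (k : ℕ) : 0 < mom t k := by
  have hprob := isProb_prodLaw t h
  have hae : ∀ᵐ y ∂(prodLaw t), 1 ≤ y := prodLaw_ae_one_le t h
  unfold mom
  have hint : Integrable (fun y : ℝ => (y⁻¹) ^ k) (prodLaw t) := by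
    apply Integrable.mono' (integrable_const (1 : ℝ))
    · exact Measurable.aestronglyMeasurable (by fun_prop)
    · filter_upwards [hae] with y hy
      rw [norm_pow, norm_inv, Real.norm_eq_abs, abs_of_pos (by linarith)]
      exact pow_le_one₀ (by positivity) (inv_le_one_of_one_le₀ hy)
  rw [integral_pos_iff_support_of_nonneg_ae _ hint]
  · have h1 : (prodLaw t) (Function.support fun y : ℝ => (y⁻¹) ^ k) = 1 := by
      rw [← prob_compl_eq_zero_iff₀]
      · rw [← mem_ae_iff]
        filter_upwards [hae] with y hy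
        rw [Function.mem_support]
        have : 0 < y := by linarith
        positivity
      · apply MeasurableSet.nullMeasurableSet
        exact measurableSet_support (by fun_prop)
    rw [h1]; simp
  · filter_upwards [hae] with y hy
    have : 0 < y := by linarith
    simp only [Pi.zero_apply]; positivity

/-- building block of exponents -/
noncomputable def EE (k : ℕ) (y : ℝ) : ℝ := (1 - ((1 + y)⁻¹) ^ k) / y

noncomputable def Psi (k : ℕ) (t : ℝ) : ℝ := ∫ y in Ioi 0, EE k y * Real.exp (-(t * y))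

lemma EE_meas (k : ℕ) : Measurable (EE k) := by unfold EE; fun_prop

lemma EE_nonneg (k : ℕ) {y : ℝ} (hy : 0 < y) : 0 ≤ EE k y := by
  unfold EE
  apply div_nonneg _ hy.le
  have : ((1 + y)⁻¹) ^ k ≤ 1 := pow_le_one₀ (by positivity) (inv_le_one_of_one_le₀ (by linarith))
  linarith

lemma EE_le (k : ℕ) {y : ℝ} (hy : 0 < y) : EE k y ≤ k := by
  unfold EE
  rw [div_le_iff₀ hy]
  have h1 : 1 + (k : ℝ) * ((1 + y)⁻¹ - 1) ≤ (1 + ((1 + y)⁻¹ - 1)) ^ k := by
    apply one_add_mul_le_pow
    have : 0 < (1 + y)⁻¹ := by positivity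
    linarith
  have h2 : 1 - (1 + y)⁻¹ ≤ y := by
    have h3 : (1 + y)⁻¹ ≥ 1 - y := by
      rw [ge_iff_le, ← one_div, le_div_iff₀ (by positivity)]
      nlinarith
    linarith
  rw [add_sub_cancel] at h1
  have hk : (0 : ℝ) ≤ k := Nat.cast_nonneg k
  nlinarith

lemma gmom_eq {t γ : ℝ} (ht : 0 < t) (hγ : 0 < γ) (k : ℕ) :
    1 - gmom t⁻¹ γ k = γ / Real.Gamma (γ + 1) *
      ∫ y in Ioi 0, (t * y) ^ γ * Real.exp (-(t * y)) * EE k y := by
  have hprob := isProb_gam hγ
  have hint : Integrable (fun g : ℝ => ((1 + t⁻¹ * g)⁻¹) ^ k) (gam γ) := by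
    apply Integrable.mono' (integrable_const (1 : ℝ))
    · exact Measurable.aestronglyMeasurable (by fun_prop)
    · filter_upwards [gam_ae_pos γ] with y hy
      have h0 : 0 < 1 + t⁻¹ * y := by positivity
      rw [norm_pow, norm_inv, Real.norm_eq_abs, abs_of_pos h0]
      refine pow_le_one₀ (by positivity) (inv_le_one_of_one_le₀ ?_)
      have : 0 < t⁻¹ * y := by positivity
      linarith
  have h1 : 1 - gmom t⁻¹ γ k = ∫ g, (1 - ((1 + t⁻¹ * g)⁻¹) ^ k) ∂(gam γ) := by
    rw [integral_sub (integrable_const 1) hint]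
    unfold gmom; simp
  rw [h1, integral_gam hγ]
  have h2 := integral_comp_mul_left_Ioi
    (fun g => gw γ g • (1 - ((1 + t⁻¹ * g)⁻¹) ^ k)) 0 ht
  rw [mul_zero] at h2
  have h3 : ∫ g in Ioi 0, gw γ g • (1 - ((1 + t⁻¹ * g)⁻¹) ^ k) =
      t * ∫ y in Ioi 0, gw γ (t * y) • (1 - ((1 + t⁻¹ * (t * y))⁻¹) ^ k) := by
    rw [h2, smul_eq_mul, ← mul_assoc, mul_inv_cancel₀ ht.ne', one_mul]
  rw [h3, ← integral_const_mul, ← integral_const_mul]
  apply setIntegral_congr_fun measurableSet_Ioi
  intro y hy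
  have hy0 : 0 < y := hy
  have h4 : t⁻¹ * (t * y) = y := by field_simp
  have h5 : (t * y) ^ γ = (t * y) ^ (γ - 1) * (t * y) := by
    rw [← Real.rpow_add_one (by positivity)]; congr 1; ring
  have h6 : Real.Gamma (γ + 1) = γ * Real.Gamma γ := Real.Gamma_add_one hγ.ne'
  have h7 := (Real.Gamma_pos_of_pos hγ).ne'
  simp only [gw, EE, smul_eq_mul, h4]
  rw [h5, h6]
  field_simp

/-- the moment of a small gamma factor -/
lemma tendsto_Psi {t : ℝ} (ht : 0 < t) (k : ℕ) {γ : ℕ → ℝ} (hγ0 : ∀ᶠ n in atTop, 0 < γ n)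
    (hγ : Tendsto γ atTop (𝓝 0)) :
    Tendsto (fun n => ∫ y in Ioi 0, (t * y) ^ (γ n) * Real.exp (-(t * y)) * EE k y) atTop
      (𝓝 (Psi k t)) := by
  have hγ1 : ∀ᶠ n in atTop, γ n < 1 := hγ.eventually_lt_const (by norm_num)
  unfold Psi
  apply tendsto_integral_filter_of_dominated_convergence
    (fun y => (k : ℝ) * ((1 + t * y) * Real.exp (-(t * y))))
  · filter_upwards with n
    apply Measurable.aestronglyMeasurable
    have := EE_meas k
    fun_prop
  · filter_upwards [hγ0, hγ1] with n h0 h1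
    rw [ae_restrict_iff' measurableSet_Ioi]
    filter_upwards with y hy
    have hy0 : 0 < y := hy
    have hty : 0 < t * y := by positivity
    have h2 : (t * y) ^ (γ n) ≤ 1 + t * y := by
      rcases le_total (t * y) 1 with h | h
      · have := Real.rpow_le_one hty.le h h0.le
        linarith
      · have := Real.rpow_le_rpow_of_exponent_le h h1.le
        rw [Real.rpow_one] at this
        linarith
    have h3 := EE_nonneg k hy0
    have h4 := EE_le k hy0
    have h5 : 0 < Real.exp (-(t * y)) := Real.exp_pos _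
    have h6 : 0 < (t * y) ^ (γ n) := by positivity
    rw [Real.norm_eq_abs, abs_of_nonneg (by positivity)]
    calc (t * y) ^ (γ n) * Real.exp (-(t * y)) * EE k y
        ≤ (1 + t * y) * Real.exp (-(t * y)) * k := by gcongr
      _ = _ := by ring
  · have h1 : IntegrableOn (fun y : ℝ => Real.exp (-(t * y))) (Ioi 0) := by
      have := integrableOn_exp_mul_Ioi (a := -t) (by linarith) 0
      simpa [neg_mul] using this
    have h2 : IntegrableOn (fun y : ℝ => y * Real.exp (-(t * y))) (Ioi 0) := by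
      have h3 := _root_.integrableOn_rpow_mul_exp_neg_mul_rpow (s := 1) (p := 1) (b := t)
        (by norm_num) (by norm_num) ht
      refine h3.congr_fun (fun y hy => ?_) measurableSet_Ioi
      simp only [Real.rpow_one, neg_mul]
    have h4 := (h1.add (h2.const_mul t)).const_mul (k : ℝ)
    refine h4.congr (Eventually.of_forall fun y => ?_)
    simp only [Pi.add_apply]
    ring
  · rw [ae_restrict_iff' measurableSet_Ioi]
    filter_upwards with y hy
    have hy0 : 0 < y := hy
    have hty : 0 < t * y := by positivity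
    have h1 : Tendsto (fun n => (t * y) ^ (γ n)) atTop (𝓝 ((t * y) ^ (0 : ℝ))) :=
      (Real.continuousAt_const_rpow hty.ne').tendsto.comp hγ
    rw [Real.rpow_zero] at h1
    have h2 := (h1.mul_const (Real.exp (-(t * y)))).mul_const (EE k y)
    rw [one_mul] at h2
    rw [mul_comm (EE k y)]
    exact h2

lemma tendsto_gmom_pow {t q : ℝ} (ht : 0 < t) (hq : 0 < q) (k : ℕ) :
    Tendsto (fun n : ℕ => gmom t⁻¹ (q / n) k ^ n) atTop (𝓝 (Real.exp (-(q * Psi k t)))) := by
  have hγ : Tendsto (fun n : ℕ => q / (n : ℝ)) atTop (𝓝 0) := tendsto_const_div_atTop_nhds_zero_nat q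
  have hγ0 : ∀ᶠ n : ℕ in atTop, 0 < q / (n : ℝ) := by
    filter_upwards [eventually_gt_atTop 0] with n hn
    positivity
  have h1 := tendsto_Psi ht k hγ0 hγ
  have h2 : Tendsto (fun n : ℕ => Real.Gamma (q / n + 1)) atTop (𝓝 1) := by
    have h3 : ContinuousAt Real.Gamma (0 + 1) := by
      apply (Real.differentiableAt_Gamma _).continuousAt
      intro m
      have : (0 : ℝ) ≤ m := Nat.cast_nonneg m
      intro h; linarith
    have h4 := h3.tendsto.comp (hγ.add_const 1)
    rw [zero_add, Real.Gamma_one] at h4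
    exact h4
  have h3 : Tendsto (fun n : ℕ => (n : ℝ) * (gmom t⁻¹ (q / n) k - 1)) atTop (𝓝 (-(q * Psi k t))) := by
    have h4 : Tendsto (fun n : ℕ => -(q / Real.Gamma (q / n + 1) *
        ∫ y in Ioi 0, (t * y) ^ (q / (n : ℝ)) * Real.exp (-(t * y)) * EE k y)) atTop
        (𝓝 (-(q / 1 * Psi k t))) :=
      ((tendsto_const_nhds.div h2 one_ne_zero).mul h1).neg
    rw [div_one] at h4
    refine h4.congr' ?_
    filter_upwards [hγ0, eventually_gt_atTop 0] with n h0 hn
    have h5 := gmom_eq ht h0 k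
    have h6 : gmom t⁻¹ (q / n) k - 1 = -(1 - gmom t⁻¹ (q / n) k) := by ring
    rw [h6, h5]
    have hn0 : (n : ℝ) ≠ 0 := by positivity
    have hG : Real.Gamma (q / n + 1) ≠ 0 := (Real.Gamma_pos_of_pos (by linarith)).ne'
    field_simp
  have h4 := Real.tendsto_one_add_pow_exp_of_tendsto h3
  refine h4.congr (fun n => ?_)
  congr 1; ring

end Pool.Agent.Helper7.GGC
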