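import Mathlib
import Pool.Agent.Helper7.GGC.Moments

open MeasureTheory Filter Topology Set Metric ProbabilityTheory
open scoped ENNReal NNReal unitInterval ComplexConjugate

namespace Pool.Agent.Helper7.GGC

/-- exponents of finite products -/
def expSet (K : ℕ) : AddSubmonoid (Fin K → ℝ) where
  carrier := {v | ∃ t, Valid t ∧ ∀ j : Fin K, v j = -Real.log (mom t (j + 1))}
  zero_mem' := by
    refine ⟨[], ?_, ?_⟩
    · intro p hp; simp at hp
    · intro j; rw [mom_nil]; simp
  add_mem' := by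
    rintro u v ⟨t, ht, hu⟩ ⟨s, hs, hv⟩
    refine ⟨t ++ s, ht.append hs, fun j => ?_⟩
    rw [mom_append ht hs, Real.log_mul (mom_pos ht _).ne' (mom_pos hs _).ne', Pi.add_apply,
      hu, hv]
    ring

lemma Psi_mem_closure {K : ℕ} {t q : ℝ} (ht : 0 < t) (hq : 0 ≤ q) :
    (fun j : Fin K => q * Psi (j + 1) t) ∈ closure (expSet K : Set (Fin K → ℝ)) := by
  rcases hq.eq_or_lt with rfl | hq
  · have : (fun j : Fin K => 0 * Psi (j + 1) t) = 0 := by funext j; simp
    rw [this]
    exact subset_closure (expSet K).zero_mem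
  · have h1 : Tendsto (fun n : ℕ => fun j : Fin K =>
        -Real.log (gmom t⁻¹ (q / n) (j + 1) ^ n)) atTop (𝓝 (fun j : Fin K => q * Psi (j + 1) t)) := by
      rw [tendsto_pi_nhds]
      intro j
      have h2 := ((tendsto_gmom_pow ht hq (j + 1)).log (Real.exp_ne_zero _)).neg
      rw [Real.log_exp, neg_neg] at h2
      exact h2
    apply mem_closure_of_tendsto h1
    filter_upwards [eventually_gt_atTop 0] with n hn
    have hp : 0 ≤ ((t⁻¹, q / n) : ℝ × ℝ).1 ∧ 0 < ((t⁻¹, q / n) : ℝ × ℝ).2 :=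
      ⟨by positivity, by positivity⟩
    refine ⟨List.replicate n (t⁻¹, q / n), Valid.replicate hp n, fun j => ?_⟩
    rw [mom_replicate hp]

/-- duality for the cone of good exponents -/
theorem cone_main {K : ℕ} (D : Fin K → ℝ)
    (hD : ∀ w : Fin K → ℝ, (∀ t : ℝ, 0 < t → 0 ≤ ∑ j, w j * Psi (j + 1) t) →
      0 ≤ ∑ j, w j * D j) : D ∈ closure (expSet K : Set (Fin K → ℝ)) := by
  by_contra hcon
  set C : Set (Fin K → ℝ) := {v | ∀ r : ℝ, 0 ≤ r → r • v ∈ closure (expSet K : Set (Fin K → ℝ))}
    with hC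
  have hadd : ∀ u ∈ closure (expSet K : Set (Fin K → ℝ)),
      ∀ v ∈ closure (expSet K : Set (Fin K → ℝ)), u + v ∈ closure (expSet K : Set (Fin K → ℝ)) :=
    fun u hu v hv => (expSet K).topologicalClosure.add_mem hu hv
  have hconv : Convex ℝ C := by
    intro u hu v hv a b ha hb _ r hr
    rw [smul_add, smul_smul, smul_smul]
    exact hadd _ (hu _ (by positivity)) _ (hv _ (by positivity))
  have hclosed : IsClosed C := by
    have : C = ⋂ r : ℝ, ⋂ _ : 0 ≤ r, {v | r • v ∈ closure (expSet K : Set (Fin K → ℝ))} := by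
      ext v; simp [hC]
    rw [this]
    refine isClosed_iInter fun r => isClosed_iInter fun _ => ?_
    exact isClosed_closure.preimage (continuous_const_smul r)
  have hDC : D ∉ C := by
    intro h
    apply hcon
    have := h 1 zero_le_one
    rwa [one_smul] at this
  obtain ⟨f, u, hfu, huD⟩ := geometric_hahn_banach_closed_point hconv hclosed hDC
  have h0 : (0 : Fin K → ℝ) ∈ C := by
    intro r _
    rw [smul_zero]
    exact subset_closure (expSet K).zero_mem
  have hu0 : 0 < u := by
    have := hfu 0 h0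
    rwa [map_zero] at this
  have hPsi : ∀ t : ℝ, 0 < t → f (fun j : Fin K => Psi (j + 1) t) ≤ 0 := by
    intro t ht
    by_contra hneg
    push Not at hneg
    set v : Fin K → ℝ := fun j => Psi (j + 1) t with hv
    have h1 : ((u / f v) • v) ∈ C := by
      intro r hr
      rw [smul_smul]
      have h2 := Psi_mem_closure (K := K) (q := r * (u / f v)) ht (by positivity)
      exact h2
    have h3 := hfu _ h1
    rw [map_smul, smul_eq_mul, div_mul_cancel₀ _ hneg.ne'] at h3
    exact lt_irrefl _ h3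
  have hsum : ∀ v : Fin K → ℝ, ∑ j, (-(f (Pi.single j 1))) * v j = -(f v) := by
    intro v
    have h1 : v = ∑ j, v j • (Pi.single j (1 : ℝ) : Fin K → ℝ) := by
      have := pi_eq_sum_univ' v
      convert this using 2
    conv_rhs => rw [h1, map_sum]
    rw [← Finset.sum_neg_distrib]
    refine Finset.sum_congr rfl fun j _ => ?_
    rw [map_smul, smul_eq_mul]; ring
  have h2 := hD (fun j => -(f (Pi.single j 1))) (fun t ht => by
    rw [hsum]
    have := hPsi t ht
    linarith)
  rw [hsum] at h2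
  linarith

/-- choice of a sequence of valid lists with converging moments -/
theorem exists_lists (D : ℕ → ℝ)
    (hD : ∀ (K : ℕ) (w : Fin K → ℝ), (∀ t : ℝ, 0 < t → 0 ≤ ∑ j, w j * Psi (j + 1) t) →
      0 ≤ ∑ j, w j * D (j + 1)) :
    ∃ t : ℕ → List (ℝ × ℝ), (∀ n, Valid (t n)) ∧
      ∀ k : ℕ, Tendsto (fun n => mom (t n) (k + 1)) atTop (𝓝 (Real.exp (-(D (k + 1))))) := by
  have h1 : ∀ n : ℕ, ∃ t, Valid t ∧ ∀ j : Fin n,
      |(-Real.log (mom t (j + 1))) - D (j + 1)| < 1 / ((n : ℝ) + 1) := by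
    intro n
    have h2 := cone_main (K := n) (fun j => D (j + 1)) (hD n)
    rw [Metric.mem_closure_iff] at h2
    obtain ⟨v, ⟨t, ht, hv⟩, hdist⟩ := h2 (1 / ((n : ℝ) + 1)) (by positivity)
    refine ⟨t, ht, fun j => ?_⟩
    rw [dist_pi_lt_iff (by positivity)] at hdist
    have := hdist j
    rw [dist_comm, Real.dist_eq, hv] at this
    exact this
  choose t ht htD using h1
  refine ⟨t, ht, fun k => ?_⟩
  have h3 : Tendsto (fun n => -Real.log (mom (t n) (k + 1))) atTop (𝓝 (D (k + 1))) := by
    rw [tendsto_iff_norm_sub_tendsto_zero]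
    have h4 : Tendsto (fun n : ℕ => 1 / ((n : ℝ) + 1)) atTop (𝓝 0) :=
      tendsto_one_div_add_atTop_nhds_zero_nat
    refine squeeze_zero' (Eventually.of_forall fun n => norm_nonneg _) ?_ h4
    filter_upwards [eventually_gt_atTop k] with n hn
    have := htD n ⟨k, hn⟩
    rw [Real.norm_eq_abs]
    exact this.le
  have h5 := (Real.continuous_exp.tendsto _).comp h3.neg
  refine h5.congr fun n => ?_
  simp only [Function.comp, neg_neg]
  rw [Real.exp_log (mom_pos (ht n) _)]

lemma mom_zero {t : List (ℝ × ℝ)} (h : Valid t) : mom t 0 = 1 := by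
  have := isProb_prodLaw t h
  unfold mom
  simp

lemma inv_pow_integrable {t : List (ℝ × ℝ)} (h : Valid t) (k : ℕ) :
    Integrable (fun y : ℝ => (y⁻¹) ^ k) (prodLaw t) := by
  have := isProb_prodLaw t h
  apply Integrable.mono' (integrable_const (1 : ℝ))
  · exact Measurable.aestronglyMeasurable (by fun_prop)
  · filter_upwards [prodLaw_ae_one_le t h] with y hy
    rw [norm_pow, norm_inv, Real.norm_eq_abs, abs_of_pos (by linarith)]
    exact pow_le_one₀ (by positivity) (inv_le_one_of_one_le₀ hy)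

/-- Weierstrass: convergence of moments implies convergence of integrals -/
theorem tendsto_of_moments {ν : Measure ℝ} [IsProbabilityMeasure ν]
    (hν : ∀ᵐ u ∂ν, u ∈ Icc (0 : ℝ) 1) {t : ℕ → List (ℝ × ℝ)} (ht : ∀ n, Valid (t n))
    (hm : ∀ k : ℕ, Tendsto (fun n => mom (t n) k) atTop (𝓝 (∫ u, u ^ k ∂ν)))
    {f : ℝ → ℝ} (hf : Continuous f) :
    Tendsto (fun n => ∫ y, f y⁻¹ ∂(prodLaw (t n))) atTop (𝓝 (∫ u, f u ∂ν)) := by
  obtain ⟨C, hC⟩ : ∃ C, ∀ u ∈ Icc (0 : ℝ) 1, ‖f u‖ ≤ C :=
    isCompact_Icc.exists_bound_of_continuousOn hf.continuousOn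
  have hI : ∀ n, ∀ᵐ y ∂(prodLaw (t n)), y⁻¹ ∈ Icc (0 : ℝ) 1 := by
    intro n
    filter_upwards [prodLaw_ae_one_le (t n) (ht n)] with y hy
    exact ⟨by positivity, inv_le_one_of_one_le₀ hy⟩
  have hfi : ∀ n, Integrable (fun y => f y⁻¹) (prodLaw (t n)) := by
    intro n
    have := isProb_prodLaw (t n) (ht n)
    apply Integrable.mono' (integrable_const C)
    · exact (hf.measurable.comp measurable_inv).aestronglyMeasurable
    · filter_upwards [hI n] with y hy using hC _ hy
  have hfν : Integrable f ν := by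
    apply Integrable.mono' (integrable_const C) hf.aestronglyMeasurable
    filter_upwards [hν] with u hu using hC _ hu
  have hpν : ∀ k : ℕ, Integrable (fun u : ℝ => u ^ k) ν := by
    intro k
    apply Integrable.mono' (integrable_const (1 : ℝ))
    · exact Measurable.aestronglyMeasurable (by fun_prop)
    · filter_upwards [hν] with u hu
      rw [norm_pow, Real.norm_eq_abs, abs_of_nonneg hu.1]
      exact pow_le_one₀ hu.1 hu.2
  -- polynomials
  have hpoly : ∀ p : Polynomial ℝ, Tendsto (fun n => ∫ y, p.eval y⁻¹ ∂(prodLaw (t n))) atTop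
      (𝓝 (∫ u, p.eval u ∂ν)) := by
    intro p
    have h1 : ∀ n, ∫ y, p.eval y⁻¹ ∂(prodLaw (t n)) =
        ∑ i ∈ Finset.range (p.natDegree + 1), p.coeff i * mom (t n) i := by
      intro n
      simp_rw [Polynomial.eval_eq_sum_range]
      rw [integral_finsetSum]
      · refine Finset.sum_congr rfl fun i _ => ?_
        rw [integral_const_mul]; rfl
      · intro i _
        exact (inv_pow_integrable (ht n) i).const_mul _
    have h2 : ∫ u, p.eval u ∂ν =
        ∑ i ∈ Finset.range (p.natDegree + 1), p.coeff i * ∫ u, u ^ i ∂ν := by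
      simp_rw [Polynomial.eval_eq_sum_range]
      rw [integral_finsetSum]
      · refine Finset.sum_congr rfl fun i _ => ?_
        rw [integral_const_mul]
      · intro i _
        exact (hpν i).const_mul _
    simp_rw [h1, h2]
    exact tendsto_finsetSum _ fun i _ => (hm i).const_mul _
  rw [Metric.tendsto_atTop]
  intro ε hε
  obtain ⟨p, hp⟩ := exists_polynomial_near_of_continuousOn 0 1 f hf.continuousOn (ε / 3)
    (by positivity)
  obtain ⟨N, hN⟩ := (Metric.tendsto_atTop.1 (hpoly p)) (ε / 3) (by positivity)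
  refine ⟨N, fun n hn => ?_⟩
  have hpc : Continuous fun u : ℝ => p.eval u := p.continuous
  obtain ⟨C', hC'⟩ : ∃ C', ∀ u ∈ Icc (0 : ℝ) 1, ‖p.eval u‖ ≤ C' :=
    isCompact_Icc.exists_bound_of_continuousOn hpc.continuousOn
  have hprob := isProb_prodLaw (t n) (ht n)
  have hpi : Integrable (fun y => p.eval y⁻¹) (prodLaw (t n)) := by
    apply Integrable.mono' (integrable_const C')
    · exact (hpc.measurable.comp measurable_inv).aestronglyMeasurable
    · filter_upwards [hI n] with y hy using hC' _ hy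
  have hpνi : Integrable (fun u => p.eval u) ν := by
    apply Integrable.mono' (integrable_const C') hpc.aestronglyMeasurable
    filter_upwards [hν] with u hu using hC' _ hu
  have e1 : |∫ y, f y⁻¹ ∂(prodLaw (t n)) - ∫ y, p.eval y⁻¹ ∂(prodLaw (t n))| ≤ ε / 3 := by
    rw [← integral_sub (hfi n) hpi, ← Real.norm_eq_abs]
    refine (norm_integral_le_of_norm_le_const (C := ε / 3) ?_).trans ?_
    · filter_upwards [hI n] with y hy
      rw [Real.norm_eq_abs, abs_sub_comm]
      exact (hp _ hy).le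
    · simp
  have e2 : |∫ u, f u ∂ν - ∫ u, p.eval u ∂ν| ≤ ε / 3 := by
    rw [← integral_sub hfν hpνi, ← Real.norm_eq_abs]
    refine (norm_integral_le_of_norm_le_const (C := ε / 3) ?_).trans ?_
    · filter_upwards [hν] with y hy
      rw [Real.norm_eq_abs, abs_sub_comm]
      exact (hp _ hy).le
    · simp
  have e3 := hN n hn
  rw [Real.dist_eq] at e3 ⊢
  rw [abs_le] at e1 e2
  rw [abs_lt] at e3 ⊢
  constructor <;> linarith [e1.1, e1.2, e2.1, e2.2, e3.1, e3.2]

end Pool.Agent.Helper7.GGC
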