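import Mathlib
import Pool.Agent.Helper7.GGC.Cone

open MeasureTheory Filter Topology Set Metric ProbabilityTheory
open scoped ENNReal NNReal unitInterval ComplexConjugate

namespace Pool.Agent.Helper7.GGC

noncomputable def betw (a b x : ℝ) : ℝ := x ^ (a - 1) * (1 - x) ^ (b - 1)

noncomputable def betZ (a b : ℝ) : ℝ := ∫ x in Ioo (0 : ℝ) 1, betw a b x

noncomputable def bet (a b : ℝ) : Measure ℝ :=
  (volume.restrict (Ioo 0 1)).withDensity (fun x => ENNReal.ofReal (betw a b x / betZ a b))

noncomputable def betM (a b r : ℝ) : ℝ :=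
  Real.Gamma (a + r) * Real.Gamma (a + b) / (Real.Gamma a * Real.Gamma (a + b + r))

lemma betM_pos {a b r : ℝ} (ha : 0 < a) (hb : 0 < b) (hr : 0 ≤ r) : 0 < betM a b r := by
  unfold betM
  have h1 := Real.Gamma_pos_of_pos ha
  have h2 := Real.Gamma_pos_of_pos (show 0 < a + r by positivity)
  have h3 := Real.Gamma_pos_of_pos (show 0 < a + b by positivity)
  have h4 := Real.Gamma_pos_of_pos (show 0 < a + b + r by positivity)
  positivity

lemma measurable_betw (a b : ℝ) : Measurable (betw a b) := by unfold betw; fun_prop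

lemma betw_nonneg (a b : ℝ) {x : ℝ} (hx : x ∈ Ioo (0 : ℝ) 1) : 0 ≤ betw a b x := by
  unfold betw
  have h1 : 0 < x := hx.1
  have h2 : 0 < 1 - x := by linarith [hx.2]
  positivity

section
variable {a b : ℝ} (hint : IntegrableOn (betw a b) (Ioo 0 1)) (hZ : 0 < betZ a b)
include hZ

lemma integral_bet (f : ℝ → ℝ) :
    ∫ x, f x ∂(bet a b) = (∫ x in Ioo (0 : ℝ) 1, f x * betw a b x) / betZ a b := by
  rw [bet, integral_withDensity_eq_integral_toReal_smul (by
      exact ENNReal.measurable_ofReal.comp ((measurable_betw a b).div_const _)) (by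
      filter_upwards with y; exact ENNReal.ofReal_lt_top), ← integral_div]
  apply setIntegral_congr_fun measurableSet_Ioo
  intro x hx
  have h1 := betw_nonneg a b hx
  simp only
  rw [ENNReal.toReal_ofReal (by positivity), smul_eq_mul]
  ring

include hint

lemma isProb_bet : IsProbabilityMeasure (bet a b) := by
  constructor
  have h1 : 0 ≤ᵐ[volume.restrict (Ioo (0 : ℝ) 1)] fun x => betw a b x / betZ a b := by
    rw [EventuallyLE, ae_restrict_iff' measurableSet_Ioo]
    filter_upwards with x hx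
    have := betw_nonneg a b hx
    simp only [Pi.zero_apply]
    positivity
  rw [bet, withDensity_apply _ MeasurableSet.univ, Measure.restrict_univ,
    ← ofReal_integral_eq_lintegral_ofReal (hint.div_const _) h1, integral_div]
  have : (∫ x in Ioo (0 : ℝ) 1, betw a b x) = betZ a b := rfl
  rw [this, div_self hZ.ne']
  simp

end

lemma bet_ae (a b : ℝ) : ∀ᵐ x ∂(bet a b), x ∈ Ioo (0 : ℝ) 1 := by
  have h : bet a b ≪ volume.restrict (Ioo 0 1) := withDensity_absolutelyContinuous _ _
  exact h.ae_le (ae_restrict_mem measurableSet_Ioo)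

lemma glue_eq {x u : ℝ} (hx : 0 < x) (hu : 0 < u) :
    expNegInvGlue (u / x) = Real.exp (-(x * u⁻¹)) := by
  unfold expNegInvGlue
  rw [if_neg (not_le.2 (by positivity))]
  congr 2
  field_simp

theorem PT_beta {a b s : ℝ} (ha : 0 < a) (hb : 0 < b) (hs : 0 < s)
    (hint : IntegrableOn (betw a b) (Ioo 0 1)) (hZ : 0 < betZ a b)
    (hmom : ∀ r : ℝ, 0 ≤ r → ∫ x in Ioo (0 : ℝ) 1, x ^ r * betw a b x = betZ a b * betM a b r)
    (hcone : ∀ (K : ℕ) (w : Fin K → ℝ), (∀ t : ℝ, 0 < t → 0 ≤ ∑ j, w j * Psi (j + 1) t) →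
      0 ≤ ∑ j, w j * (-Real.log (betM a b (s * ((j : ℕ) + 1 : ℝ))))) :
    PT (fun l => -Real.log (∫ x, Real.exp (-(l * x ^ (-s))) ∂(bet a b))) := by
  have hprob : IsProbabilityMeasure (bet a b) := isProb_bet hint hZ
  obtain ⟨t, ht, hlim⟩ := exists_lists (fun k => -Real.log (betM a b (s * k))) (by
    intro K w hw
    have := hcone K w hw
    push_cast
    exact this)
  have hsm : Measurable fun x : ℝ => x ^ s := by fun_prop
  set ν : Measure ℝ := Measure.map (fun x : ℝ => x ^ s) (bet a b) with hν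
  have hνp : IsProbabilityMeasure ν := Measure.isProbabilityMeasure_map hsm.aemeasurable
  have hνI : ∀ᵐ u ∂ν, u ∈ Icc (0 : ℝ) 1 := by
    rw [hν, ae_map_iff (p := fun u : ℝ => u ∈ Icc (0 : ℝ) 1) hsm.aemeasurable measurableSet_Icc]
    filter_upwards [bet_ae a b] with x hx
    exact ⟨(Real.rpow_pos_of_pos hx.1 s).le, Real.rpow_le_one hx.1.le hx.2.le hs.le⟩
  have hνk : ∀ k : ℕ, ∫ u, u ^ k ∂ν = betM a b (s * k) := by
    intro k
    rw [hν, integral_map hsm.aemeasurable (Measurable.aestronglyMeasurable (by fun_prop)),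
      integral_bet hZ]
    rw [div_eq_iff hZ.ne', mul_comm, ← hmom (s * k) (by positivity)]
    apply setIntegral_congr_fun measurableSet_Ioo
    intro x hx
    simp only
    rw [Real.rpow_mul hx.1.le, Real.rpow_natCast]
  have hm : ∀ k : ℕ, Tendsto (fun n => mom (t n) k) atTop (𝓝 (∫ u, u ^ k ∂ν)) := by
    intro k
    rw [hνk]
    rcases k with _ | k
    · have h1 : betM a b (s * ((0 : ℕ) : ℝ)) = 1 := by
        rw [← hνk 0]; simp
      rw [h1]
      refine tendsto_const_nhds.congr fun n => ?_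
      rw [mom_zero (ht n)]
    · have h1 := hlim k
      simp only [neg_neg] at h1
      rwa [Real.exp_log (betM_pos ha hb (by positivity))] at h1
  have hφ : ∀ l : ℝ, 0 < l → ∫ u, expNegInvGlue (u / l) ∂ν =
      ∫ x, Real.exp (-(l * x ^ (-s))) ∂(bet a b) := by
    intro l hl
    rw [hν, integral_map hsm.aemeasurable]
    · apply integral_congr_ae
      filter_upwards [bet_ae a b] with x hx
      rw [glue_eq hl (Real.rpow_pos_of_pos hx.1 s), Real.rpow_neg hx.1.le]
    · have : Continuous fun u : ℝ => expNegInvGlue (u / l) :=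
        (expNegInvGlue.contDiff (n := 0)).continuous.comp (by fun_prop)
      exact this.aestronglyMeasurable
  have hpos : ∀ l : ℝ, 0 < l → 0 < ∫ x, Real.exp (-(l * x ^ (-s))) ∂(bet a b) := by
    intro l hl
    rw [integral_pos_iff_support_of_nonneg (fun y => (Real.exp_pos _).le)]
    · have : Function.support (fun x : ℝ => Real.exp (-(l * x ^ (-s)))) = univ := by
        ext y; simp
      rw [this]; simp
    · apply Integrable.mono' (integrable_const (1 : ℝ))
      · exact Measurable.aestronglyMeasurable (by fun_prop)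
      · filter_upwards [bet_ae a b] with x hx
        rw [Real.norm_eq_abs, abs_of_pos (Real.exp_pos _), Real.exp_le_one_iff]
        have := mul_pos hl (Real.rpow_pos_of_pos hx.1 (-s))
        linarith
  refine PT_of_tendsto (l := atTop) (Li := fun n x => -Real.log (lap (prodLaw (t n)) x))
    (fun n => PT_prodLaw (t n) (ht n)) (fun l hl => ?_)
  have hc : Continuous fun u : ℝ => expNegInvGlue (u / l) :=
    (expNegInvGlue.contDiff (n := 0)).continuous.comp (by fun_prop)
  have h1 := tendsto_of_moments hνI ht hm hc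
  rw [hφ l hl] at h1
  have h2 : ∀ n, ∫ y, expNegInvGlue (y⁻¹ / l) ∂(prodLaw (t n)) = lap (prodLaw (t n)) l := by
    intro n
    unfold lap
    apply integral_congr_ae
    filter_upwards [prodLaw_ae_one_le (t n) (ht n)] with y hy
    rw [glue_eq hl (by positivity), inv_inv]
  simp_rw [h2] at h1
  exact (h1.log (hpos l hl).ne').neg

theorem final_of {a b s : ℝ} (ha : 0 < a) (hb : 0 < b) (hs : 0 < s)
    (hint : IntegrableOn (betw a b) (Ioo 0 1)) (hZ : 0 < betZ a b)
    (hmom : ∀ r : ℝ, 0 ≤ r → ∫ x in Ioo (0 : ℝ) 1, x ^ r * betw a b x = betZ a b * betM a b r)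
    (hcone : ∀ (K : ℕ) (w : Fin K → ℝ), (∀ t : ℝ, 0 < t → 0 ≤ ∑ j, w j * Psi (j + 1) t) →
      0 ≤ ∑ j, w j * (-Real.log (betM a b (s * ((j : ℕ) + 1 : ℝ))))) :
    ∃ c : ℝ, 0 ≤ c ∧ ∃ U : Measure ℝ, U (Iic 0) = 0 ∧
      ∀ l : ℝ, 0 < l → Integrable (fun t : ℝ => Real.log (1 + l / t)) U ∧
        (∫ x in Ioo (0 : ℝ) 1, Real.exp (-(l * x ^ (-s))) * x ^ (a - 1) * (1 - x) ^ (b - 1)) =
          (∫ x in Ioo (0 : ℝ) 1, x ^ (a - 1) * (1 - x) ^ (b - 1)) *
            Real.exp (-(c * l) - ∫ t, Real.log (1 + l / t) ∂U) := by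
  have hprob : IsProbabilityMeasure (bet a b) := isProb_bet hint hZ
  have hpos : ∀ l : ℝ, 0 < l → 0 < ∫ x, Real.exp (-(l * x ^ (-s))) ∂(bet a b) := by
    intro l hl
    rw [integral_pos_iff_support_of_nonneg (fun y => (Real.exp_pos _).le)]
    · have : Function.support (fun x : ℝ => Real.exp (-(l * x ^ (-s)))) = univ := by
        ext y; simp
      rw [this]; simp
    · apply Integrable.mono' (integrable_const (1 : ℝ))
      · exact Measurable.aestronglyMeasurable (by fun_prop)
      · filter_upwards [bet_ae a b] with x hx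
        rw [Real.norm_eq_abs, abs_of_pos (Real.exp_pos _), Real.exp_le_one_iff]
        have := mul_pos hl (Real.rpow_pos_of_pos hx.1 (-s))
        linarith
  have hlim1 : Tendsto (fun l => ∫ x, Real.exp (-(l * x ^ (-s))) ∂(bet a b)) (𝓝[>] 0) (𝓝 1) := by
    have h1 : ∫ x : ℝ, (1 : ℝ) ∂(bet a b) = 1 := by simp
    rw [← h1]
    apply tendsto_integral_filter_of_dominated_convergence (fun _ => (1 : ℝ))
    · filter_upwards with l
      exact Measurable.aestronglyMeasurable (by fun_prop)
    · filter_upwards [self_mem_nhdsWithin] with l hl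
      filter_upwards [bet_ae a b] with x hx
      rw [Real.norm_eq_abs, abs_of_pos (Real.exp_pos _), Real.exp_le_one_iff]
      have := mul_pos hl (Real.rpow_pos_of_pos hx.1 (-s))
      linarith
    · exact integrable_const _
    · filter_upwards with x
      have h2 : Tendsto (fun l : ℝ => Real.exp (-(l * x ^ (-s)))) (𝓝 0)
          (𝓝 (Real.exp (-(0 * x ^ (-s))))) := by
        apply Continuous.tendsto
        fun_prop
      rw [zero_mul, neg_zero, Real.exp_zero] at h2
      exact h2.mono_left nhdsWithin_le_nhds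
  have hT : Thorin (fun l => ∫ x, Real.exp (-(l * x ^ (-s))) ∂(bet a b)) := by
    refine thorin_of_PT (L := fun l => -Real.log (∫ x, Real.exp (-(l * x ^ (-s))) ∂(bet a b)))
      ?_ (PT_beta ha hb hs hint hZ hmom hcone) ?_
    · intro l hl
      simp only [neg_neg]
      rw [Real.exp_log (hpos l hl)]
    · have h2 := (hlim1.log one_ne_zero).neg
      rw [Real.log_one, neg_zero] at h2
      exact h2
  obtain ⟨c, hc, U, hU, h⟩ := hT
  refine ⟨c, hc, U, hU, fun l hl => ⟨(h l hl).1, ?_⟩⟩
  have h2 := (h l hl).2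
  simp only at h2
  rw [integral_bet hZ, div_eq_iff hZ.ne'] at h2
  have h3 : (∫ x in Ioo (0 : ℝ) 1, x ^ (a - 1) * (1 - x) ^ (b - 1)) = betZ a b := rfl
  rw [h3, mul_comm (betZ a b), ← h2]
  apply setIntegral_congr_fun measurableSet_Ioo
  intro x _
  simp only [betw]
  ring

end Pool.Agent.Helper7.GGC
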