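import Mathlib
import Pool.Agent.Helper7.GGC.BetaFinal
import Pool.Agent.Helper81.GGC.GMix

open MeasureTheory Filter Topology Set Metric ProbabilityTheory
open scoped ENNReal NNReal unitInterval ComplexConjugate

namespace Pool.Agent.Helper7.GGC

lemma claimA {c : ℝ} (hc : 0 < c) {ρ : Measure ℝ} [IsFiniteMeasure ρ] (hρ : ∀ᵐ τ ∂ρ, 0 ≤ τ)
    {G : ℝ → ℝ} (hG : ∀ y : ℝ, 0 < y → G y = ∫ τ, Real.exp (-(τ * y)) ∂ρ) {K : ℕ} (w : Fin K → ℝ)
    (hw : ∀ t : ℝ, 0 < t → 0 ≤ ∑ j, w j * Psi (j + 1) t)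
    (hint : ∀ j : Fin K, IntegrableOn (fun y => EE (j + 1) y * ((1 + y) ^ (-c) * G y)) (Ioi 0)) :
    0 ≤ ∫ y in Ioi 0, ∑ j, w j * (EE (j + 1) y * ((1 + y) ^ (-c) * G y)) := by
  have hprob := isProb_gam hc
  set μ : Measure (ℝ × ℝ) := (gam c).prod ρ with hμ
  have hμq : ∀ᵐ q ∂μ, 0 < q.1 + q.2 := by
    have a1 : ∀ᵐ q ∂μ, 0 < q.1 := Measure.quasiMeasurePreserving_fst.ae (gam_ae_pos c)
    have a2 : ∀ᵐ q ∂μ, 0 ≤ q.2 := Measure.quasiMeasurePreserving_snd.ae hρ
    filter_upwards [a1, a2] with q h1 h2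
    linarith
  have hrep : ∀ y : ℝ, 0 < y → (1 + y) ^ (-c) * G y = ∫ q, Real.exp (-((q.1 + q.2) * y)) ∂μ := by
    intro y hy
    have h1 : ∀ q : ℝ × ℝ, Real.exp (-((q.1 + q.2) * y)) =
        Real.exp (-(y * q.1)) * Real.exp (-(q.2 * y)) := by
      intro q
      rw [← Real.exp_add]; congr 1; ring
    simp_rw [h1]
    rw [integral_prod_mul (fun g => Real.exp (-(y * g))) (fun τ => Real.exp (-(τ * y))),
      integral_exp_gam hc (by linarith), hG y hy]
  -- integrability on the product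
  have hΦ : ∀ j : Fin K, Integrable (Function.uncurry fun (y : ℝ) (q : ℝ × ℝ) =>
      EE (j + 1) y * Real.exp (-((q.1 + q.2) * y))) ((volume.restrict (Ioi 0)).prod μ) := by
    intro j
    have hmeas : Measurable (Function.uncurry fun (y : ℝ) (q : ℝ × ℝ) =>
      EE (j + 1) y * Real.exp (-((q.1 + q.2) * y))) := by
      have h1 : Measurable fun z : ℝ × (ℝ × ℝ) => EE (j + 1) z.1 :=
        (EE_meas (j + 1)).comp measurable_fst
      have h2 : Measurable fun z : ℝ × (ℝ × ℝ) => Real.exp (-((z.2.1 + z.2.2) * z.1)) := by fun_prop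
      exact h1.mul h2
    rw [integrable_prod_iff hmeas.aestronglyMeasurable]
    constructor
    · rw [ae_restrict_iff' measurableSet_Ioi]
      filter_upwards with y hy
      have hy0 : 0 < y := hy
      simp only [Function.uncurry]
      apply Integrable.const_mul
      apply Integrable.mono' (integrable_const (1 : ℝ))
      · exact Measurable.aestronglyMeasurable (by fun_prop)
      · filter_upwards [hμq] with q hq
        rw [Real.norm_eq_abs, abs_of_pos (Real.exp_pos _), Real.exp_le_one_iff]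
        have := mul_pos hq hy0
        linarith
    · refine (hint j).congr ?_
      rw [EventuallyEq, ae_restrict_iff' measurableSet_Ioi]
      filter_upwards with y hy
      have hy0 : 0 < y := hy
      simp only [Function.uncurry]
      rw [hrep y hy0, ← integral_const_mul]
      congr 1
      funext q
      rw [Real.norm_eq_abs, abs_of_nonneg]
      have := EE_nonneg (j + 1) hy0
      positivity
  have hsum : Integrable (Function.uncurry fun (y : ℝ) (q : ℝ × ℝ) =>
      ∑ j, w j * (EE (j + 1) y * Real.exp (-((q.1 + q.2) * y)))) ((volume.restrict (Ioi 0)).prod μ) := by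
    have h1 : Integrable (fun z : ℝ × (ℝ × ℝ) => ∑ j : Fin K, w j *
        (Function.uncurry (fun (y : ℝ) (q : ℝ × ℝ) => EE (j + 1) y * Real.exp (-((q.1 + q.2) * y))) z))
        ((volume.restrict (Ioi 0)).prod μ) :=
      integrable_finsetSum _ fun j _ => (hΦ j).const_mul (w j)
    exact h1
  have h1 : ∫ y in Ioi 0, ∑ j, w j * (EE (j + 1) y * ((1 + y) ^ (-c) * G y)) =
      ∫ y in Ioi 0, ∫ q, ∑ j, w j * (EE (j + 1) y * Real.exp (-((q.1 + q.2) * y))) ∂μ := by
    apply setIntegral_congr_fun measurableSet_Ioi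
    intro y hy
    have hy0 : 0 < y := hy
    simp only
    rw [hrep y hy0]
    have h2 : ∀ q : ℝ × ℝ, ∑ j, w j * (EE (j + 1) y * Real.exp (-((q.1 + q.2) * y))) =
        (∑ j, w j * EE (j + 1) y) * Real.exp (-((q.1 + q.2) * y)) := by
      intro q
      rw [Finset.sum_mul]
      refine Finset.sum_congr rfl fun j _ => by ring
    simp_rw [h2]
    rw [integral_const_mul, Finset.sum_mul]
    refine Finset.sum_congr rfl fun j _ => by ring
  rw [h1, integral_integral_swap hsum]
  apply integral_nonneg_of_ae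
  have h3 : ∀ᵐ q ∂μ, ∀ j : Fin K, Integrable (fun y : ℝ =>
      EE (j + 1) y * Real.exp (-((q.1 + q.2) * y))) (volume.restrict (Ioi 0)) := by
    rw [ae_all_iff]
    intro j
    exact (hΦ j).prod_left_ae
  filter_upwards [hμq, h3] with q hq h4
  rw [integral_finsetSum _ fun j _ => (h4 j).const_mul _]
  have := hw _ hq
  simp_rw [integral_const_mul]
  exact this

/-- translation of a lower integral -/
lemma lintegral_shift (f : ℝ → ℝ≥0∞) :
    ∫⁻ x in Ioi (1 : ℝ), f x = ∫⁻ y in Ioi (0 : ℝ), f (1 + y) := by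
  rw [← lintegral_indicator measurableSet_Ioi, ← lintegral_indicator measurableSet_Ioi,
    ← lintegral_add_left_eq_self _ (1 : ℝ)]
  apply lintegral_congr
  intro y
  by_cases hy : y ∈ Ioi (0 : ℝ)
  · have : 1 + y ∈ Ioi (1 : ℝ) := by
      have : 0 < y := hy
      simp only [mem_Ioi]; linarith
    rw [indicator_of_mem hy, indicator_of_mem this]
  · have : 1 + y ∉ Ioi (1 : ℝ) := by
      intro h
      apply hy
      simp only [mem_Ioi] at h ⊢; linarith
    rw [indicator_of_notMem hy, indicator_of_notMem this]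

theorem cone_beta {a b s : ℝ} (ha : 0 < a) (hb : 0 < b) (hs : 1 ≤ s)
    (hle : ∀ r : ℝ, 0 ≤ r → betM a b r ≤ 1)
    (hlevy : ∀ k : ℝ, 0 < k → ∫⁻ c in Ioc (a / s) ((a + b) / s), ∫⁻ x in Ioi (1 : ℝ),
      ENNReal.ofReal ((1 - x ^ (-k)) * x ^ (-1 - c) / (1 - x ^ (-(1 / s)))) =
        ENNReal.ofReal (-Real.log (betM a b (s * k))))
    (K : ℕ) (w : Fin K → ℝ) (hw : ∀ t : ℝ, 0 < t → 0 ≤ ∑ j, w j * Psi (j + 1) t) :
      0 ≤ ∑ j, w j * (-Real.log (betM a b (s * ((j : ℕ) + 1 : ℝ)))) := by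
  have hs0 : 0 < s := by linarith
  have hp0 : 0 < 1 / s := by positivity
  have hp1 : 1 / s ≤ 1 := by rw [div_le_one hs0]; exact hs
  obtain ⟨ρ, hρf, hρ, hρg⟩ := Pool.Agent.Helper81.GGC.g_mix hp0 hp1
  set G : ℝ → ℝ := fun y => (1 - (1 + y)⁻¹) / (1 - (1 + y) ^ (-(1 / s))) with hGdef
  have hG : ∀ y : ℝ, 0 < y → G y = ∫ τ, Real.exp (-(τ * y)) ∂ρ := by
    intro y hy
    have h1 := hρg (1 + y) (by linarith)
    rw [add_sub_cancel_left] at h1
    exact h1
  have hGm : Measurable G := by rw [hGdef]; fun_prop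
  have hG0 : ∀ y : ℝ, 0 < y → 0 ≤ G y := by
    intro y hy
    rw [hG y hy]
    exact integral_nonneg fun τ => (Real.exp_pos _).le
  set S : Measure ℝ := volume.restrict (Ioc (a / s) ((a + b) / s)) with hS
  set T : Measure ℝ := volume.restrict (Ioi (0 : ℝ)) with hT
  let F : ℕ → ℝ × ℝ → ℝ := fun k z => EE k z.2 * ((1 + z.2) ^ (-z.1) * G z.2)
  have hFm : ∀ k, Measurable (F k) := by
    intro k
    have h1 : Measurable fun z : ℝ × ℝ => EE k z.2 := (EE_meas k).comp measurable_snd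
    have h2 : Measurable fun z : ℝ × ℝ => G z.2 := hGm.comp measurable_snd
    have h3 : Measurable fun z : ℝ × ℝ => (1 + z.2) ^ (-z.1) := by fun_prop
    exact h1.mul (h3.mul h2)
  have hFae : ∀ k, 0 ≤ᵐ[S.prod T] F k := by
    intro k
    have a2 : ∀ᵐ z ∂(S.prod T), z.2 ∈ Ioi (0 : ℝ) :=
      Measure.quasiMeasurePreserving_snd.ae (ae_restrict_mem measurableSet_Ioi)
    filter_upwards [a2] with z hz
    have hz0 : 0 < z.2 := hz
    have h1 := EE_nonneg k hz0
    have h2 := hG0 _ hz0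
    have h3 : 0 < (1 + z.2) ^ (-z.1) := Real.rpow_pos_of_pos (by linarith) _
    simp only [F, Pi.zero_apply]
    positivity
  have hFl : ∀ k : ℕ, 0 < k → ∫⁻ z, ENNReal.ofReal (F k z) ∂(S.prod T) =
      ENNReal.ofReal (-Real.log (betM a b (s * k))) := by
    intro k hk
    rw [lintegral_prod _ ((hFm k).ennreal_ofReal.aemeasurable),
      ← hlevy k (by exact_mod_cast hk), hS]
    apply lintegral_congr
    intro c
    rw [lintegral_shift, hT]
    apply setLIntegral_congr_fun measurableSet_Ioi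
    intro y hy
    have hy0 : 0 < y := hy
    simp only [F, hGdef, EE]
    congr 1
    have h1 : (1 + y) ^ (-1 - c) = (1 + y) ^ (-c) * (1 + y)⁻¹ := by
      rw [← Real.rpow_neg_one, ← Real.rpow_add (by linarith)]; congr 1; ring
    have h2 : (1 + y) ^ (-(k : ℝ)) = ((1 + y)⁻¹) ^ k := by
      rw [Real.rpow_neg (by linarith), Real.rpow_natCast, inv_pow]
    have h3 : 1 - (1 + y)⁻¹ = y * (1 + y)⁻¹ := by
      field_simp; ring
    rw [h1, h2, h3]
    field_simp
  have hFi : ∀ k : ℕ, 0 < k → Integrable (F k) (S.prod T) := by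
    intro k hk
    refine ⟨(hFm k).aestronglyMeasurable, ?_⟩
    rw [hasFiniteIntegral_iff_ofReal (hFae k), hFl k hk]
    exact ENNReal.ofReal_lt_top
  have hFint : ∀ k : ℕ, 0 < k → ∫ z, F k z ∂(S.prod T) = -Real.log (betM a b (s * k)) := by
    intro k hk
    rw [integral_eq_lintegral_of_nonneg_ae (hFae k) (hFm k).aestronglyMeasurable, hFl k hk,
      ENNReal.toReal_ofReal]
    have h1 := hle (s * k) (by positivity)
    have h2 := betM_pos ha hb (r := s * k) (by positivity)
    have := Real.log_nonpos h2.le h1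
    linarith
  have h1 : ∑ j : Fin K, w j * (-Real.log (betM a b (s * ((j : ℕ) + 1 : ℝ)))) =
      ∫ z, ∑ j : Fin K, w j * F (j + 1) z ∂(S.prod T) := by
    rw [integral_finsetSum _ fun j _ => (hFi _ (Nat.succ_pos _)).const_mul _]
    refine Finset.sum_congr rfl fun j _ => ?_
    rw [integral_const_mul, hFint _ (Nat.succ_pos _)]
    push_cast
    rfl
  have hsumi : Integrable (fun z => ∑ j : Fin K, w j * F (j + 1) z) (S.prod T) :=
    integrable_finsetSum _ fun j _ => (hFi _ (Nat.succ_pos _)).const_mul _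
  rw [h1, integral_prod _ hsumi]
  apply integral_nonneg_of_ae
  have h3 : ∀ᵐ c ∂S, ∀ j : Fin K, Integrable (fun y : ℝ => F (j + 1) (c, y)) T := by
    rw [ae_all_iff]
    intro j
    exact (hFi _ (Nat.succ_pos _)).prod_right_ae
  have h4 : ∀ᵐ c ∂S, c ∈ Ioc (a / s) ((a + b) / s) := ae_restrict_mem measurableSet_Ioc
  filter_upwards [h3, h4] with c h5 h6
  have hc : 0 < c := lt_trans (by positivity) h6.1
  exact claimA hc hρ hG w hw h5

end Pool.Agent.Helper7.GGC
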