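import Mathlib
import Pool.Agent.Helper7.GGC.Combine

open MeasureTheory Filter Topology Set Metric ProbabilityTheory
open scoped ENNReal NNReal unitInterval ComplexConjugate

namespace Pool.Agent.Helper7.GGC

lemma betM_le_one {a b : ℝ} (hint : IntegrableOn (betw a b) (Ioo 0 1)) (hZ : 0 < betZ a b)
    (hmom : ∀ r : ℝ, 0 ≤ r → ∫ x in Ioo (0 : ℝ) 1, x ^ r * betw a b x = betZ a b * betM a b r)
    {r : ℝ} (hr : 0 ≤ r) : betM a b r ≤ 1 := by
  have h1 : ∫ x in Ioo (0 : ℝ) 1, x ^ r * betw a b x ≤ ∫ x in Ioo (0 : ℝ) 1, betw a b x := by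
    have hle : ∀ x ∈ Ioo (0 : ℝ) 1, x ^ r * betw a b x ≤ betw a b x := by
      intro x hx
      have h2 := betw_nonneg a b hx
      have h3 : x ^ r ≤ 1 := Real.rpow_le_one hx.1.le hx.2.le hr
      nlinarith
    apply setIntegral_mono_on _ hint measurableSet_Ioo hle
    apply Integrable.mono' hint
    · have := measurable_betw a b
      exact Measurable.aestronglyMeasurable (by fun_prop)
    · rw [ae_restrict_iff' measurableSet_Ioo]
      filter_upwards with x hx
      have h2 := betw_nonneg a b hx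
      have h3 : 0 < x ^ r := Real.rpow_pos_of_pos hx.1 r
      rw [Real.norm_eq_abs, abs_of_nonneg (by positivity)]
      exact hle x hx
  have h2 : (∫ x in Ioo (0 : ℝ) 1, betw a b x) = betZ a b := rfl
  rw [hmom r hr, h2] at h1
  by_contra hcon
  push Not at hcon
  nlinarith

end Pool.Agent.Helper7.GGC
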