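import Mathlib
import Pool.Agent.Helper7.GGC.BetaFinal

open MeasureTheory Filter Topology Set Metric ProbabilityTheory
open scoped ENNReal NNReal unitInterval ComplexConjugate

namespace Pool.Agent.Helper7.GGC

lemma lintegral_betw {a b : ℝ} (ha : 0 < a) (hb : 0 < b) :
    ∫⁻ x in Ioo (0 : ℝ) 1, ENNReal.ofReal (betw a b x) = ENNReal.ofReal (beta a b) := by
  have h1 := lintegral_betaPDF_eq_one ha hb
  rw [lintegral_betaPDF] at h1
  have h2 := beta_pos ha hb
  have h3 : ∀ x ∈ Ioo (0 : ℝ) 1, ENNReal.ofReal (betw a b x) =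
      ENNReal.ofReal (beta a b) * ENNReal.ofReal (1 / beta a b * x ^ (a - 1) * (1 - x) ^ (b - 1)) := by
    intro x _
    rw [← ENNReal.ofReal_mul h2.le]
    congr 1
    unfold betw
    field_simp
  rw [setLIntegral_congr_fun measurableSet_Ioo h3, lintegral_const_mul' _ _ ENNReal.ofReal_ne_top,
    h1, mul_one]

lemma betw_ae_nonneg (a b : ℝ) : 0 ≤ᵐ[volume.restrict (Ioo (0 : ℝ) 1)] betw a b := by
  rw [EventuallyLE, ae_restrict_iff' measurableSet_Ioo]
  filter_upwards with x hx
  exact betw_nonneg a b hx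

lemma betw_integrable {a b : ℝ} (ha : 0 < a) (hb : 0 < b) : IntegrableOn (betw a b) (Ioo 0 1) := by
  refine ⟨(measurable_betw a b).aestronglyMeasurable, ?_⟩
  rw [hasFiniteIntegral_iff_ofReal (betw_ae_nonneg a b), lintegral_betw ha hb]
  exact ENNReal.ofReal_lt_top

lemma betZ_eq {a b : ℝ} (ha : 0 < a) (hb : 0 < b) : betZ a b = beta a b := by
  unfold betZ
  rw [integral_eq_lintegral_of_nonneg_ae (betw_ae_nonneg a b)
    (measurable_betw a b).aestronglyMeasurable, lintegral_betw ha hb,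
    ENNReal.toReal_ofReal (beta_pos ha hb).le]

lemma betZ_pos {a b : ℝ} (ha : 0 < a) (hb : 0 < b) : 0 < betZ a b := by
  rw [betZ_eq ha hb]; exact beta_pos ha hb

lemma bet_moment {a b r : ℝ} (ha : 0 < a) (hb : 0 < b) (hr : 0 ≤ r) :
    ∫ x in Ioo (0 : ℝ) 1, x ^ r * betw a b x = betZ a b * betM a b r := by
  have h1 : ∫ x in Ioo (0 : ℝ) 1, x ^ r * betw a b x = betZ (a + r) b := by
    unfold betZ
    apply setIntegral_congr_fun measurableSet_Ioo
    intro x hx
    simp only [betw]
    rw [← mul_assoc, ← Real.rpow_add hx.1]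
    congr 2; ring
  rw [h1, betZ_eq (by positivity) hb, betZ_eq ha hb]
  unfold beta betM
  have h2 := (Real.Gamma_pos_of_pos ha).ne'
  have h3 := (Real.Gamma_pos_of_pos (show 0 < a + b by positivity)).ne'
  have h4 := (Real.Gamma_pos_of_pos (show 0 < a + r + b by positivity)).ne'
  have h5 : a + b + r = a + r + b := by ring
  rw [h5]
  field_simp

end Pool.Agent.Helper7.GGC
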