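import Mathlib
import Pool.Agent.Helper7.GGC.BetaMom

open MeasureTheory Filter Topology Set Metric ProbabilityTheory
open scoped ENNReal NNReal unitInterval ComplexConjugate

namespace Pool.Agent.Helper7.GGC

lemma bl_one {c k : ℝ} (hc : 0 < c) (hk : 0 < k) :
    ∫⁻ x in Ioi (1 : ℝ), ENNReal.ofReal ((1 - x ^ (-k)) * x ^ (-1 - c)) =
      ENNReal.ofReal (1 / c - 1 / (c + k)) := by
  have h1 : IntegrableOn (fun x : ℝ => x ^ (-1 - c)) (Ioi 1) :=
    integrableOn_Ioi_rpow_of_lt (by linarith) one_pos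
  have h2 : IntegrableOn (fun x : ℝ => x ^ (-1 - (c + k))) (Ioi 1) :=
    integrableOn_Ioi_rpow_of_lt (by linarith) one_pos
  have h3 : ∫ x in Ioi (1 : ℝ), x ^ (-1 - c) = 1 / c := by
    rw [integral_Ioi_rpow_of_lt (by linarith) one_pos, Real.one_rpow]
    have : -1 - c + 1 = -c := by ring
    rw [this, neg_div_neg_eq]
  have h4 : ∫ x in Ioi (1 : ℝ), x ^ (-1 - (c + k)) = 1 / (c + k) := by
    rw [integral_Ioi_rpow_of_lt (by linarith) one_pos, Real.one_rpow]
    have : -1 - (c + k) + 1 = -(c + k) := by ring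
    rw [this, neg_div_neg_eq]
  have h5 : ∀ x ∈ Ioi (1 : ℝ), (1 - x ^ (-k)) * x ^ (-1 - c) = x ^ (-1 - c) - x ^ (-1 - (c + k)) := by
    intro x hx
    have hx0 : 0 < x := lt_trans one_pos hx
    have : x ^ (-1 - (c + k)) = x ^ (-k) * x ^ (-1 - c) := by
      rw [← Real.rpow_add hx0]; congr 1; ring
    rw [this]; ring
  have h6 : ∫⁻ x in Ioi (1 : ℝ), ENNReal.ofReal ((1 - x ^ (-k)) * x ^ (-1 - c)) =
      ∫⁻ x in Ioi (1 : ℝ), ENNReal.ofReal (x ^ (-1 - c) - x ^ (-1 - (c + k))) := by
    apply setLIntegral_congr_fun measurableSet_Ioi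
    intro x hx
    simp only
    rw [h5 x hx]
  have h7 : Integrable (fun x : ℝ => x ^ (-1 - c) - x ^ (-1 - (c + k)))
      (volume.restrict (Ioi 1)) := h1.sub h2
  rw [h6, ← ofReal_integral_eq_lintegral_ofReal h7, integral_sub h1 h2, h3, h4]
  rw [EventuallyLE, ae_restrict_iff' measurableSet_Ioi]
  filter_upwards with x hx
  have hx1 : 1 < x := hx
  simp only [Pi.zero_apply]
  rw [sub_nonneg]
  exact Real.rpow_le_rpow_of_exponent_le hx1.le (by linarith)

lemma bl_geom {c k δ : ℝ} (hc : 0 < c) (hk : 0 < k) (hδ : 0 < δ) :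
    ∫⁻ x in Ioi (1 : ℝ), ENNReal.ofReal ((1 - x ^ (-k)) * x ^ (-1 - c) / (1 - x ^ (-δ))) =
      ∑' m : ℕ, ENNReal.ofReal (1 / (c + m * δ) - 1 / (c + m * δ + k)) := by
  have h1 : ∀ m : ℕ, ENNReal.ofReal (1 / (c + m * δ) - 1 / (c + m * δ + k)) =
      ∫⁻ x in Ioi (1 : ℝ), ENNReal.ofReal ((1 - x ^ (-k)) * x ^ (-1 - (c + m * δ))) := by
    intro m
    rw [bl_one (by positivity) hk]
  simp_rw [h1]
  rw [← lintegral_tsum (fun m => Measurable.aemeasurable (by fun_prop))]
  apply setLIntegral_congr_fun measurableSet_Ioi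
  intro x hx
  have hx1 : 1 < x := hx
  have hx0 : 0 < x := by linarith
  have hq0 : 0 ≤ x ^ (-δ) := by positivity
  have hq1 : x ^ (-δ) < 1 := Real.rpow_lt_one_of_one_lt_of_neg hx1 (by linarith)
  have hk1 : x ^ (-k) ≤ 1 := (Real.rpow_lt_one_of_one_lt_of_neg hx1 (by linarith)).le
  have hterm : ∀ m : ℕ, (1 - x ^ (-k)) * x ^ (-1 - (c + m * δ)) =
      (1 - x ^ (-k)) * x ^ (-1 - c) * (x ^ (-δ)) ^ m := by
    intro m
    rw [mul_assoc, ← Real.rpow_natCast (x ^ (-δ)), ← Real.rpow_mul hx0.le, ← Real.rpow_add hx0]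
    congr 2; ring
  simp only
  simp_rw [hterm]
  have hnn : 0 ≤ (1 - x ^ (-k)) * x ^ (-1 - c) := mul_nonneg (by linarith) (by positivity)
  rw [← ENNReal.ofReal_tsum_of_nonneg (fun m => by positivity)
    ((summable_geometric_of_lt_one hq0 hq1).mul_left _), tsum_mul_left,
    tsum_geometric_of_lt_one hq0 hq1, div_eq_mul_inv]

/-- the summands -/
noncomputable def bl (a b r : ℝ) (m : ℕ) : ℝ :=
  Real.log (a + b + m) - Real.log (a + m) - Real.log (a + b + r + m) + Real.log (a + r + m)

lemma bl_int {a b s k : ℝ} (ha : 0 < a) (hb : 0 < b) (hs : 0 < s) (hk : 0 < k) (m : ℕ) :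
    ∫⁻ c in Ioc (a / s) ((a + b) / s),
      ENNReal.ofReal (1 / (c + m * (1 / s)) - 1 / (c + m * (1 / s) + k)) =
      ENNReal.ofReal (bl a b (s * k) m) ∧ 0 ≤ bl a b (s * k) m := by
  have hab : a / s ≤ (a + b) / s := by gcongr; linarith
  have hm : (0 : ℝ) ≤ m := Nat.cast_nonneg m
  have hcc : ∀ c ∈ uIcc (a / s) ((a + b) / s), 0 < c := by
    intro c hc
    rw [uIcc_of_le hab] at hc
    exact lt_of_lt_of_le (by positivity) hc.1
  have hd : ∀ c ∈ uIcc (a / s) ((a + b) / s), HasDerivAt
      (fun c => Real.log (c + m * (1 / s)) - Real.log (c + m * (1 / s) + k))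
      (1 / (c + m * (1 / s)) - 1 / (c + m * (1 / s) + k)) c := by
    intro c hc
    have hc0 := hcc c hc
    have e1 : HasDerivAt (fun c : ℝ => c + m * (1 / s)) 1 c := (hasDerivAt_id c).add_const _
    have e2 : HasDerivAt (fun c : ℝ => c + m * (1 / s) + k) 1 c := e1.add_const _
    exact (e1.log (by positivity)).sub (e2.log (by positivity))
  have hcont : ContinuousOn (fun c => 1 / (c + m * (1 / s)) - 1 / (c + m * (1 / s) + k))
      (uIcc (a / s) ((a + b) / s)) := by
    apply ContinuousOn.sub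
    · apply ContinuousOn.div continuousOn_const (by fun_prop)
      intro c hc
      have := hcc c hc
      positivity
    · apply ContinuousOn.div continuousOn_const (by fun_prop)
      intro c hc
      have := hcc c hc
      positivity
  have hii := hcont.intervalIntegrable (μ := volume)
  have h1 := intervalIntegral.integral_eq_sub_of_hasDerivAt hd hii
  rw [intervalIntegral.integral_of_le hab] at h1
  have hio : IntegrableOn (fun c => 1 / (c + m * (1 / s)) - 1 / (c + m * (1 / s) + k))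
      (Ioc (a / s) ((a + b) / s)) := (intervalIntegrable_iff_integrableOn_Ioc_of_le hab).1 hii
  have hnn : ∀ c ∈ Ioc (a / s) ((a + b) / s),
      0 ≤ 1 / (c + m * (1 / s)) - 1 / (c + m * (1 / s) + k) := by
    intro c hc
    have hc0 : 0 < c := lt_trans (by positivity) hc.1
    rw [sub_nonneg]
    apply one_div_le_one_div_of_le (by positivity)
    linarith
  have hval : (Real.log ((a + b) / s + m * (1 / s)) - Real.log ((a + b) / s + m * (1 / s) + k)) -
      (Real.log (a / s + m * (1 / s)) - Real.log (a / s + m * (1 / s) + k)) =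
      bl a b (s * k) m := by
    have e1 : (a + b) / s + m * (1 / s) = (a + b + m) / s := by field_simp
    have e2 : (a + b) / s + m * (1 / s) + k = (a + b + s * k + m) / s := by field_simp; ring
    have e3 : a / s + m * (1 / s) = (a + m) / s := by field_simp
    have e4 : a / s + m * (1 / s) + k = (a + s * k + m) / s := by field_simp; ring
    rw [e2, e1, e4, e3, Real.log_div (by positivity) hs.ne', Real.log_div (by positivity) hs.ne',
      Real.log_div (by positivity) hs.ne', Real.log_div (by positivity) hs.ne']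
    unfold bl
    ring
  rw [hval] at h1
  constructor
  · rw [← h1, ofReal_integral_eq_lintegral_ofReal hio]
    rw [EventuallyLE, ae_restrict_iff' measurableSet_Ioc]
    filter_upwards with c hc using hnn c hc
  · rw [← h1]
    exact setIntegral_nonneg measurableSet_Ioc hnn

lemma bl_tendsto {a b r : ℝ} (ha : 0 < a) (hb : 0 < b) (hr : 0 ≤ r) :
    Tendsto (fun n => ∑ m ∈ Finset.range (n + 1), bl a b r m) atTop
      (𝓝 (-Real.log (betM a b r))) := by
  have h1 := Real.BohrMollerup.tendsto_log_gamma ha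
  have h2 := Real.BohrMollerup.tendsto_log_gamma (show 0 < a + b by positivity)
  have h3 := Real.BohrMollerup.tendsto_log_gamma (show 0 < a + b + r by positivity)
  have h4 := Real.BohrMollerup.tendsto_log_gamma (show 0 < a + r by positivity)
  have h5 := ((h1.sub h2).add h3).sub h4
  have hlim : Real.log (Real.Gamma a) - Real.log (Real.Gamma (a + b)) +
      Real.log (Real.Gamma (a + b + r)) - Real.log (Real.Gamma (a + r)) =
      -Real.log (betM a b r) := by
    have g1 := (Real.Gamma_pos_of_pos ha).ne'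
    have g2 := (Real.Gamma_pos_of_pos (show 0 < a + b by positivity)).ne'
    have g3 := (Real.Gamma_pos_of_pos (show 0 < a + b + r by positivity)).ne'
    have g4 := (Real.Gamma_pos_of_pos (show 0 < a + r by positivity)).ne'
    unfold betM
    rw [Real.log_div (mul_ne_zero g4 g2) (mul_ne_zero g1 g3), Real.log_mul g4 g2,
      Real.log_mul g1 g3]
    ring
  rw [hlim] at h5
  refine h5.congr fun n => ?_
  unfold Real.BohrMollerup.logGammaSeq bl
  simp only [Finset.sum_add_distrib, Finset.sum_sub_distrib]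
  ring

theorem beta_levy {a b s k : ℝ} (ha : 0 < a) (hb : 0 < b) (hs : 0 < s) (hk : 0 < k) :
    ∫⁻ c in Ioc (a / s) ((a + b) / s), ∫⁻ x in Ioi (1 : ℝ),
      ENNReal.ofReal ((1 - x ^ (-k)) * x ^ (-1 - c) / (1 - x ^ (-(1 / s)))) =
        ENNReal.ofReal (-Real.log (betM a b (s * k))) := by
  have h1 : ∫⁻ c in Ioc (a / s) ((a + b) / s), ∫⁻ x in Ioi (1 : ℝ),
      ENNReal.ofReal ((1 - x ^ (-k)) * x ^ (-1 - c) / (1 - x ^ (-(1 / s)))) =
      ∫⁻ c in Ioc (a / s) ((a + b) / s),
        ∑' m : ℕ, ENNReal.ofReal (1 / (c + m * (1 / s)) - 1 / (c + m * (1 / s) + k)) := by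
    apply setLIntegral_congr_fun measurableSet_Ioc
    intro c hc
    have hc0 : 0 < c := lt_trans (by positivity) hc.1
    exact bl_geom hc0 hk (by positivity)
  rw [h1, lintegral_tsum (fun m => Measurable.aemeasurable (by fun_prop))]
  simp_rw [fun m => (bl_int ha hb hs hk m).1]
  have h2 : Tendsto (fun n => ∑ m ∈ Finset.range (n + 1), ENNReal.ofReal (bl a b (s * k) m)) atTop
      (𝓝 (∑' m, ENNReal.ofReal (bl a b (s * k) m))) :=
    (ENNReal.tendsto_nat_tsum _).comp (tendsto_add_atTop_nat 1)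
  have h3 : Tendsto (fun n => ∑ m ∈ Finset.range (n + 1), ENNReal.ofReal (bl a b (s * k) m)) atTop
      (𝓝 (ENNReal.ofReal (-Real.log (betM a b (s * k))))) := by
    have h4 := ENNReal.tendsto_ofReal (bl_tendsto ha hb (r := s * k) (by positivity))
    refine h4.congr fun n => ?_
    rw [ENNReal.ofReal_sum_of_nonneg]
    intro m _
    exact (bl_int ha hb hs hk m).2
  exact tendsto_nhds_unique h2 h3

end Pool.Agent.Helper7.GGC
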